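import Pool.Agent.Helper72.QT.Basic

/-!
# QT-11: rational surfaces are unirational; the function field

PROOFS.
* `indep_ss_tt`: `tt k` and `ss k` are algebraically independent (`RatFunc.transcendental_X`, `AlgebraicIndependent` of a pair: `algebraicIndependent_...option`/`Fin.cons` lemmas; `ss k` is transcendental over `RatFunc k`, so over the
  subalgebra generated by `tt k`).
* `adjoin_ss_tt`: every element of `RatFunc (RatFunc k)` is a quotient of polynomials.
* `exists_equiv`: `AlgebraicIndependent.aevalEquivField` and `adjoin_ss_tt`.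
* `uni_of_rat`: let `z_j = y_j / y_i`, they generate `K`, so `K` is algebraic over `Algebra.adjoin k (range z)`; `exists_isTranscendenceBasis_subset` gives a transcendence basis contained in the range of `z`, it has two elements
  (all transcendence bases have the same cardinality as `![tt, ss]`, `IsTranscendenceBasis` of `![tt, ss]` by `adjoin_ss_tt`), `z_j` and `z_l`.
-/

set_option autoImplicit false

namespace Pool.Agent.Helper72.QT

open Polynomial

variable {k : Type*} [Field k] {N : ℕ} {T : Ten k N}

private theorem vec_eq : Sum.elim (fun _ : Unit => ss k) (algebraMap (RatFunc k) (KK k) ∘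
    fun _ : Unit => RatFunc.X) ∘ ![Sum.inr (), Sum.inl ()] = ![tt k, ss k] := by
  funext i
  fin_cases i <;> rfl

theorem indep_ss_tt : AlgebraicIndependent k ![tt k, ss k] := by
  have h1 : AlgebraicIndependent k (fun _ : Unit => (RatFunc.X : RatFunc k)) :=
    algebraicIndependent_unique_type_iff.2 RatFunc.transcendental_X
  have h2 : AlgebraicIndependent (RatFunc k) (fun _ : Unit => ss k) :=
    algebraicIndependent_unique_type_iff.2 RatFunc.transcendental_X
  have h3 := AlgebraicIndependent.sumElim_comp h1 h2
  have h4 := h3.comp (![Sum.inr (), Sum.inl ()] : Fin 2 → Unit ⊕ Unit) (by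
    intro a b
    fin_cases a <;> fin_cases b <;> simp)
  rwa [vec_eq] at h4

theorem adjoin_ss_tt : IntermediateField.adjoin k (Set.range ![tt k, ss k]) = ⊤ := by
  obtain ⟨L, hL⟩ : ∃ L : IntermediateField k (KK k),
    L = IntermediateField.adjoin k (Set.range ![tt k, ss k]) := ⟨_, rfl⟩
  rw [← hL]
  have ht : tt k ∈ L := by
    rw [hL]
    exact IntermediateField.subset_adjoin _ _ ⟨0, rfl⟩
  have hs : ss k ∈ L := by
    rw [hL]
    exact IntermediateField.subset_adjoin _ _ ⟨1, rfl⟩
  have h1 : ∀ a : RatFunc k, algebraMap (RatFunc k) (KK k) a ∈ L := by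
    intro a
    have h2 : (⊤ : IntermediateField k (RatFunc k)) ≤
        L.comap (IsScalarTower.toAlgHom k (RatFunc k) (KK k)) := by
      rw [← RatFunc.adjoin_X, IntermediateField.adjoin_le_iff, Set.singleton_subset_iff]
      exact ht
    exact h2 (IntermediateField.mem_top (x := a))
  have h3 : (⊤ : IntermediateField (RatFunc k) (KK k)) ≤ L.toSubfield.toIntermediateField h1 := by
    rw [← RatFunc.adjoin_X, IntermediateField.adjoin_le_iff, Set.singleton_subset_iff]
    exact hs
  rw [eq_top_iff]
  intro x _
  exact h3 (IntermediateField.mem_top (x := x))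

theorem exists_equiv : Nonempty (KK k ≃ₐ[k] FractionRing (MvPolynomial (Fin 2) k)) := by
  exact ⟨((IntermediateField.topEquiv.symm.trans
    (IntermediateField.equivOfEq (adjoin_ss_tt (k := k)).symm)).trans
      (indep_ss_tt (k := k)).aevalEquivField.symm)⟩

private theorem alg_of_adjoin {s : Set (KK k)} (h : IntermediateField.adjoin k s = ⊤) :
    Algebra.IsAlgebraic (Algebra.adjoin k s) (KK k) := by
  rw [← IntermediateField.isAlgebraic_adjoin_iff_top]
  refine ⟨fun x => ?_⟩
  have hx : x ∈ IntermediateField.adjoin k s := by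
    rw [h]
    exact IntermediateField.mem_top
  exact isAlgebraic_algebraMap (⟨x, hx⟩ : IntermediateField.adjoin k s)

private theorem basis_ss_tt : IsTranscendenceBasis k ![tt k, ss k] := by
  have := alg_of_adjoin (k := k) adjoin_ss_tt
  exact (indep_ss_tt (k := k)).isTranscendenceBasis_iff_isAlgebraic.2 this

theorem uni_of_rat (h : ContRat T) : ContUni T := by
  obtain ⟨y, hy, i, hi, hadj⟩ := h
  refine ⟨y, hy, i, ?_⟩
  have halg := alg_of_adjoin hadj
  obtain ⟨t, hts, ht⟩ := exists_isTranscendenceBasis_subset (R := k)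
    (Set.range fun j => y j / y i)
  have hcard := IsTranscendenceBasis.lift_cardinalMk_eq (basis_ss_tt (k := k)) ht
  have hc2 : Cardinal.mk t = 2 := by
    have h1 : Cardinal.lift.{_, 0} (Cardinal.mk (Fin 2)) = 2 := by simp
    rw [h1] at hcard
    have h2 : Cardinal.lift.{0} (Cardinal.mk t) = 2 := hcard.symm
    simpa using h2
  have ht2 : Nat.card t = 2 := by
    rw [Nat.card, hc2]
    simp
  have hfin : Finite t := Nat.finite_of_card_ne_zero (by rw [ht2]; norm_num)
  let e : Fin 2 ≃ t := (Finite.equivFinOfCardEq ht2).symm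
  obtain ⟨j, hj⟩ := hts (e 0).2
  obtain ⟨l, hl⟩ := hts (e 1).2
  refine ⟨j, l, hi, ?_⟩
  have h1 := ht.1.comp e e.injective
  have h2 : (((↑) : t → KK k) ∘ e) = ![y j / y i, y l / y i] := by
    funext a
    fin_cases a
    · exact hj.symm
    · exact hl.symm
  rwa [h2] at h1

end Pool.Agent.Helper72.QT
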