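import Pool.Agent.Helper72.QT.LamDim

/-!
# QT-24: the case of a transcendental parameter

PROOF. Let `F = RatFunc k`, `x' = toR x ∈ F^5`, `Λ = {z ∈ F^5 : ∀ n, ∑_j AA n j z_j = 0}`. CASE 1 of `lam_dim`: three of the functionals `AA n` are independent over `k`, so over `F` (`LinearIndependent` after extension of scalars: for instance a `3 × 3`
minor is not zero; or `exists_dual`-like left inverse), so `dim Λ ≤ 2`. CASE 2: `dim Λ ≤ 3` and `x' ∈ Λ`. In both cases `Λ' = Λ + F x'` has dimension `≤ 3`, so not all of `p0, p1, p2` are in `Λ'` (with `x'` they are `4` independent vectors). So there is a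
functional `φ : F^5 → F` which vanishes on `Λ'` but not at all `p_i`. `φ` is an `F`-combination of the functionals `AA n` (double annihilator in finite dimension: `φ` vanishes on the common kernel), so `φ` (extended to `K`) vanishes at `y` (`hy`), and at `x'`. As `4 c v = f(v) x' - y`
(`resid`), `φ(v) = 0`: `φ(p0) + s φ(p1) + s² φ(p2) = 0` in `K = RatFunc F`, `s = RatFunc.X`, so all `φ(p_i) = 0`. Contradiction.
-/

set_option autoImplicit false

namespace Pool.Agent.Helper72.QT

open Polynomial

private theorem exists_left {k : Type*} [Field k] {D : ℕ} (v : Fin D → Fin 5 → k)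
    (hv : LinearIndependent k v) : ∃ g : Fin D → Fin 5 → k,
      ∀ q p, ∑ j, g q j * v p j = if q = p then 1 else 0 := by
  let L : (Fin D → k) →ₗ[k] (Fin 5 → k) := Fintype.linearCombination k v
  have hL : LinearMap.ker L = ⊥ := by
    rw [LinearMap.ker_eq_bot]
    exact hv.fintypeLinearCombination_injective
  obtain ⟨G, hG⟩ := LinearMap.exists_leftInverse_of_injective L hL
  refine ⟨fun q j => G (Pi.single j 1) q, ?_⟩
  intro q p
  have h1 : L (Pi.single p 1) = v p := by
    change Fintype.linearCombination k v (Pi.single p 1) = v p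
    rw [Fintype.linearCombination_apply_single, one_smul]
  have h2 : G (v p) = Pi.single p 1 := by
    rw [← h1]
    exact LinearMap.congr_fun hG _
  have h3 : v p = ∑ j, v p j • (Pi.single j 1 : Fin 5 → k) := by
    funext i
    simp [Finset.sum_apply, Pi.single_apply]
  have h4 : G (v p) q = ∑ j, v p j * G (Pi.single j 1) q := by
    conv_lhs => rw [h3]
    rw [map_sum, Finset.sum_apply]
    refine Finset.sum_congr rfl fun j _ => ?_
    rw [map_smul, Pi.smul_apply, smul_eq_mul]
  rw [h2, Pi.single_apply] at h4
  rw [h4]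
  exact Finset.sum_congr rfl fun j _ => mul_comm _ _

private theorem indep_ext {k F : Type*} [Field k] [Field F] [Algebra k F] {D : ℕ}
    (v : Fin D → Fin 5 → k) (hv : LinearIndependent k v) (c : Fin D → F)
    (hc : ∀ j, ∑ p, c p * algebraMap k F (v p j) = 0) : c = 0 := by
  obtain ⟨g, hg⟩ := exists_left v hv
  funext q
  have h1 : ∑ j, algebraMap k F (g q j) * ∑ p, c p * algebraMap k F (v p j) = c q := by
    simp only [Finset.mul_sum]
    rw [Finset.sum_comm]
    have h2 : ∀ p, ∑ j, algebraMap k F (g q j) * (c p * algebraMap k F (v p j)) =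
        c p * (if q = p then 1 else 0) := by
      intro p
      have h3 : algebraMap k F (∑ j, g q j * v p j) = if q = p then 1 else 0 := by
        rw [hg]
        split_ifs
        · exact map_one _
        · exact map_zero _
      rw [← h3, map_sum, Finset.mul_sum]
      refine Finset.sum_congr rfl fun j _ => ?_
      rw [map_mul]
      ring
    simp only [h2]
    rw [Finset.sum_eq_single q]
    · rw [if_pos rfl, mul_one]
    · intro p _ hp
      rw [if_neg (Ne.symm hp), mul_zero]
    · intro h
      exact absurd (Finset.mem_univ q) h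
  rw [← h1]
  simp only [hc, mul_zero, Finset.sum_const_zero]
  rfl

private theorem key {k F : Type*} [Field k] [Field F] [Algebra k F] {D : ℕ}
    (v : Fin D → Fin 5 → k) (hv : LinearIndependent k v) (x p0 p1 p2 : Fin 5 → F)
    (li : LinearIndependent F ![x, p0, p1, p2])
    (hD : 3 ≤ D ∨ (2 ≤ D ∧ ∀ p, ∑ j, algebraMap k F (v p j) * x j = 0)) :
    ∃ c : Fin D → F, (∑ j, (∑ p, c p * algebraMap k F (v p j)) * x j = 0) ∧
      (∑ j, (∑ p, c p * algebraMap k F (v p j)) * p0 j ≠ 0 ∨
        ∑ j, (∑ p, c p * algebraMap k F (v p j)) * p1 j ≠ 0 ∨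
        ∑ j, (∑ p, c p * algebraMap k F (v p j)) * p2 j ≠ 0) := by
  -- the functional of a coefficient vector
  let P : (Fin D → F) →ₗ[F] Module.Dual F (Fin 5 → F) :=
    { toFun := fun c =>
        { toFun := fun z => ∑ j, (∑ p, c p * algebraMap k F (v p j)) * z j
          map_add' := fun z z' => by
            simp only [Pi.add_apply, mul_add, Finset.sum_add_distrib]
          map_smul' := fun a z => by
            simp only [Pi.smul_apply, smul_eq_mul, RingHom.id_apply, Finset.mul_sum]
            exact Finset.sum_congr rfl fun j _ => by ring }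
      map_add' := fun c c' => by
        ext1 j
        apply LinearMap.ext
        intro t
        simp [add_mul, Finset.sum_add_distrib]
      map_smul' := fun a c => by
        apply LinearMap.ext
        intro z
        change ∑ j, (∑ p, (a * c p) * algebraMap k F (v p j)) * z j =
          a * ∑ j, (∑ p, c p * algebraMap k F (v p j)) * z j
        rw [Finset.mul_sum]
        refine Finset.sum_congr rfl fun j _ => ?_
        rw [← mul_assoc, Finset.mul_sum]
        congr 1
        exact Finset.sum_congr rfl fun p _ => mul_assoc _ _ _ }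
  have hP : ∀ c z, P c z = ∑ j, (∑ p, c p * algebraMap k F (v p j)) * z j := fun _ _ => rfl
  have hPinj : Function.Injective P := by
    rw [← LinearMap.ker_eq_bot, LinearMap.ker_eq_bot']
    intro c hc
    apply indep_ext v hv c
    intro j
    have h1 : P c (Pi.single j 1) = 0 := by rw [hc]; rfl
    rw [hP, Finset.sum_eq_single j] at h1
    · rw [Pi.single_eq_same, mul_one] at h1
      exact h1
    · intro i _ hi
      rw [Pi.single_eq_of_ne hi, mul_zero]
    · intro h
      exact absurd (Finset.mem_univ j) h
  -- the coefficient vectors killing `x`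
  let e : (Fin D → F) →ₗ[F] F := (Module.Dual.eval F (Fin 5 → F) x).comp P
  have he : ∀ c, e c = P c x := fun _ => rfl
  have hfr : 2 ≤ Module.finrank F (LinearMap.ker e) := by
    have h1 := LinearMap.finrank_range_add_finrank_ker e
    rw [Module.finrank_fin_fun] at h1
    rcases hD with hD | ⟨hD, hx⟩
    · have h2 : Module.finrank F (LinearMap.range e) ≤ 1 := by
        have := Submodule.finrank_le (LinearMap.range e)
        rwa [Module.finrank_self] at this
      omega
    · have h2 : e = 0 := by
        ext1 p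
        apply LinearMap.ext
        intro t
        have h3 : e (Pi.single p t) = t * ∑ j, algebraMap k F (v p j) * x j := by
          rw [he, hP, Finset.mul_sum]
          refine Finset.sum_congr rfl fun j _ => ?_
          rw [Finset.sum_eq_single p]
          · rw [Pi.single_eq_same, mul_assoc]
          · intro i _ hi
            rw [Pi.single_eq_of_ne hi, zero_mul]
          · intro h
            exact absurd (Finset.mem_univ p) h
        rw [hx, mul_zero] at h3
        exact h3
      rw [h2, LinearMap.range_zero, finrank_bot] at h1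
      rw [h2]
      omega
  by_contra hcon
  push Not at hcon
  set U : Submodule F (Fin 5 → F) := Submodule.span F (Set.range ![x, p0, p1, p2]) with hU
  have hU4 : Module.finrank F U = 4 := by
    have := finrank_span_eq_card li
    simpa using this
  have hann := Subspace.finrank_add_finrank_dualAnnihilator_eq U
  rw [hU4, Module.finrank_fin_fun] at hann
  have hle : (LinearMap.ker e).map P ≤ U.dualAnnihilator := by
    rintro _ ⟨c, hc, rfl⟩
    rw [Submodule.mem_dualAnnihilator]
    have hcx : P c x = 0 := hc
    obtain ⟨h0, h1, h2⟩ := hcon c hcx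
    intro w hw
    rw [hU] at hw
    induction hw using Submodule.span_induction with
    | mem w hw =>
      obtain ⟨i, rfl⟩ := hw
      fin_cases i
      · exact hcx
      · exact h0
      · exact h1
      · exact h2
    | zero => exact map_zero _
    | add a b _ _ ha hb => rw [map_add, ha, hb, add_zero]
    | smul a b _ hb => rw [map_smul, hb, smul_zero]
  have hfin := Submodule.finrank_mono hle
  have hmap : Module.finrank F ((LinearMap.ker e).map P) = Module.finrank F (LinearMap.ker e) :=
    (Submodule.equivMapOfInjective P hPinj (LinearMap.ker e)).finrank_eq.symm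
  omega

private theorem finish {k : Type*} [Field k] {T : Ten k 5} (h2 : (2 : k) ≠ 0) (x : Fin 5 → k[X])
    {D : ℕ} (κ : Fin D → ℕ) (hκ : LinearIndependent k (fun p => AA T x (κ p)))
    (hD : 3 ≤ D ∨ (2 ≤ D ∧ ∀ p, ∑ j, algebraMap k (RatFunc k) (AA T x (κ p) j) * toR x j = 0))
    (p0 p1 p2 : Fin 5 → RatFunc k)
    (li : LinearIndependent (RatFunc k) ![toR x, p0, p1, p2]) (v : Fin 5 → KK k)
    (hv : v = toK p0 + ss k • toK p1 + ss k ^ 2 • toK p2)
    (hc : phi T (toK (toR x)) v v v ≠ 0)
    (hy : ∀ n, ∑ j, algebraMap k (KK k) (AA T x n j) * resid T (toK (toR x)) v j = 0) : False := by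
  obtain ⟨c, hcx, hcp⟩ := key (F := RatFunc k) (fun p => AA T x (κ p)) hκ (toR x) p0 p1 p2 li hD
  set φ : Fin 5 → RatFunc k := fun j => ∑ p, c p * algebraMap k (RatFunc k) (AA T x (κ p) j)
    with hφ
  -- the value at `y`
  have e1 : ∑ j, algebraMap (RatFunc k) (KK k) (φ j) * resid T (toK (toR x)) v j = 0 := by
    have e2 : ∀ j, algebraMap (RatFunc k) (KK k) (φ j) * resid T (toK (toR x)) v j =
        ∑ p, algebraMap (RatFunc k) (KK k) (c p) *
          (algebraMap k (KK k) (AA T x (κ p) j) * resid T (toK (toR x)) v j) := by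
      intro j
      rw [hφ]
      simp only [map_sum, map_mul, Finset.sum_mul]
      refine Finset.sum_congr rfl fun p _ => ?_
      rw [← IsScalarTower.algebraMap_apply k (RatFunc k) (KK k), mul_assoc]
    simp only [e2]
    rw [Finset.sum_comm]
    refine Finset.sum_eq_zero fun p _ => ?_
    rw [← Finset.mul_sum, hy, mul_zero]
  -- the value at a vector over `RatFunc k`
  have e3 : ∀ z : Fin 5 → RatFunc k, ∑ j, algebraMap (RatFunc k) (KK k) (φ j) * toK z j =
      algebraMap (RatFunc k) (KK k) (∑ j, φ j * z j) := by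
    intro z
    rw [map_sum]
    exact Finset.sum_congr rfl fun j _ => (map_mul _ _ _).symm
  have e4 : ∑ j, algebraMap (RatFunc k) (KK k) (φ j) * resid T (toK (toR x)) v j =
      phi T v v v v * (∑ j, algebraMap (RatFunc k) (KK k) (φ j) * toK (toR x) j) -
        (4 * phi T (toK (toR x)) v v v) * (∑ j, algebraMap (RatFunc k) (KK k) (φ j) * v j) := by
    rw [Finset.mul_sum, Finset.mul_sum, ← Finset.sum_sub_distrib]
    refine Finset.sum_congr rfl fun j _ => ?_
    unfold resid
    rw [Pi.sub_apply, Pi.smul_apply, Pi.smul_apply, smul_eq_mul, smul_eq_mul]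
    ring
  have hx0 : ∑ j, φ j * toR x j = 0 := hcx
  rw [e4, e3, hx0, map_zero, mul_zero, zero_sub, neg_eq_zero] at e1
  have h4 : (4 : KK k) ≠ 0 := by
    have h5 : algebraMap k (KK k) (2 * 2) ≠ 0 := by
      rw [Ne, map_eq_zero]
      exact mul_ne_zero h2 h2
    intro h6
    apply h5
    rw [map_mul, map_ofNat, ← h6]
    norm_num
  have e5 : ∑ j, algebraMap (RatFunc k) (KK k) (φ j) * v j = 0 :=
    (mul_eq_zero.1 e1).resolve_left (mul_ne_zero h4 hc)
  set a0 := ∑ j, φ j * p0 j with ha0
  set a1 := ∑ j, φ j * p1 j with ha1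
  set a2 := ∑ j, φ j * p2 j with ha2
  have e6 : algebraMap (RatFunc k) (KK k) a0 + ss k * algebraMap (RatFunc k) (KK k) a1 +
      ss k ^ 2 * algebraMap (RatFunc k) (KK k) a2 = 0 := by
    rw [← e5, ha0, ha1, ha2, ← e3, ← e3, ← e3, Finset.mul_sum, Finset.mul_sum,
      ← Finset.sum_add_distrib, ← Finset.sum_add_distrib]
    refine Finset.sum_congr rfl fun j _ => ?_
    rw [hv, Pi.add_apply, Pi.add_apply, Pi.smul_apply, Pi.smul_apply, smul_eq_mul, smul_eq_mul]
    ring
  have e7 : algebraMap (RatFunc k)[X] (KK k) (C a0 + X * C a1 + X ^ 2 * C a2) = 0 := by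
    rw [map_add, map_add, map_mul, map_mul, map_pow, RatFunc.algebraMap_X, RatFunc.algebraMap_C,
      RatFunc.algebraMap_C, RatFunc.algebraMap_C, ← RatFunc.algebraMap_eq_C]
    exact e6
  have e8 : (C a0 + X * C a1 + X ^ 2 * C a2 : (RatFunc k)[X]) = 0 := by
    apply RatFunc.algebraMap_injective (RatFunc k)
    rw [e7, map_zero]
  have c0 : a0 = 0 := by
    have := congrArg (fun P => coeff P 0) e8
    simpa using this
  have c1 : a1 = 0 := by
    have := congrArg (fun P => coeff P 1) e8
    simpa [coeff_C, coeff_X_pow_mul'] using this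
  have c2 : a2 = 0 := by
    have := congrArg (fun P => coeff P 2) e8
    simpa [coeff_C, coeff_X_pow_mul', c0, c1] using this
  rcases hcp with h | h | h
  · exact h c0
  · exact h c1
  · exact h c2

variable {k : Type*} [Field k] [IsAlgClosed k] {T : Ten k 5}

theorem case_tr (h2 : (2 : k) ≠ 0) (x : Fin 5 → k[X])
    (hΛ : (∃ κ : Fin 3 → ℕ, LinearIndependent k (fun p => AA T x (κ p))) ∨
      ∃ κ : Fin 2 → ℕ, LinearIndependent k (fun p => AA T x (κ p)) ∧
        ∀ n, ∑ j, C (AA T x n j) * x j = 0)
    (p0 p1 p2 : Fin 5 → RatFunc k)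
    (li : LinearIndependent (RatFunc k) ![toR x, p0, p1, p2]) (v : Fin 5 → KK k)
    (hv : v = toK p0 + ss k • toK p1 + ss k ^ 2 • toK p2)
    (hc : phi T (toK (toR x)) v v v ≠ 0)
    (hy : ∀ n, ∑ j, algebraMap k (KK k) (AA T x n j) * resid T (toK (toR x)) v j = 0) : False := by
  rcases hΛ with ⟨κ, hκ⟩ | ⟨κ, hκ, hx⟩
  · exact finish h2 x κ hκ (Or.inl le_rfl) p0 p1 p2 li v hv hc hy
  · refine finish h2 x κ hκ (Or.inr ⟨le_rfl, ?_⟩) p0 p1 p2 li v hv hc hy
    intro p
    have h1 := congrArg (algebraMap k[X] (RatFunc k)) (hx (κ p))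
    rw [map_sum, map_zero] at h1
    rw [← h1]
    refine Finset.sum_congr rfl fun j _ => ?_
    rw [map_mul, RatFunc.algebraMap_C, ← RatFunc.algebraMap_eq_C]

end Pool.Agent.Helper72.QT
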