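import Pool.Agent.Helper72.QT.Basic

/-!
# QT-13: an isotropic curve in the tangent space, through a given point

`Cv x = fun i => C (x i)`. not constant modulo `x1`.

PROOF. Let `U` be the kernel of `l = phi T x1 x1 x1 .` in `k^5`, of dimension `≥ 4`; `x0, x1 ∈ U`, `q(w) = phi T x1 x1 w w`, `b(u, w) = phi T x1 x1 u w`; `b(x1, w) = 0` for `w` in `U`, `q(x0) = 0`.
CASE i: there is `u` in `U`, `x0, x1, u` independent, `q(u) = 0`, `b(x0, u) = 0`. Then `v = x0 + X u`, `q(v) = 0`, `v(0) = x0`. Not constant modulo `x1`: from `a v = b z + c x1` and functionals dual to `x0, u` modulo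
`x1` (i.e. `λ, μ` with `λ(x0) = 1, λ(x1) = λ(u) = 0`, `μ(u) = 1, μ(x0) = μ(x1) = 0`): `a = b λ(z)`, `a X = b μ(z)`, so `λ(z) X = μ(z)` (cancel `b ≠ 0`), so `λ(z) = 0`, `a = 0`, contradiction.
CASE ii: otherwise. The space `U' = {w ∈ U : b(x0, w) = 0}` has dimension `≥ 3` and contains `x0, x1`; choose `w0 ∈ U'`, `x0, x1, w0` independent; `q(w0) ≠ 0` as we are not in case i. `U' ≠ U`: otherwise take `a, c ∈ U` with
`x0, x1, a, c` independent (`dim U ≥ 4`); if `q(c) = 0` case i with `u = c`; otherwise `q(a + t c)` has a root `t` in `k` and `u = a + t c` is as in case i. So there is `w1 ∈ U` with `b(x0, w1) ≠ 0`; `x0, x1, w0, w1` are independent. Let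
`w = w0 + X w1`, `v = stereo T x1 x0 w = q(w) x0 - 2 X β w`, `β = b(x0, w1)` (`stereo_l`, `stereo_q`), `v(0) = q(w0) x0`. Not constant modulo `x1`: functionals `λ` (1 at `w0`, `0` at `x0, x1, w1`), `μ` (1 at `w1`, `0` at `x0, x1, w0`):
`a (-2 X β) = b λ(z)`, `a (-2 X β) X = b μ(z)`, so `X λ(z) = μ(z)` (`b ≠ 0` as `a X β ≠ 0`), `λ(z) = 0`, contradiction (`2 ≠ 0`).
-/

set_option autoImplicit false

namespace Pool.Agent.Helper72.QT

open Polynomial

variable {k : Type*} [Field k] {T : Ten k 5}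

private theorem dual_exists {n : ℕ} {b : Fin n → (Fin 5 → k)} (hb : LinearIndependent k b)
    (c : Fin n → k) : ∃ g : Fin 5 → k, ∀ j, ∑ i, g i * b j i = c j := by
  obtain ⟨f, hf⟩ := LinearMap.exists_extend ((Module.Basis.span hb).constr k c)
  refine ⟨fun i => f (Pi.single i 1), fun j => ?_⟩
  have h1 : f (b j) = ∑ i, f (Pi.single i 1) * b j i := by
    rw [LinearMap.pi_apply_eq_sum_univ f (b j)]
    refine Finset.sum_congr rfl fun i _ => ?_
    rw [smul_eq_mul, mul_comm]
    congr 2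
    funext l
    rw [Pi.single_apply]
    simp [eq_comm]
  rw [← h1]
  have h2 : f (b j) = (f.comp (Submodule.span k (Set.range b)).subtype)
      (Module.Basis.span hb j) := by
    rw [LinearMap.comp_apply, Submodule.subtype_apply, Module.Basis.span_apply]
  rw [h2, hf, Module.Basis.constr_basis]

private theorem nonconst {x1 : Fin 5 → k} {v : Fin 5 → k[X]} {g1 g2 : Fin 5 → k} {P : k[X]}
    (hP : P ≠ 0) (h1 : ∑ i, C (g1 i) * v i = P) (h2 : ∑ i, C (g2 i) * v i = P * X)
    (h3 : ∑ i, g1 i * x1 i = 0) (h4 : ∑ i, g2 i * x1 i = 0) :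
    ¬ ∃ (z : Fin 5 → k) (a b c : k[X]), a ≠ 0 ∧ ∀ i, a * v i = b * C (z i) + c * C (x1 i) := by
  rintro ⟨z, a, b, c, ha, h⟩
  have key : ∀ g : Fin 5 → k, ∑ i, g i * x1 i = 0 →
      a * ∑ i, C (g i) * v i = b * C (∑ i, g i * z i) := by
    intro g hg
    have e1 : a * ∑ i, C (g i) * v i = b * C (∑ i, g i * z i) + c * C (∑ i, g i * x1 i) := by
      rw [map_sum, map_sum, Finset.mul_sum, Finset.mul_sum, Finset.mul_sum,
        ← Finset.sum_add_distrib]
      refine Finset.sum_congr rfl fun i _ => ?_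
      rw [map_mul, map_mul]
      linear_combination C (g i) * h i
    rw [e1, hg, map_zero, mul_zero, add_zero]
  have k1 := key g1 h3
  have k2 := key g2 h4
  rw [h1] at k1
  rw [h2] at k2
  have hb : b ≠ 0 := by
    rintro rfl
    rw [zero_mul] at k1
    exact mul_ne_zero ha hP k1
  have k3 : b * (C (∑ i, g1 i * z i) * X) = b * C (∑ i, g2 i * z i) := by
    rw [← k2, ← mul_assoc, ← k1]
    ring
  have k4 := mul_left_cancel₀ hb k3
  have k5 := congrArg (fun q : k[X] => q.coeff 1) k4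
  simp only [coeff_C_mul, coeff_X_one, mul_one, coeff_C_succ] at k5
  rw [k5, map_zero, mul_zero] at k1
  exact mul_ne_zero ha hP k1

private theorem dot_C (g u : Fin 5 → k) : ∑ i, (C (g i) : k[X]) * C (u i) = C (∑ i, g i * u i) := by
  rw [map_sum]
  exact Finset.sum_congr rfl fun i _ => (map_mul C _ _).symm

private theorem dot_line (g u w : Fin 5 → k) :
    ∑ i, (C (g i) : k[X]) * (C (u i) + X * C (w i)) =
      C (∑ i, g i * u i) + X * C (∑ i, g i * w i) := by
  rw [← dot_C, ← dot_C, Finset.mul_sum, ← Finset.sum_add_distrib]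
  exact Finset.sum_congr rfl fun i _ => by ring

/-- the constant polynomial vector -/
private noncomputable def cc (u : Fin 5 → k) : Fin 5 → k[X] := fun i => C (u i)

private theorem phi_cc (T : Ten k 5) (x y z w : Fin 5 → k) :
    phi T (cc x) (cc y) (cc z) (cc w) = C (phi T x y z w) :=
  phi_algebraMap T x y z w

theorem iso_curve [IsAlgClosed k] (h2 : (2 : k) ≠ 0) (hT : SymT T) (x0 x1 : Fin 5 → k) (h : InW T x1 x0)
    (li : LinearIndependent k ![x0, x1]) :
    ∃ v : Fin 5 → k[X], InW T (fun i => C (x1 i)) v ∧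
      (∃ μ : k, μ ≠ 0 ∧ ∀ i, (v i).eval 0 = μ * x0 i) ∧
      ¬ ∃ (z : Fin 5 → k) (a b c : k[X]), a ≠ 0 ∧ ∀ i, a * v i = b * C (z i) + c * C (x1 i) := by
  classical
  -- the linear forms
  let lL : (Fin 5 → k) →ₗ[k] k :=
    { toFun := fun v => phi T x1 x1 x1 v
      map_add' := fun v w => phi_add4 T _ _ _ _ _
      map_smul' := fun c v => phi_smul4 T _ _ _ _ _ }
  let bL : (Fin 5 → k) →ₗ[k] k :=
    { toFun := fun v => phi T x1 x1 x0 v
      map_add' := fun v w => phi_add4 T _ _ _ _ _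
      map_smul' := fun c v => phi_smul4 T _ _ _ _ _ }
  have hl : ∀ v, lL v = phi T x1 x1 x1 v := fun _ => rfl
  have hbL : ∀ v, bL v = phi T x1 x1 x0 v := fun _ => rfl
  have hx01 : phi T x1 x1 x0 x1 = 0 := by
    rw [phi_s34 hT]
    exact h.l
  -- dimension
  have hk1 : ∀ f : (Fin 5 → k) →ₗ[k] k, ∀ W : Submodule k (Fin 5 → k),
      Module.finrank k W ≤ Module.finrank k (W ⊓ LinearMap.ker f : Submodule k (Fin 5 → k)) + 1 := by
    intro f W
    have e1 := LinearMap.finrank_range_add_finrank_ker (f.comp W.subtype)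
    have e2 : Module.finrank k (LinearMap.range (f.comp W.subtype)) ≤ 1 := by
      have := Submodule.finrank_le (LinearMap.range (f.comp W.subtype))
      rwa [Module.finrank_self] at this
    have e3 : Module.finrank k (LinearMap.ker (f.comp W.subtype)) =
        Module.finrank k (W ⊓ LinearMap.ker f : Submodule k (Fin 5 → k)) := by
      rw [LinearMap.ker_comp, ← Submodule.finrank_map_subtype_eq, Submodule.map_comap_subtype]
    omega
  have hUdim : 4 ≤ Module.finrank k (LinearMap.ker lL) := by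
    have e1 := hk1 lL ⊤
    rw [finrank_top, top_inf_eq, Module.finrank_fin_fun] at e1
    omega
  have hU'dim : 3 ≤ Module.finrank k (LinearMap.ker lL ⊓ LinearMap.ker bL :
      Submodule k (Fin 5 → k)) := by
    have e1 := hk1 bL (LinearMap.ker lL)
    omega
  -- choice of a vector outside of a small span
  have hout : ∀ {n : ℕ} (b : Fin n → (Fin 5 → k)) (W : Submodule k (Fin 5 → k)),
      n < Module.finrank k W → ∃ w ∈ W, w ∉ Submodule.span k (Set.range b) := by
    intro n b W hW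
    by_contra hcon
    push Not at hcon
    have e1 : W ≤ Submodule.span k (Set.range b) := hcon
    have e2 := Submodule.finrank_mono e1
    have e3 := finrank_range_le_card (R := k) b
    rw [Fintype.card_fin] at e3
    have e4 : Set.finrank k (Set.range b) =
      Module.finrank k (Submodule.span k (Set.range b)) := rfl
    omega
  have hli3 : ∀ u : Fin 5 → k, u ∉ Submodule.span k (Set.range ![x0, x1]) →
      LinearIndependent k ![u, x0, x1] := fun u hu => linearIndependent_finCons.2 ⟨li, hu⟩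
  -- the case of an isotropic vector orthogonal to `x0`
  have caseI : ∀ u : Fin 5 → k, phi T x1 x1 x1 u = 0 → LinearIndependent k ![u, x0, x1] →
      phi T x1 x1 u u = 0 → phi T x1 x1 x0 u = 0 →
      ∃ v : Fin 5 → k[X], InW T (fun i => C (x1 i)) v ∧
      (∃ μ : k, μ ≠ 0 ∧ ∀ i, (v i).eval 0 = μ * x0 i) ∧
      ¬ ∃ (z : Fin 5 → k) (a b c : k[X]), a ≠ 0 ∧ ∀ i, a * v i = b * C (z i) + c * C (x1 i) := by
    intro u hu hli hqu hbu
    have hv : (fun i => C (x0 i) + X * C (u i) : Fin 5 → k[X]) = cc x0 + (X : k[X]) • cc u := rfl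
    have hbu' : phi T x1 x1 u x0 = 0 := by
      rw [phi_s34 hT]
      exact hbu
    refine ⟨fun i => C (x0 i) + X * C (u i), ⟨?_, ?_, ?_⟩, ⟨1, one_ne_zero, fun i => ?_⟩, ?_⟩
    · change phi T (cc x1) (cc x1) (cc x1) (cc x1) = 0
      rw [phi_cc, h.f, map_zero]
    · rw [hv]
      change phi T (cc x1) (cc x1) (cc x1) (cc x0 + (X : k[X]) • cc u) = 0
      rw [phi_add4, phi_smul4, phi_cc, phi_cc, h.l, hu, map_zero, mul_zero, add_zero]
    · rw [hv]
      change phi T (cc x1) (cc x1) (cc x0 + (X : k[X]) • cc u) (cc x0 + (X : k[X]) • cc u) = 0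
      simp only [phi_add3, phi_add4, phi_smul3, phi_smul4, phi_cc, h.q, hqu, hbu, hbu', map_zero,
        mul_zero, add_zero]
    · simp
    · obtain ⟨g1, hg1⟩ := dual_exists hli ![0, 1, 0]
      obtain ⟨g2, hg2⟩ := dual_exists hli ![1, 0, 0]
      have a0 := hg1 0
      have a1 := hg1 1
      have a2 := hg1 2
      have b0 := hg2 0
      have b1 := hg2 1
      have b2 := hg2 2
      simp only [Matrix.cons_val_zero, Matrix.cons_val_one, Matrix.cons_val] at a0 a1 a2 b0 b1 b2
      refine nonconst (P := 1) one_ne_zero ?_ ?_ a2 b2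
      · rw [dot_line, a1, a0, map_one, map_zero, mul_zero, add_zero]
      · rw [dot_line, b1, b0, map_one, map_zero, one_mul, mul_one, zero_add]
  by_cases hi : ∃ u : Fin 5 → k, phi T x1 x1 x1 u = 0 ∧ LinearIndependent k ![u, x0, x1] ∧
      phi T x1 x1 u u = 0 ∧ phi T x1 x1 x0 u = 0
  · obtain ⟨u, h3, h4, h5, h6⟩ := hi
    exact caseI u h3 h4 h5 h6
  obtain ⟨w0, hw0, hw0s⟩ := hout ![x0, x1] (LinearMap.ker lL ⊓ LinearMap.ker bL) (by omega)
  have hw0l : phi T x1 x1 x1 w0 = 0 := hw0.1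
  have hw0b : phi T x1 x1 x0 w0 = 0 := hw0.2
  have hli0 := hli3 w0 hw0s
  have hq0 : phi T x1 x1 w0 w0 ≠ 0 := fun hq => hi ⟨w0, hw0l, hli0, hq, hw0b⟩
  have hw1 : ∃ w1, phi T x1 x1 x1 w1 = 0 ∧ phi T x1 x1 x0 w1 ≠ 0 := by
    by_contra hcon
    push Not at hcon
    obtain ⟨a, ha, has⟩ := hout ![x0, x1] (LinearMap.ker lL) (by omega)
    obtain ⟨c, hc, hcs⟩ := hout ![a, x0, x1] (LinearMap.ker lL) (by omega)
    have hal : phi T x1 x1 x1 a = 0 := ha
    have hcl : phi T x1 x1 x1 c = 0 := hc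
    have hcs' : c ∉ Submodule.span k (Set.range ![x0, x1]) := by
      intro h3
      apply hcs
      refine Submodule.span_mono ?_ h3
      rintro _ ⟨i, rfl⟩
      exact ⟨i.succ, rfl⟩
    by_cases hqc : phi T x1 x1 c c = 0
    · exact hi ⟨c, hcl, hli3 c hcs', hqc, hcon c hcl⟩
    · have hdeg : (C (phi T x1 x1 c c) * X ^ 2 + C (2 * phi T x1 x1 a c) * X +
          C (phi T x1 x1 a a) : k[X]).degree ≠ 0 := by
        rw [degree_quadratic hqc]
        decide
      obtain ⟨t, ht⟩ := IsAlgClosed.exists_root _ hdeg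
      rw [IsRoot.def] at ht
      simp only [eval_add, eval_mul, eval_C, eval_pow, eval_X] at ht
      have hca : phi T x1 x1 c a = phi T x1 x1 a c := phi_s34 hT _ _ _ _
      refine hi ⟨a + t • c, ?_, hli3 _ ?_, ?_, ?_⟩
      · rw [phi_add4, phi_smul4, hal, hcl, mul_zero, add_zero]
      · intro h3
        by_cases ht0 : t = 0
        · rw [ht0, zero_smul, add_zero] at h3
          exact has h3
        · apply hcs
          have h4 : c = t⁻¹ • ((a + t • c) - a) := by
            rw [add_sub_cancel_left, smul_smul, inv_mul_cancel₀ ht0, one_smul]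
          rw [h4]
          apply Submodule.smul_mem
          apply Submodule.sub_mem
          · refine Submodule.span_mono ?_ h3
            rintro _ ⟨i, rfl⟩
            exact ⟨i.succ, rfl⟩
          · exact Submodule.subset_span ⟨0, rfl⟩
      · rw [phi_add3, phi_add4, phi_add4, phi_smul3, phi_smul3, phi_smul4, phi_smul4, hca]
        linear_combination ht
      · rw [phi_add4, phi_smul4, hcon a hal, hcon c hcl, mul_zero, add_zero]
  obtain ⟨w1, hw1l, hw1b⟩ := hw1
  have hli4 : LinearIndependent k ![w1, w0, x0, x1] := by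
    refine linearIndependent_finCons.2 ⟨hli0, fun h3 => hw1b ?_⟩
    have h4 : Submodule.span k (Set.range ![w0, x0, x1]) ≤ LinearMap.ker bL := by
      rw [Submodule.span_le]
      rintro _ ⟨i, rfl⟩
      fin_cases i
      · exact hw0b
      · exact h.q
      · exact hx01
    exact h4 h3
  set β := phi T x1 x1 x0 w1 with hβ
  have hw : (fun i => C (w0 i) + X * C (w1 i) : Fin 5 → k[X]) = cc w0 + (X : k[X]) • cc w1 := rfl
  have hbw : phi T (cc x1) (cc x1) (cc x0) (cc w0 + (X : k[X]) • cc w1) = X * C β := by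
    rw [phi_add4, phi_smul4, phi_cc, phi_cc, hw0b, map_zero, zero_add]
  have hP : (-(2 * (X * C β)) : k[X]) ≠ 0 := by
    rw [neg_ne_zero]
    refine mul_ne_zero ?_ (mul_ne_zero X_ne_zero (C_ne_zero.2 hw1b))
    intro h3
    apply h2
    have h4 : (C (2 : k) : k[X]) = 0 := by
      rw [← h3]
      rfl
    exact C_eq_zero.1 h4
  have hstereo : ∀ i, stereo T (cc x1) (cc x0) (cc w0 + (X : k[X]) • cc w1) i =
      phi T (cc x1) (cc x1) (cc w0 + (X : k[X]) • cc w1) (cc w0 + (X : k[X]) • cc w1) * C (x0 i) +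
        (-(2 * (X * C β))) * (C (w0 i) + X * C (w1 i)) := by
    intro i
    rw [stereo, hbw, Pi.sub_apply, Pi.smul_apply, Pi.smul_apply, smul_eq_mul, smul_eq_mul]
    change _ * C (x0 i) - 2 * (X * C β) * (C (w0 i) + X * C (w1 i)) = _
    ring
  have hdot : ∀ g : Fin 5 → k, ∑ i, g i * x0 i = 0 →
      ∑ i, C (g i) * stereo T (cc x1) (cc x0) (cc w0 + (X : k[X]) • cc w1) i =
        (-(2 * (X * C β))) * (C (∑ i, g i * w0 i) + X * C (∑ i, g i * w1 i)) := by
    intro g hg
    rw [← dot_line, Finset.mul_sum]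
    have h3 : ∑ i, C (g i) * stereo T (cc x1) (cc x0) (cc w0 + (X : k[X]) • cc w1) i =
        phi T (cc x1) (cc x1) (cc w0 + (X : k[X]) • cc w1) (cc w0 + (X : k[X]) • cc w1) *
          (∑ i, C (g i) * C (x0 i)) +
          ∑ i, (-(2 * (X * C β))) * (C (g i) * (C (w0 i) + X * C (w1 i))) := by
      rw [Finset.mul_sum, ← Finset.sum_add_distrib]
      refine Finset.sum_congr rfl fun i _ => ?_
      rw [hstereo]
      ring
    rw [h3, dot_C, hg, map_zero, mul_zero, zero_add]
  have hl0 : phi T (cc x1) (cc x1) (cc x1) (cc x0) = 0 := by rw [phi_cc, h.l, map_zero]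
  have hlw : phi T (cc x1) (cc x1) (cc x1) (cc w0 + (X : k[X]) • cc w1) = 0 := by
    rw [phi_add4, phi_smul4, phi_cc, phi_cc, hw0l, hw1l, map_zero, mul_zero, add_zero]
  have hq00 : phi T (cc x1) (cc x1) (cc x0) (cc x0) = 0 := by rw [phi_cc, h.q, map_zero]
  refine ⟨stereo T (cc x1) (cc x0) (cc w0 + (X : k[X]) • cc w1), ⟨?_, ?_, ?_⟩,
    ⟨phi T x1 x1 w0 w0, hq0, fun i => ?_⟩, ?_⟩
  · change phi T (cc x1) (cc x1) (cc x1) (cc x1) = 0
    rw [phi_cc, h.f, map_zero]
  · exact stereo_l hl0 hlw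
  · exact stereo_q hT hq00
  · have hqw : phi T (cc x1) (cc x1) (cc w0 + (X : k[X]) • cc w1) (cc w0 + (X : k[X]) • cc w1) =
        C (phi T x1 x1 w0 w0) + X * C (phi T x1 x1 w0 w1) +
          (X * C (phi T x1 x1 w1 w0) + X * (X * C (phi T x1 x1 w1 w1))) := by
      rw [phi_add3, phi_add4, phi_add4, phi_smul3, phi_smul3, phi_smul4, phi_smul4, phi_cc,
        phi_cc, phi_cc, phi_cc]
    rw [hstereo, hqw]
    simp
  · obtain ⟨g1, hg1⟩ := dual_exists hli4 ![0, 1, 0, 0]
    obtain ⟨g2, hg2⟩ := dual_exists hli4 ![1, 0, 0, 0]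
    have a0 := hg1 0
    have a1 := hg1 1
    have a2 := hg1 2
    have a3 := hg1 3
    have b0 := hg2 0
    have b1 := hg2 1
    have b2 := hg2 2
    have b3 := hg2 3
    simp only [Matrix.cons_val_zero, Matrix.cons_val_one, Matrix.cons_val]
      at a0 a1 a2 a3 b0 b1 b2 b3
    refine nonconst hP ?_ ?_ a3 b3
    · rw [hdot g1 a2, a1, a0, map_one, map_zero, mul_zero, add_zero, mul_one]
    · rw [hdot g2 b2, b1, b0, map_one, map_zero, mul_one, zero_add]

end Pool.Agent.Helper72.QT
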