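import Pool.Agent.Helper72.QT.X1
import Pool.Agent.Helper72.QT.IsoCurve

/-!
# QT-14: a rational curve through a point of the quartic

PROOF. Take `x1` from `exists_x1`. If `phi T x1 x0 x0 x0 = 0`: `x = x0 + X x1` (`phi_line` with the roles `x1`, `x0`: `f(x1 + t x0) = 4 t³ c + t⁴ f(x0)`; here use `phi_comb`), `λ = 1`. Not constant: from `a x = b z` and
functionals dual to `x0, x1`: `a = b λ(z)`, `a X = b μ(z)`, so `λ(z) X = μ(z)`, so `λ(z) = 0`, `a = 0`.
Otherwise take `v` from `iso_curve` and `x = resid T x1 v = f(v) x1 - 4 c v`, `c = phi T x1 v v v` (`x1` mapped by `C`), `phi_resid`. At `0`: `f(v(0)) = μ⁴ f(x0) = 0`, `c(0) = μ³ phi T x1 x0 x0 x0 ≠ 0`, so `x(0) = -4 c(0) μ x0`. Not constant: if `a x = b z`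
then `(4 a c) v = (- b) z + (a f(v)) x1` with `4 a c ≠ 0`, contradiction to `iso_curve`. (`phi_map` with `Polynomial.aeval 0` or `Polynomial.evalRingHom` as an algebra homomorphism for values at `0`.)
-/

set_option autoImplicit false

namespace Pool.Agent.Helper72.QT

open Polynomial

variable {k : Type*} [Field k] [IsAlgClosed k] {T : Ten k 5}

omit [IsAlgClosed k] in
private theorem phi_C (x y z w : Fin 5 → k) :
    phi T (fun i => (C (x i) : k[X])) (fun i => C (y i)) (fun i => C (z i)) (fun i => C (w i)) =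
      C (phi T x y z w) :=
  phi_map T (Polynomial.CAlgHom : k →ₐ[k] k[X]) x y z w

omit [IsAlgClosed k] in
private theorem phi_ev (x y z w : Fin 5 → k[X]) :
    (phi T x y z w).eval 0 = phi T (fun i => (x i).eval 0) (fun i => (y i).eval 0)
      (fun i => (z i).eval 0) (fun i => (w i).eval 0) := by
  have h1 := phi_map T (Polynomial.aeval (0 : k) : k[X] →ₐ[k] k) x y z w
  simp only [Polynomial.coe_aeval_eq_eval] at h1
  exact h1.symm

omit [IsAlgClosed k] in
private theorem minor {x0 x1 : Fin 5 → k} (hx : x0 ≠ 0) (li : LinearIndependent k ![x0, x1]) :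
    ∃ i j, x0 i * x1 j - x1 i * x0 j ≠ 0 := by
  obtain ⟨i, hi⟩ := Function.ne_iff.1 hx
  refine ⟨i, ?_⟩
  by_contra hcon
  push Not at hcon
  rw [LinearIndependent.pair_iff] at li
  have h1 := li (-(x1 i)) (x0 i) (by
    funext j
    rw [Pi.add_apply, Pi.smul_apply, Pi.smul_apply, smul_eq_mul, smul_eq_mul, Pi.zero_apply]
    have := hcon j
    linear_combination this)
  exact hi h1.2

theorem curve_raw (h2 : (2 : k) ≠ 0) (hT : SymT T) (x0 : Fin 5 → k) (hx : x0 ≠ 0)
    (hf : phi T x0 x0 x0 x0 = 0) :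
    ∃ x : Fin 5 → k[X], phi T x x x x = 0 ∧
      (∃ μ : k, μ ≠ 0 ∧ ∀ i, (x i).eval 0 = μ * x0 i) ∧
      ¬ ∃ (z : Fin 5 → k) (a b : k[X]), a ≠ 0 ∧ ∀ i, a * x i = b * C (z i) := by
  obtain ⟨x1, h, li⟩ := exists_x1 (T := T) x0 hx
  by_cases hc : phi T x1 x0 x0 x0 = 0
  · -- the line through `x0` and `x1`
    refine ⟨(X : k[X]) • (fun i => (C (x1 i) : k[X])) + (1 : k[X]) • (fun i => C (x0 i)), ?_,
      ⟨1, one_ne_zero, fun i => ?_⟩, ?_⟩
    · rw [phi_comb hT, phi_C, phi_C, phi_C, phi_C, phi_C, h.f, h.l, h.q, hc, hf]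
      simp
    · simp [Pi.add_apply, Pi.smul_apply, smul_eq_mul]
    · rintro ⟨z, a, b, ha, hab⟩
      have hxi : ∀ i, ((X : k[X]) • (fun i => (C (x1 i) : k[X])) +
          (1 : k[X]) • (fun i => (C (x0 i) : k[X]))) i = C (x0 i) + X * C (x1 i) := by
        intro i
        rw [Pi.add_apply, Pi.smul_apply, Pi.smul_apply, smul_eq_mul, smul_eq_mul, one_mul,
          add_comm]
      have hab' : ∀ i, a * (C (x0 i) + X * C (x1 i)) = b * C (z i) := fun i => by
        rw [← hxi i]
        exact hab i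
      obtain ⟨i, j, hij⟩ := minor hx li
      have hcoef : ∀ u w : k, (C u + X * C w : k[X]) = 0 → u = 0 ∧ w = 0 := by
        intro u w huw
        have e0 := congrArg (fun p => coeff p 0) huw
        have e1 := congrArg (fun p => coeff p 1) huw
        simp only [coeff_add, coeff_C_zero, coeff_X_mul_zero, add_zero, coeff_zero] at e0
        simp only [coeff_add, coeff_C_succ, coeff_zero, zero_add, coeff_X_mul,
          coeff_C_zero] at e1
        exact ⟨e0, e1⟩
      have hb : b ≠ 0 := by
        intro hb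
        have e1 := hab' i
        have e2 := hab' j
        rw [hb, zero_mul] at e1 e2
        have e3 := hcoef _ _ ((mul_eq_zero.1 e1).resolve_left ha)
        have e4 := hcoef _ _ ((mul_eq_zero.1 e2).resolve_left ha)
        apply hij
        rw [e3.1, e4.1]
        ring
      have e1 : (a * b) * (C (x0 i * z j - x0 j * z i) + X * C (x1 i * z j - x1 j * z i)) = 0 := by
        simp only [C_sub, C_mul]
        linear_combination (b * C (z j)) * hab' i - (b * C (z i)) * hab' j
      have e2 := hcoef _ _ ((mul_eq_zero.1 e1).resolve_left (mul_ne_zero ha hb))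
      have e3 : (x0 i * x1 j - x1 i * x0 j) * z i = 0 := by
        linear_combination x1 i * e2.1 - x0 i * e2.2
      have e4 : (x0 i * x1 j - x1 i * x0 j) * z j = 0 := by
        linear_combination x1 j * e2.1 - x0 j * e2.2
      have hzi := (mul_eq_zero.1 e3).resolve_left hij
      have hzj := (mul_eq_zero.1 e4).resolve_left hij
      have e5 := hab' i
      have e6 := hab' j
      rw [hzi, C_0, mul_zero] at e5
      rw [hzj, C_0, mul_zero] at e6
      have e7 := hcoef _ _ ((mul_eq_zero.1 e5).resolve_left ha)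
      have e8 := hcoef _ _ ((mul_eq_zero.1 e6).resolve_left ha)
      apply hij
      rw [e7.1, e8.1]
      ring
  · -- the residual curve
    obtain ⟨v, hv, ⟨μ, hμ, hv0⟩, hnc⟩ := iso_curve h2 hT x0 x1 h li
    have h4 : (4 : k) ≠ 0 := by
      have : (4 : k) = 2 * 2 := by norm_num
      rw [this]
      exact mul_ne_zero h2 h2
    have hve : (fun i => (v i).eval 0) = μ • x0 := by
      funext i
      rw [hv0, Pi.smul_apply, smul_eq_mul]
    have hx1e : (fun i => (C (x1 i) : k[X]).eval 0) = x1 := by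
      funext i
      rw [eval_C]
    have hf0 : (phi T v v v v).eval 0 = 0 := by
      rw [phi_ev, hve, phi_smul1, phi_smul2, phi_smul3, phi_smul4, hf]
      ring
    have hc0 : (phi T (fun i => (C (x1 i) : k[X])) v v v).eval 0 = μ ^ 3 * phi T x1 x0 x0 x0 := by
      rw [phi_ev, hve, hx1e, phi_smul2, phi_smul3, phi_smul4]
      ring
    have hcne : phi T (fun i => (C (x1 i) : k[X])) v v v ≠ 0 := by
      intro h0
      rw [h0, eval_zero] at hc0
      exact mul_ne_zero (pow_ne_zero 3 hμ) hc hc0.symm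
    have hxi : ∀ i, resid T (fun i => (C (x1 i) : k[X])) v i =
        phi T v v v v * C (x1 i) - (4 * phi T (fun i => (C (x1 i) : k[X])) v v v) * v i := by
      intro i
      rw [resid, Pi.sub_apply, Pi.smul_apply, Pi.smul_apply, smul_eq_mul, smul_eq_mul]
    refine ⟨resid T (fun i => C (x1 i)) v, phi_resid hT hv,
      ⟨-(4 * (μ ^ 3 * phi T x1 x0 x0 x0) * μ), ?_, fun i => ?_⟩, ?_⟩
    · exact neg_ne_zero.2 (mul_ne_zero (mul_ne_zero h4 (mul_ne_zero (pow_ne_zero 3 hμ) hc)) hμ)
    · rw [hxi, eval_sub, eval_mul, eval_mul, eval_mul, hf0, hc0, hv0, eval_C, eval_ofNat]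
      ring
    · rintro ⟨z, a, b, ha, hab⟩
      apply hnc
      refine ⟨z, 4 * a * phi T (fun i => (C (x1 i) : k[X])) v v v, -b, a * phi T v v v v, ?_,
        fun i => ?_⟩
      · have h4' : (4 : k[X]) ≠ 0 := by
          have h5 : (4 : k[X]) = C (4 : k) := (map_ofNat C 4).symm
          rw [h5]
          exact C_ne_zero.2 h4
        exact mul_ne_zero (mul_ne_zero h4' ha) hcne
      · have h5 := hab i
        rw [hxi] at h5
        linear_combination -h5

end Pool.Agent.Helper72.QT
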