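import Pool.Agent.Helper72.QT.Newton

/-!
# QT-06: Step 1, the dichotomy

PROOF. Assume the first alternative fails: `c_x(v) = phi T x v v v = 0` for all `(x, v)` in `W` with `ND T x`. Let `R = MvPolynomial (Fin N ⊕ Fin N) k`, `xP i = X (inl i)`, `vP i = X (inr i)` and
`G = det (mat T xP) * phi T xP vP vP vP`, `I = span {phi T xP xP xP xP, phi T xP xP xP vP, phi T xP xP vP vP}`. `G` vanishes on the zero locus of `I` (`nd_iff`, `det_map`, `phi_map` with `MvPolynomial.aeval`), so by the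
Nullstellensatz (`MvPolynomial.vanishingIdeal_zeroLocus_eq_radical`) `G^M ∈ I` for some `M`.
Let `(x, v)` be in `W` with `ND T x`; `phi T x v v v = 0`. If `v = c • x` then `phi T v v v v = c⁴ phi T x x x x = 0`. Otherwise take `Y, V` from `newton` with `m = M + 1` and evaluate `G^M` at them (`MvPolynomial.aeval (Sum.elim Y V)`): `X^(M+1)`
divides `(det (mat T Y) * phi T Y V V V)^M`. Now `det (mat T Y)` has constant coefficient `det (mat T x) ≠ 0` (`det_map` with the evaluation at `0`) and `phi T Y V V V = phi T x v v v + X * phi T v v v v = X * phi T v v v v`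
modulo `X²` (`Y = x + X v`, `V = v` modulo `X²`). So `phi T v v v v = 0`: otherwise `phi T Y V V V = X * unit-like` (a polynomial `p` with `X ∣ p`, not `X² ∣ p`), the product has exact order `M` at `0`.
(Use: `X^(M+1) ∣ (d * (X * p'))^M = X^M (d p')^M` gives `X ∣ (d p')^M`, `X` is prime, so `X ∣ d` or `X ∣ p'`; constant coefficients.)
-/

set_option autoImplicit false

namespace Pool.Agent.Helper72.QT

open Polynomial

variable {k : Type*} [Field k] [IsAlgClosed k] {N : ℕ} {T : Ten k N}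

omit [IsAlgClosed k] in
private theorem dc_eval (A B D E : Fin N → k[X]) :
    (phi T A B D E).eval 0 = phi T (fun i => (A i).eval 0) (fun i => (B i).eval 0)
      (fun i => (D i).eval 0) (fun i => (E i).eval 0) := by
  have h := phi_map T (Polynomial.aeval (0 : k) : k[X] →ₐ[k] k) A B D E
  simp only [Polynomial.coe_aeval_eq_eval] at h
  exact h.symm

omit [IsAlgClosed k] in
private theorem dc_const (a b c d : Fin N → k) :
    phi T (fun i => (C (a i) : k[X])) (fun i => C (b i)) (fun i => C (c i)) (fun i => C (d i)) =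
      C (phi T a b c d) :=
  phi_algebraMap T (S := k[X]) a b c d

omit [IsAlgClosed k] in
/-- the evaluation of the generic forms -/
private theorem dc_aeval (T : Ten k N) {S : Type*} [CommRing S] [Algebra k S] (Y V : Fin N → S) :
    (MvPolynomial.aeval (Sum.elim Y V) (phi T (fun i => (MvPolynomial.X (Sum.inl i) :
        MvPolynomial (Fin N ⊕ Fin N) k)) (fun i => MvPolynomial.X (Sum.inl i))
        (fun i => MvPolynomial.X (Sum.inl i)) (fun i => MvPolynomial.X (Sum.inl i))) =
      phi T Y Y Y Y) ∧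
    (MvPolynomial.aeval (Sum.elim Y V) (phi T (fun i => (MvPolynomial.X (Sum.inl i) :
        MvPolynomial (Fin N ⊕ Fin N) k)) (fun i => MvPolynomial.X (Sum.inl i))
        (fun i => MvPolynomial.X (Sum.inl i)) (fun i => MvPolynomial.X (Sum.inr i))) =
      phi T Y Y Y V) ∧
    (MvPolynomial.aeval (Sum.elim Y V) (phi T (fun i => (MvPolynomial.X (Sum.inl i) :
        MvPolynomial (Fin N ⊕ Fin N) k)) (fun i => MvPolynomial.X (Sum.inl i))
        (fun i => MvPolynomial.X (Sum.inr i)) (fun i => MvPolynomial.X (Sum.inr i))) =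
      phi T Y Y V V) ∧
    (MvPolynomial.aeval (Sum.elim Y V) ((mat T (fun i => (MvPolynomial.X (Sum.inl i) :
        MvPolynomial (Fin N ⊕ Fin N) k))).det * phi T (fun i => MvPolynomial.X (Sum.inl i))
        (fun i => MvPolynomial.X (Sum.inr i)) (fun i => MvPolynomial.X (Sum.inr i))
        (fun i => MvPolynomial.X (Sum.inr i))) = (mat T Y).det * phi T Y V V V) := by
  refine ⟨?_, ?_, ?_, ?_⟩
  · rw [← phi_map]
    simp only [MvPolynomial.aeval_X, Sum.elim_inl]
  · rw [← phi_map]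
    simp only [MvPolynomial.aeval_X, Sum.elim_inl, Sum.elim_inr]
  · rw [← phi_map]
    simp only [MvPolynomial.aeval_X, Sum.elim_inl, Sum.elim_inr]
  · rw [map_mul, ← phi_map, ← det_map]
    simp only [MvPolynomial.aeval_X, Sum.elim_inl, Sum.elim_inr]

omit [IsAlgClosed k] in
/-- the order of `phi T Y V V V` -/
private theorem dc_lead (x v : Fin N → k) (hc : phi T x v v v = 0)
    {Y V : Fin N → k[X]} (hY : ∀ i, X ^ 2 ∣ Y i - (C (x i) + X * C (v i)))
    (hV : ∀ i, X ^ 2 ∣ V i - C (v i)) :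
    ∃ p : k[X], phi T Y V V V = X * p ∧ p.eval 0 = phi T v v v v := by
  choose s hs using hY
  choose r hr using hV
  obtain ⟨cx, hcx⟩ : ∃ cx : Fin N → k[X], cx = fun i => C (x i) := ⟨_, rfl⟩
  obtain ⟨cv, hcv⟩ : ∃ cv : Fin N → k[X], cv = fun i => C (v i) := ⟨_, rfl⟩
  have h0 : phi T cx cv cv cv = 0 := by
    rw [hcx, hcv, dc_const, hc, C_0]
  have hY' : Y = cx + (X : k[X]) • (cv + (X : k[X]) • s) := by
    funext i
    simp only [hcx, hcv, Pi.add_apply, Pi.smul_apply, smul_eq_mul]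
    linear_combination hs i
  have hV' : V = cv + ((X : k[X]) ^ 2) • r := by
    funext i
    simp only [hcv, Pi.add_apply, Pi.smul_apply, smul_eq_mul]
    linear_combination hr i
  have h1 : phi T Y V V V = phi T cx V V V + X * phi T (cv + (X : k[X]) • s) V V V := by
    conv_lhs => rw [hY', phi_add1, phi_smul1]
  have h2 : ∃ Z, phi T cx V V V = X ^ 2 * Z := by
    rw [hV']
    simp only [phi_add2, phi_add3, phi_add4, phi_smul2, phi_smul3, phi_smul4, h0]
    exact ⟨phi T cx r cv cv + phi T cx cv r cv + phi T cx cv cv r +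
      X ^ 2 * (phi T cx r r cv + phi T cx r cv r + phi T cx cv r r) +
      X ^ 4 * phi T cx r r r, by ring⟩
  obtain ⟨Z, hZ⟩ := h2
  refine ⟨X * Z + phi T (cv + (X : k[X]) • s) V V V, ?_, ?_⟩
  · rw [h1, hZ]
    ring
  · have e1 : (fun i => ((cv + (X : k[X]) • s) i).eval 0) = v := by
      funext i
      simp [hcv]
    have e2 : (fun i => (V i).eval 0) = v := by
      funext i
      rw [hV']
      simp [hcv]
    rw [eval_add, eval_mul, eval_X, zero_mul, zero_add, dc_eval, e1, e2]

theorem dicho (h2 : (2 : k) ≠ 0) (hT : SymT T) :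
    (∃ x v : Fin N → k, ND T x ∧ InW T x v ∧ phi T x v v v ≠ 0) ∨
    (∀ x v : Fin N → k, ND T x → InW T x v → phi T x v v v = 0 ∧ phi T v v v v = 0) := by
  by_cases hex : ∃ x v : Fin N → k, ND T x ∧ InW T x v ∧ phi T x v v v ≠ 0
  · exact Or.inl hex
  right
  push Not at hex
  obtain ⟨f, hf⟩ : ∃ f : MvPolynomial (Fin N ⊕ Fin N) k,
      f = phi T (fun i => MvPolynomial.X (Sum.inl i)) (fun i => MvPolynomial.X (Sum.inl i))
        (fun i => MvPolynomial.X (Sum.inl i)) (fun i => MvPolynomial.X (Sum.inl i)) := ⟨_, rfl⟩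
  obtain ⟨l, hl⟩ : ∃ l : MvPolynomial (Fin N ⊕ Fin N) k,
      l = phi T (fun i => MvPolynomial.X (Sum.inl i)) (fun i => MvPolynomial.X (Sum.inl i))
        (fun i => MvPolynomial.X (Sum.inl i)) (fun i => MvPolynomial.X (Sum.inr i)) := ⟨_, rfl⟩
  obtain ⟨q, hq⟩ : ∃ q : MvPolynomial (Fin N ⊕ Fin N) k,
      q = phi T (fun i => MvPolynomial.X (Sum.inl i)) (fun i => MvPolynomial.X (Sum.inl i))
        (fun i => MvPolynomial.X (Sum.inr i)) (fun i => MvPolynomial.X (Sum.inr i)) := ⟨_, rfl⟩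
  obtain ⟨G, hG⟩ : ∃ G : MvPolynomial (Fin N ⊕ Fin N) k,
      G = (mat T (fun i => (MvPolynomial.X (Sum.inl i) :
        MvPolynomial (Fin N ⊕ Fin N) k))).det * phi T (fun i => MvPolynomial.X (Sum.inl i))
        (fun i => MvPolynomial.X (Sum.inr i)) (fun i => MvPolynomial.X (Sum.inr i))
        (fun i => MvPolynomial.X (Sum.inr i)) := ⟨_, rfl⟩
  have hev : ∀ (Y V : Fin N → k), MvPolynomial.aeval (Sum.elim Y V) f = phi T Y Y Y Y ∧
      MvPolynomial.aeval (Sum.elim Y V) l = phi T Y Y Y V ∧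
      MvPolynomial.aeval (Sum.elim Y V) q = phi T Y Y V V ∧
      MvPolynomial.aeval (Sum.elim Y V) G = (mat T Y).det * phi T Y V V V := by
    intro Y V
    rw [hf, hl, hq, hG]
    exact dc_aeval T Y V
  have hevX : ∀ (Y V : Fin N → k[X]), MvPolynomial.aeval (Sum.elim Y V) f = phi T Y Y Y Y ∧
      MvPolynomial.aeval (Sum.elim Y V) l = phi T Y Y Y V ∧
      MvPolynomial.aeval (Sum.elim Y V) q = phi T Y Y V V ∧
      MvPolynomial.aeval (Sum.elim Y V) G = (mat T Y).det * phi T Y V V V := by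
    intro Y V
    rw [hf, hl, hq, hG]
    exact dc_aeval T Y V
  have hrad : G ∈ (Ideal.span {f, l, q}).radical := by
    rw [← MvPolynomial.vanishingIdeal_zeroLocus_eq_radical (K := k),
      MvPolynomial.mem_vanishingIdeal_iff]
    intro z hz
    rw [MvPolynomial.mem_zeroLocus_iff] at hz
    obtain ⟨x, hx⟩ : ∃ x : Fin N → k, x = z ∘ Sum.inl := ⟨_, rfl⟩
    obtain ⟨v, hv⟩ : ∃ v : Fin N → k, v = z ∘ Sum.inr := ⟨_, rfl⟩
    have hzz : z = Sum.elim x v := by
      rw [hx, hv, Sum.elim_comp_inl_inr]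
    rw [hzz] at hz ⊢
    obtain ⟨e1, e2, e3, e4⟩ := hev x v
    have h3 := hz f (Ideal.subset_span (by simp))
    have h4 := hz l (Ideal.subset_span (by simp))
    have h5 := hz q (Ideal.subset_span (by simp))
    rw [e1] at h3
    rw [e2] at h4
    rw [e3] at h5
    rw [e4]
    by_cases hd : (mat T x).det = 0
    · rw [hd, zero_mul]
    · rw [hex x v ((nd_iff hT x).2 hd) ⟨h3, h4, h5⟩, mul_zero]
  obtain ⟨M, hM⟩ := hrad
  intro x v hx hw
  have hc := hex x v hx hw
  refine ⟨hc, ?_⟩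
  by_cases hv : ∃ c : k, v = c • x
  · obtain ⟨c, rfl⟩ := hv
    rw [phi_smul1, phi_smul2, phi_smul3, phi_smul4, hw.f]
    ring
  push Not at hv
  obtain ⟨Y, V, hY, hV, d1, d2, d3⟩ := newton h2 hT x v hx hw hc hv (M + 1)
  obtain ⟨e1, e2, e3, e4⟩ := hevX Y V
  have hle : Ideal.span {f, l, q} ≤
      (Ideal.span {(X : k[X]) ^ (M + 1)}).comap
        (MvPolynomial.aeval (Sum.elim Y V) : MvPolynomial (Fin N ⊕ Fin N) k →ₐ[k] k[X]) := by
    rw [Ideal.span_le]
    intro p hp
    rw [SetLike.mem_coe, Ideal.mem_comap, Ideal.mem_span_singleton]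
    rcases hp with rfl | rfl | rfl
    · rw [e1]
      exact d1
    · rw [e2]
      exact d2
    · rw [e3]
      exact d3
  have h6 := hle hM
  rw [Ideal.mem_comap, Ideal.mem_span_singleton, map_pow, e4] at h6
  obtain ⟨p, hp, hp0⟩ := dc_lead x v hc hY hV
  rw [hp] at h6
  have h7 : ((mat T Y).det * (X * p)) ^ M = X ^ M * ((mat T Y).det * p) ^ M := by
    rw [← mul_pow]
    ring
  rw [h7, pow_succ, mul_dvd_mul_iff_left (pow_ne_zero M X_ne_zero)] at h6
  have h8 := prime_X.dvd_of_dvd_pow h6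
  rw [Polynomial.X_dvd_iff, Polynomial.coeff_zero_eq_eval_zero, eval_mul, hp0] at h8
  have h9 : ((mat T Y).det).eval 0 = (mat T x).det := by
    have h10 := det_map T (Polynomial.aeval (0 : k) : k[X] →ₐ[k] k) Y
    simp only [Polynomial.coe_aeval_eq_eval] at h10
    rw [← h10]
    congr 2
    funext i
    obtain ⟨s, hs⟩ := hY i
    have h11 : Y i = (C (x i) + X * C (v i)) + X ^ 2 * s := by
      rw [← hs]
      ring
    rw [h11]
    simp
  rw [h9] at h8
  rcases mul_eq_zero.1 h8 with h | h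
  · exact absurd h ((nd_iff hT x).1 hx)
  · exact h

end Pool.Agent.Helper72.QT
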