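import Pool.Agent.Helper72.QT.Lin

/-!
# QT-17: a frame at the base point (quartic threefolds)

`b(u, w) = phi T x x u w`, `q(w) = b(w, w)`.

PROOF. `exists_w0` with `v = s0` gives `A` with `l(A) = 0`, `b(s0, A) = 0`, `q(A) ≠ 0`; `exists_g` gives `B` with `l(B) = 0`, `b(s0, B) ≠ 0`.
CASE 1: `b(s0, v0) ≠ 0`. Take `w0 = v0`, `w1 = A`. `stereo T x s0 v0 = q(v0) s0 - 2 b(s0,v0) v0 = -2 b(s0,v0) v0`, so the cubic form `c_x` at it is `(-2 b(s0,v0))³ c_x(v0) ≠ 0`. The last expression is `b(s0,w0)² q(w1) ≠ 0` (`b(s0,w1) = 0`).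
CASE 2: `b(s0, v0) = 0`. Then `v0 = α s0 + γ x` for some `α, γ`: otherwise `x, s0, v0` are three independent vectors which span a totally isotropic subspace of the nondegenerate space `k^5` (all of `b(x,x)`, `b(x,s0) = l(s0)`, `b(x,v0)`, `q(s0)`, `q(v0)`,
`b(s0,v0)` are zero), but `2 dim ≤ 5`. `α ≠ 0`, because `c_x(γ x) = γ³ f(x) = 0`. Take `w0 = A`, `w1 = B`. `stereo T x s0 A = q(A) s0`, and `c_x(v0) = c_x(α s0 + γ x) = α³ c_x(s0)` (`+ 3 α² γ q(s0) + 3 α γ² l(s0) + γ³ f(x)`, all zero), so `c_x(s0) ≠ 0`.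
The last expression is `b(s0,w1)² q(w0) ≠ 0`.
-/

set_option autoImplicit false

namespace Pool.Agent.Helper72.QT

open Polynomial

variable {k : Type*} [Field k] {T : Ten k 5}

/-- `v0` is a combination of `s0` and `x` if `b(s0, v0) = 0` -/
private theorem comb (hT : SymT T) (x v0 s0 A B C : Fin 5 → k) (hx0 : x ≠ 0)
    (hv : InW T x v0) (hs : InW T x s0) (hs0 : ∀ c : k, s0 ≠ c • x)
    (hA1 : phi T x x x A = 0) (hA2 : phi T x x s0 A = 0) (hA3 : phi T x x A A ≠ 0)
    (hB1 : phi T x x x B = 0) (hB2 : phi T x x s0 B ≠ 0) (hC : phi T x x x C ≠ 0)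
    (hb : phi T x x s0 v0 = 0) : ∃ α γ : k, v0 = α • s0 + γ • x := by
  have hdep : ¬ LinearIndependent k ![x, s0, v0, A, B, C] := by
    intro h
    have h1 := h.fintype_card_le_finrank
    simp at h1
  rw [Fintype.not_linearIndependent_iff] at hdep
  obtain ⟨g, hg, i, hi⟩ := hdep
  simp only [Fin.sum_univ_succ, Matrix.cons_val_zero, Matrix.cons_val_succ, Fin.succ_zero_eq_one,
    Finset.univ_eq_empty, Finset.sum_empty, add_zero] at hg
  have e : ∀ y : Fin 5 → k, g 0 * phi T x x y x + (g 1 * phi T x x y s0 + (g 2 * phi T x x y v0 +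
      (g 3 * phi T x x y A + (g 4 * phi T x x y B + g 5 * phi T x x y C)))) = 0 := by
    intro y
    have h1 := congrArg (fun w => phi T x x y w) hg
    simp only [phi_add4, phi_smul4, phi_zero4] at h1
    exact h1
  have hxx : phi T x x x x = 0 := hv.f
  have hxs : phi T x x x s0 = 0 := hs.l
  have hxv : phi T x x x v0 = 0 := hv.l
  have hsx : phi T x x s0 x = 0 := by rw [phi_s34 hT]; exact hxs
  have hss : phi T x x s0 s0 = 0 := hs.q
  have hvx : phi T x x v0 x = 0 := by rw [phi_s34 hT]; exact hxv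
  have hvs : phi T x x v0 s0 = 0 := by rw [phi_s34 hT]; exact hb
  have hvv : phi T x x v0 v0 = 0 := hv.q
  have hAx : phi T x x A x = 0 := by rw [phi_s34 hT]; exact hA1
  have hAs : phi T x x A s0 = 0 := by rw [phi_s34 hT]; exact hA2
  have hAv : phi T x x A v0 = phi T x x v0 A := phi_s34 hT _ _ _ _
  have h5 : g 5 = 0 := by
    have h := e x
    rw [hxx, hxs, hxv, hA1, hB1] at h
    simp only [mul_zero, zero_add] at h
    exact (mul_eq_zero.1 h).resolve_right hC
  have h4 : g 4 = 0 := by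
    have h := e s0
    rw [hsx, hss, hb, hA2, h5] at h
    simp only [mul_zero, zero_mul, zero_add, add_zero] at h
    exact (mul_eq_zero.1 h).resolve_right hB2
  have h3 : g 3 = 0 := by
    by_contra h3
    have h := e v0
    rw [hvx, hvs, hvv, h4, h5] at h
    simp only [mul_zero, zero_mul, zero_add, add_zero] at h
    have hvA := (mul_eq_zero.1 h).resolve_left h3
    have h' := e A
    rw [hAx, hAs, hAv, hvA, h4, h5] at h'
    simp only [mul_zero, zero_mul, zero_add, add_zero] at h'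
    exact h3 ((mul_eq_zero.1 h').resolve_right hA3)
  have hg' : g 0 • x + (g 1 • s0 + (g 2 • v0 + (g 3 • A + (g 4 • B + g 5 • C)))) = 0 := hg
  rw [h3, h4, h5] at hg'
  simp only [zero_smul, add_zero] at hg'
  have h2 : g 2 ≠ 0 := by
    intro h2
    rw [h2] at hg'
    simp only [zero_smul, add_zero] at hg'
    have h1 : g 1 = 0 := by
      by_contra h1
      apply hs0 (-(g 0 / g 1))
      have h6 : g 1 • s0 = -(g 0 • x) := by
        rw [eq_neg_iff_add_eq_zero, add_comm]
        exact hg'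
      calc s0 = (g 1)⁻¹ • (g 1 • s0) := by rw [smul_smul, inv_mul_cancel₀ h1, one_smul]
        _ = -(g 0 / g 1) • x := by
          rw [h6, smul_neg, smul_smul, neg_smul]
          congr 2
          field_simp
    rw [h1, zero_smul, add_zero] at hg'
    have h0 : g 0 = 0 := (smul_eq_zero.1 hg').resolve_right hx0
    apply hi
    fin_cases i
    · exact h0
    · exact h1
    · exact h2
    · exact h3
    · exact h4
    · exact h5
  refine ⟨-(g 1 / g 2), -(g 0 / g 2), ?_⟩
  have h6 : g 2 • v0 = -(g 1 • s0) - g 0 • x := by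
    have h7 : g 2 • v0 = (g 0 • x + (g 1 • s0 + g 2 • v0)) - g 0 • x - g 1 • s0 := by abel
    rw [h7, hg']
    abel
  calc v0 = (g 2)⁻¹ • (g 2 • v0) := by rw [smul_smul, inv_mul_cancel₀ h2, one_smul]
    _ = -(g 1 / g 2) • s0 + -(g 0 / g 2) • x := by
      rw [h6, smul_sub, smul_neg, smul_smul, smul_smul, neg_smul, neg_smul, sub_eq_add_neg]
      congr 3
      · field_simp
      · field_simp

theorem frame (h2 : (2 : k) ≠ 0) (hT : SymT T) (x v0 s0 : Fin 5 → k) (hx0 : x ≠ 0) (hx : ND T x)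
    (hv : InW T x v0) (hc : phi T x v0 v0 v0 ≠ 0) (hs : InW T x s0) (hs0 : ∀ c : k, s0 ≠ c • x) :
    ∃ w0 w1 : Fin 5 → k, phi T x x x w0 = 0 ∧ phi T x x x w1 = 0 ∧
      phi T x (stereo T x s0 w0) (stereo T x s0 w0) (stereo T x s0 w0) ≠ 0 ∧
      phi T x x s0 w1 ^ 2 * phi T x x w0 w0 - 2 * phi T x x s0 w0 * phi T x x s0 w1 * phi T x x w0 w1 +
        phi T x x s0 w0 ^ 2 * phi T x x w1 w1 ≠ 0 := by
  obtain ⟨A, hA1, hA2, hA3⟩ := exists_w0 h2 hT le_rfl x s0 hx
  obtain ⟨B, hB1, hB2⟩ := exists_g hT x s0 hx hx0 hs0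
  by_cases hb : phi T x x s0 v0 = 0
  · have hC : ∃ C, phi T x x x C ≠ 0 := by
      by_contra h
      push Not at h
      exact hx0 (hx x h)
    obtain ⟨C, hC⟩ := hC
    obtain ⟨α, γ, hαγ⟩ := comb hT x v0 s0 A B C hx0 hv hs hs0 hA1 hA2 hA3 hB1 hB2 hC hb
    have hcs : phi T x s0 s0 s0 ≠ 0 := by
      intro h0
      apply hc
      have hsf : phi T x x x x = 0 := hs.f
      have hsl : phi T x x x s0 = 0 := hs.l
      have hsq : phi T x x s0 s0 = 0 := hs.q
      rw [hαγ]
      have e1 : phi T x (α • s0 + γ • x) (α • s0 + γ • x) (α • s0 + γ • x) =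
          α ^ 3 * phi T x s0 s0 s0 + 3 * α ^ 2 * γ * phi T x x s0 s0 +
            3 * α * γ ^ 2 * phi T x x x s0 + γ ^ 3 * phi T x x x x := by
        have p1 : phi T x s0 s0 x = phi T x x s0 s0 := by
          rw [phi_s34 hT, phi_s23 hT]
        have p2 : phi T x s0 x s0 = phi T x x s0 s0 := by
          rw [phi_s23 hT]
        have p3 : phi T x s0 x x = phi T x x x s0 := by
          rw [phi_s23 hT, phi_s34 hT]
        have p4 : phi T x x s0 x = phi T x x x s0 := phi_s34 hT _ _ _ _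
        simp only [phi_add2, phi_add3, phi_add4, phi_smul2, phi_smul3, phi_smul4, p1, p2, p3, p4]
        ring
      rw [e1, h0, hsq, hsl, hsf]
      ring
    refine ⟨A, B, hA1, hB1, ?_, ?_⟩
    · have e2 : stereo T x s0 A = phi T x x A A • s0 := by
        rw [stereo, hA2, mul_zero, zero_smul, sub_zero]
      rw [e2, phi_smul2, phi_smul3, phi_smul4]
      exact mul_ne_zero hA3 (mul_ne_zero hA3 (mul_ne_zero hA3 hcs))
    · rw [hA2]
      have e3 : phi T x x s0 B ^ 2 * phi T x x A A - 2 * 0 * phi T x x s0 B * phi T x x A B +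
          0 ^ 2 * phi T x x B B = phi T x x s0 B ^ 2 * phi T x x A A := by ring
      rw [e3]
      exact mul_ne_zero (pow_ne_zero _ hB2) hA3
  · refine ⟨v0, A, hv.l, hA1, ?_, ?_⟩
    · have e2 : stereo T x s0 v0 = (-(2 * phi T x x s0 v0)) • v0 := by
        rw [stereo, hv.q, zero_smul, zero_sub, neg_smul]
      have h3 : -(2 * phi T x x s0 v0) ≠ 0 := neg_ne_zero.2 (mul_ne_zero h2 hb)
      rw [e2, phi_smul2, phi_smul3, phi_smul4]
      exact mul_ne_zero h3 (mul_ne_zero h3 (mul_ne_zero h3 hc))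
    · rw [hA2, hv.q]
      have e3 : (0 : k) ^ 2 * 0 - 2 * phi T x x s0 v0 * 0 * phi T x x v0 A +
          phi T x x s0 v0 ^ 2 * phi T x x A A = phi T x x s0 v0 ^ 2 * phi T x x A A := by ring
      rw [e3]
      exact mul_ne_zero (pow_ne_zero _ hb) hA3

end Pool.Agent.Helper72.QT
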