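import Pool.Agent.Helper72.QT.Pencil

/-!
# QT-19: the conic spans the tangent space

PROOF. `b(u, w) = phi T x x u w` over the field `F` (any field extension of `k` with `2 ≠ 0`), `β = b(p0,p2) ≠ 0`, `b(p1,p1) = -2 β`. Let `α x + α0 p0 + α1 p1 + α2 p2 = 0`. `b(p2, .)`: `α b(x,p2) + α0 β = 0` and `b(x, p) = phi T x x x p = 0`, so `α0 = 0`.
`b(p1, .)`: `α1 (-2 β) = 0`, `b(p0, .)`: `α2 β = 0`. Then `α x = 0`, `x ≠ 0`.
-/

set_option autoImplicit false

namespace Pool.Agent.Helper72.QT

open Polynomial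

variable {k : Type*} [Field k] {T : Ten k 5}

theorem indep {F : Type*} [Field F] [Algebra k F] (h2 : (2 : F) ≠ 0) (hT : SymT T)
    (x p0 p1 p2 : Fin 5 → F) (hx : x ≠ 0)
    (l0 : phi T x x x p0 = 0) (l1 : phi T x x x p1 = 0) (l2 : phi T x x x p2 = 0)
    (h00 : phi T x x p0 p0 = 0) (h01 : phi T x x p0 p1 = 0)
    (h11 : 2 * phi T x x p0 p2 + phi T x x p1 p1 = 0)
    (h12 : phi T x x p1 p2 = 0) (h22 : phi T x x p2 p2 = 0) (hβ : phi T x x p0 p2 ≠ 0) :
    LinearIndependent F ![x, p0, p1, p2] := by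
  rw [Fintype.linearIndependent_iff]
  intro g hg
  have key : g 0 • x + g 1 • p0 + g 2 • p1 + g 3 • p2 = 0 := by
    have := hg
    simp only [Fin.sum_univ_four, Matrix.cons_val_zero, Matrix.cons_val_one,
      Matrix.cons_val] at this
    exact this
  have h10 : phi T x x p1 p0 = 0 := by rw [phi_s34 hT]; exact h01
  have h20 : phi T x x p2 p0 = phi T x x p0 p2 := phi_s34 hT _ _ _ _
  have h21 : phi T x x p2 p1 = 0 := by rw [phi_s34 hT]; exact h12
  have x0 : phi T x x p0 x = 0 := by rw [phi_s34 hT]; exact l0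
  have x1 : phi T x x p1 x = 0 := by rw [phi_s34 hT]; exact l1
  have x2 : phi T x x p2 x = 0 := by rw [phi_s34 hT]; exact l2
  have e : ∀ u : Fin 5 → F, g 0 * phi T x x u x + g 1 * phi T x x u p0 +
      g 2 * phi T x x u p1 + g 3 * phi T x x u p2 = 0 := by
    intro u
    rw [← phi_smul4, ← phi_smul4, ← phi_smul4, ← phi_smul4, ← phi_add4, ← phi_add4, ← phi_add4,
      key, phi_zero4]
  have e2 := e p2
  rw [x2, h20, h21, h22] at e2
  have g1 : g 1 = 0 := by
    have : g 1 * phi T x x p0 p2 = 0 := by linear_combination e2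
    exact (mul_eq_zero.1 this).resolve_right hβ
  have e0 := e p0
  rw [x0, h00, h01] at e0
  have g3 : g 3 = 0 := by
    have : g 3 * phi T x x p0 p2 = 0 := by linear_combination e0
    exact (mul_eq_zero.1 this).resolve_right hβ
  have e1 := e p1
  rw [x1, h10, h12] at e1
  have g2 : g 2 = 0 := by
    have : g 2 * (2 * phi T x x p0 p2) = 0 := by linear_combination g 2 * h11 - e1
    exact (mul_eq_zero.1 this).resolve_right (mul_ne_zero h2 hβ)
  have g0 : g 0 = 0 := by
    rw [g1, g2, g3] at key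
    simp only [zero_smul, add_zero] at key
    exact (smul_eq_zero.1 key).resolve_right hx
  intro i
  fin_cases i
  · exact g0
  · exact g1
  · exact g2
  · exact g3

end Pool.Agent.Helper72.QT
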