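import Pool.Agent.Helper72.QT.PrimeF

/-!
# QT-03: Step 0, lifting of a null vector

PROOF. Let `F = fP T` (prime by `prime_fP`), `A = MvPolynomial (Fin N) k ⧸ span {F}`, a domain. The polynomial `D = det (mat T X)` (`X = MvPolynomial.X`) vanishes at all zeros `x` of `F`:
for `x ≠ 0` by `hD` and `nd_iff`, `det_map` with `MvPolynomial.aeval x`; for `x = 0` the matrix is `0` and `N ≥ 3`. So `F ∣ D` (`dvd_of_vanish`), the determinant of the image of the matrix in `A`
is `0` (`det_map` with the quotient map) and `Matrix.exists_mulVec_eq_zero_iff` gives a nonzero vector over `A`; lift it to `r : Fin N → MvPolynomial (Fin N) k`, with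
`F ∣ ((mat T X).mulVec r) b` for all `b` and `¬ F ∣ r j` for some `j`. For some `i`, `X i * r j` is not divisible by `F` (`F` is prime and does not divide `X i`: otherwise, as `F` vanishes
at a nonzero point `z` with ... ; simplest: total degrees, or: there are `x` with `F(x) = 0`, `x_i ≠ 0` for some `i`, take this `i`: e.g. from
`Helper41.Eggert.exists_ne_zero_common_zero`). So (`dvd_of_vanish`) there is `x` with `F(x) = 0`, `x_i r_j(x) ≠ 0`. Put `r = r(x)`. `mat_mulVec` gives `phi T x x r w = 0` for all `w` (`phi_eq_sum`).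
Let `u` with `phi T x x x u = 0`. In `R = DualNumber (DualNumber k)` (or `k[ε, δ]` modulo squares) let `Y = x + ε u + δ r`. Then `phi T Y Y Y Y = 12 ε δ phi T x x u r = 0` (all other terms vanish). So all
`((mat T Y).mulVec (r(Y))) b` vanish (`F ∣ ...`, evaluate with `MvPolynomial.aeval Y`, `aeval_fP`), i.e. `phi T Y Y (r(Y)) w = 0` for all `w` over `k`. Write
`r(Y) = r + ε ru + δ rr + ε δ rur` and compare the coefficients of `ε`, `δ`, `ε δ`.
-/

set_option autoImplicit false
set_option linter.unusedSectionVars false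

namespace Pool.Agent.Helper72.QT

open Polynomial

variable {k : Type*} [Field k] [IsAlgClosed k] {N : ℕ} {T : Ten k N}

universe u

private lemma exists_dual (k : Type u) [Field k] : ∃ (R : Type u) (_ : CommRing R)
    (_ : Algebra k R) (e d : R) (π : R →ₐ[k] k), e * e = 0 ∧ d * d = 0 ∧ π e = 0 ∧ π d = 0 ∧
    (∀ z : R, ∃ a b c f : k, z = algebraMap k R a + e * algebraMap k R b +
      d * algebraMap k R c + e * (d * algebraMap k R f)) ∧
    ∀ a b c f : k, algebraMap k R a + e * algebraMap k R b +
      d * algebraMap k R c + e * (d * algebraMap k R f) = 0 → b = 0 ∧ c = 0 ∧ f = 0 := by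
  refine ⟨DualNumber (DualNumber k), inferInstance, inferInstance,
    TrivSqZeroExt.inl DualNumber.eps, DualNumber.eps, (TrivSqZeroExt.fstHom k k k).comp
      ((TrivSqZeroExt.fstHom (DualNumber k) (DualNumber k) (DualNumber k)).restrictScalars k),
    ?_, ?_, ?_, ?_, ?_, ?_⟩
  · ext <;> simp
  · ext <;> simp
  · simp
  · simp
  · intro z
    refine ⟨z.fst.fst, z.fst.snd, z.snd.fst, z.snd.snd, ?_⟩
    ext <;> simp [TrivSqZeroExt.algebraMap_eq_inl']
  · intro a b c f h
    have h1 := congrArg (fun z => z.fst.snd) h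
    have h2 := congrArg (fun z => z.snd.fst) h
    have h3 := congrArg (fun z => z.snd.snd) h
    simp [TrivSqZeroExt.algebraMap_eq_inl'] at h1 h2 h3
    exact ⟨h1, h2, h3⟩

private lemma fP_dvd_det (h2 : (2 : k) ≠ 0) (hT : SymT T) (hS : Smo T) (hN : 3 ≤ N)
    (hD : ∀ x : Fin N → k, x ≠ 0 → phi T x x x x = 0 → ¬ ND T x) :
    fP T ∣ (mat T (MvPolynomial.X : Fin N → MvPolynomial (Fin N) k)).det := by
  apply dvd_of_vanish h2 hT hS hN
  intro x hx
  have h3 := det_map T (MvPolynomial.aeval x : MvPolynomial (Fin N) k →ₐ[k] k)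
    (MvPolynomial.X : Fin N → MvPolynomial (Fin N) k)
  simp only [MvPolynomial.aeval_X] at h3
  have h4 : MvPolynomial.eval x (mat T (MvPolynomial.X : Fin N → MvPolynomial (Fin N) k)).det =
      MvPolynomial.aeval x (mat T (MvPolynomial.X : Fin N → MvPolynomial (Fin N) k)).det := rfl
  rw [h4, ← h3]
  by_cases hx0 : x = 0
  · subst hx0
    have h5 : mat T (0 : Fin N → k) = 0 := by
      ext a b
      exact phi_zero1 T _ _ _
    have : Nonempty (Fin N) := ⟨⟨0, by omega⟩⟩
    have h6 : (fun i => (0 : Fin N → k) i) = 0 := rfl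
    rw [h6, h5, Matrix.det_zero]
  · by_contra hne
    exact hD x hx0 hx ((nd_iff hT x).2 hne)

/-- evaluation of the null vector -/
private lemma eval_null (hT : SymT T) (r : Fin N → MvPolynomial (Fin N) k)
    (hr : ∀ b, fP T ∣ (mat T (MvPolynomial.X : Fin N → MvPolynomial (Fin N) k)).mulVec r b)
    {R : Type*} [CommRing R] [Algebra k R] (Y : Fin N → R) (hY : phi T Y Y Y Y = 0)
    (w : Fin N → R) : phi T Y Y (fun l => MvPolynomial.aeval Y (r l)) w = 0 := by
  rw [phi_eq_sum]
  refine Finset.sum_eq_zero fun b _ => ?_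
  obtain ⟨q, hq⟩ := hr b
  rw [mat_mulVec hT] at hq
  have h1 := phi_map T (MvPolynomial.aeval Y : MvPolynomial (Fin N) k →ₐ[k] R)
    MvPolynomial.X MvPolynomial.X r (Pi.single b 1)
  rw [hq, map_mul, aeval_fP, hY, zero_mul] at h1
  simp only [MvPolynomial.aeval_X] at h1
  have h2 : (fun i => MvPolynomial.aeval Y
      ((Pi.single b 1 : Fin N → MvPolynomial (Fin N) k) i)) = (Pi.single b 1 : Fin N → R) := by
    funext i
    rw [Pi.single_apply, Pi.single_apply]
    split_ifs <;> simp
  rw [h2] at h1
  rw [h1, zero_mul]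

/-- first expansion -/
private lemma expand_one (hT : SymT T) {R : Type*} [CommRing R] [Algebra k R] {e d : R}
    (he : e * e = 0) (hd : d * d = 0) (X U V : Fin N → R) (h1 : phi T X X X X = 0)
    (h2 : phi T X X X U = 0) (h3 : ∀ w, phi T X X V w = 0) :
    phi T (X + (e • U + d • V)) (X + (e • U + d • V)) (X + (e • U + d • V))
      (X + (e • U + d • V)) = 0 := by
  have hv : ∀ a b : Fin N → R, phi T a b (e • U + d • V) (e • U + d • V) =
      2 * (e * d) * phi T a b U V := by
    intro a b
    simp only [phi_add3, phi_add4, phi_smul3, phi_smul4]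
    rw [phi_s34 hT a b V U]
    linear_combination (phi T a b U U) * he + (phi T a b V V) * hd
  have hv3 : ∀ a : Fin N → R, phi T a (e • U + d • V) (e • U + d • V) (e • U + d • V) = 0 := by
    intro a
    rw [hv]
    simp only [phi_add2, phi_smul2]
    linear_combination (2 * d * phi T a U U V) * he + (2 * e * phi T a V U V) * hd
  have h4 := phi_line hT X (e • U + d • V) (1 : R)
  rw [one_smul] at h4
  rw [h4, h1, hv3, hv3, hv]
  have h5 : phi T X X X (e • U + d • V) = 0 := by
    rw [phi_add4, phi_smul4, phi_smul4, h2, phi_s34 hT X X X V, h3]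
    ring
  have h6 : phi T X X U V = 0 := by rw [phi_s34 hT, h3]
  rw [h5, h6]
  ring

/-- second expansion -/
private lemma expand_two (hT : SymT T) {R : Type*} [CommRing R] [Algebra k R] {e d : R}
    (he : e * e = 0) (hd : d * d = 0) (X U V A B C W : Fin N → R)
    (h : phi T (X + (e • U + d • V)) (X + (e • U + d • V))
      (V + e • A + d • B + e • (d • C)) W = 0) :
    phi T X X V W + e * (2 * phi T X U V W + phi T X X A W) +
      d * (2 * phi T X V V W + phi T X X B W) +
      e * (d * (2 * phi T U V V W + 2 * phi T X U B W + 2 * phi T X V A W +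
        phi T X X C W)) = 0 := by
  have hv : ∀ a b : Fin N → R, phi T (X + (e • U + d • V)) (X + (e • U + d • V)) a b =
      phi T X X a b + 2 * e * phi T X U a b + 2 * d * phi T X V a b +
        2 * (e * d) * phi T U V a b := by
    intro a b
    simp only [phi_add1, phi_add2, phi_smul1, phi_smul2]
    rw [phi_s12 hT U X a b, phi_s12 hT V X a b, phi_s12 hT V U a b]
    linear_combination (phi T U U a b) * he + (phi T V V a b) * hd
  rw [hv] at h
  simp only [phi_add3, phi_smul3] at h
  have e1 : phi T X U V W = phi T X V U W := phi_s23 hT X U V W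
  linear_combination h - (2 * phi T X U A W + 2 * d * phi T X U C W + 2 * d * phi T U V A W +
    2 * d * d * phi T U V C W) * he - (2 * phi T X V B W + 2 * e * phi T X V C W + 2 * e * phi T U V B W) * hd

theorem exists_lift (h2 : (2 : k) ≠ 0) (hT : SymT T) (hS : Smo T) (hN : 3 ≤ N)
    (hD : ∀ x : Fin N → k, x ≠ 0 → phi T x x x x = 0 → ¬ ND T x) :
    ∃ x r : Fin N → k, x ≠ 0 ∧ r ≠ 0 ∧ phi T x x x x = 0 ∧ (∀ w, phi T x x r w = 0) ∧
      ∀ u, phi T x x x u = 0 → ∃ ru rr rur : Fin N → k,
        (∀ w, 2 * phi T x u r w + phi T x x ru w = 0) ∧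
        (∀ w, 2 * phi T x r r w + phi T x x rr w = 0) ∧
        (∀ w, 2 * phi T u r r w + 2 * phi T x u rr w + 2 * phi T x r ru w + phi T x x rur w = 0) := by
  have hprime := prime_fP h2 hT hS hN
  have hspan : (Ideal.span {fP T}).IsPrime :=
    (Ideal.span_singleton_prime hprime.ne_zero).2 hprime
  -- a null vector over the coordinate ring
  obtain ⟨r, hrb, j, hrj⟩ : ∃ r : Fin N → MvPolynomial (Fin N) k,
      (∀ b, fP T ∣ (mat T (MvPolynomial.X : Fin N → MvPolynomial (Fin N) k)).mulVec r b) ∧
        ∃ j, ¬ fP T ∣ r j := by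
    have hdet : ((mat T (MvPolynomial.X : Fin N → MvPolynomial (Fin N) k)).map
        (Ideal.Quotient.mk (Ideal.span {fP T}))).det = 0 := by
      have h3 := (RingHom.map_det (Ideal.Quotient.mk (Ideal.span {fP T}))
        (mat T (MvPolynomial.X : Fin N → MvPolynomial (Fin N) k))).symm
      have h4 : (Ideal.Quotient.mk (Ideal.span {fP T}))
          (mat T (MvPolynomial.X : Fin N → MvPolynomial (Fin N) k)).det = 0 := by
        rw [Ideal.Quotient.eq_zero_iff_mem, Ideal.mem_span_singleton]
        exact fP_dvd_det h2 hT hS hN hD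
      rw [h4] at h3
      exact h3
    obtain ⟨r', hr'0, hr'⟩ := Matrix.exists_mulVec_eq_zero_iff.2 hdet
    choose r hr using fun l => Ideal.Quotient.mk_surjective (r' l)
    refine ⟨r, fun b => ?_, ?_⟩
    · rw [← Ideal.mem_span_singleton, ← Ideal.Quotient.eq_zero_iff_mem]
      have h3 := congrFun hr' b
      rw [← (funext hr : (fun l => Ideal.Quotient.mk (Ideal.span {fP T}) (r l)) = r')] at h3
      simp only [Matrix.mulVec, dotProduct, Matrix.map_apply, Pi.zero_apply] at h3
      rw [Matrix.mulVec, dotProduct, map_sum]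
      simp only [map_mul]
      exact h3
    · by_contra hcon
      push Not at hcon
      apply hr'0
      funext l
      rw [← hr l, Pi.zero_apply, Ideal.Quotient.eq_zero_iff_mem, Ideal.mem_span_singleton]
      exact hcon l
  -- a coordinate which is not divisible
  obtain ⟨i, hi⟩ : ∃ i, ¬ fP T ∣ (MvPolynomial.X i : MvPolynomial (Fin N) k) := by
    obtain ⟨z, hz0, hz⟩ := Helper41.Eggert.exists_ne_zero_common_zero {fP T}
      (by rw [Finset.card_singleton]; omega) (by
        intro f hf
        rw [Finset.mem_singleton] at hf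
        rw [hf]
        have h3 : MvPolynomial.eval (0 : Fin N → k) (fP T) = MvPolynomial.aeval 0 (fP T) := rfl
        rw [h3, aeval_fP, phi_zero1])
    obtain ⟨i, hi⟩ := Function.ne_iff.1 hz0
    refine ⟨i, fun hdvd => hi ?_⟩
    obtain ⟨q, hq⟩ := hdvd
    have h3 := congrArg (MvPolynomial.eval z) hq
    rw [MvPolynomial.eval_X, map_mul, hz _ (Finset.mem_singleton_self _), zero_mul] at h3
    exact h3
  have hij : ¬ fP T ∣ MvPolynomial.X i * r j := fun h => (hprime.dvd_or_dvd h).elim hi hrj
  obtain ⟨x, hx, hxne⟩ : ∃ x : Fin N → k, phi T x x x x = 0 ∧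
      MvPolynomial.eval x (MvPolynomial.X i * r j) ≠ 0 := by
    by_contra hcon
    push Not at hcon
    exact hij (dvd_of_vanish h2 hT hS hN _ hcon)
  rw [map_mul, MvPolynomial.eval_X] at hxne
  have hxi : x i ≠ 0 := left_ne_zero_of_mul hxne
  have hrx : MvPolynomial.eval x (r j) ≠ 0 := right_ne_zero_of_mul hxne
  obtain ⟨ρ, hρ⟩ : ∃ ρ : Fin N → k, ρ = fun l => MvPolynomial.aeval x (r l) := ⟨_, rfl⟩
  have hnull : ∀ w, phi T x x ρ w = 0 := by
    intro w
    rw [hρ]
    exact eval_null hT r hrb x hx w
  refine ⟨x, ρ, ?_, ?_, hx, hnull, ?_⟩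
  · rintro rfl
    exact hxi rfl
  · intro h0
    apply hrx
    have h3 := congrFun h0 j
    rw [hρ] at h3
    exact h3
  · intro u hu
    obtain ⟨R, _, _, e, d, π, he, hd, hπe, hπd, hdec, hind⟩ := exists_dual k
    obtain ⟨X0, hX0⟩ : ∃ X0 : Fin N → R, X0 = fun l => algebraMap k R (x l) := ⟨_, rfl⟩
    obtain ⟨U, hU⟩ : ∃ U : Fin N → R, U = fun l => algebraMap k R (u l) := ⟨_, rfl⟩
    obtain ⟨V, hV⟩ : ∃ V : Fin N → R, V = fun l => algebraMap k R (ρ l) := ⟨_, rfl⟩
    have hnullR : ∀ w, phi T X0 X0 V w = 0 := by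
      intro w
      rw [phi_eq_sum]
      refine Finset.sum_eq_zero fun b _ => ?_
      have h3 := phi_algebraMap (S := R) T x x ρ (Pi.single b 1)
      rw [hnull, map_zero] at h3
      have h4 : (fun i => algebraMap k R ((Pi.single b 1 : Fin N → k) i)) =
          (Pi.single b 1 : Fin N → R) := by
        funext i
        rw [Pi.single_apply, Pi.single_apply]
        split_ifs <;> simp
      rw [h4, ← hX0, ← hV] at h3
      rw [h3, zero_mul]
    have hf1 : phi T X0 X0 X0 X0 = 0 := by
      rw [hX0, phi_algebraMap, hx, map_zero]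
    have hf2 : phi T X0 X0 X0 U = 0 := by
      rw [hX0, hU, phi_algebraMap, hu, map_zero]
    obtain ⟨Y, hY⟩ : ∃ Y : Fin N → R, Y = X0 + (e • U + d • V) := ⟨_, rfl⟩
    have hYY : phi T Y Y Y Y = 0 := by
      rw [hY]
      exact expand_one hT he hd X0 U V hf1 hf2 hnullR
    choose a b c f hz using fun l => hdec (MvPolynomial.aeval Y (r l))
    have ha : ∀ l, a l = ρ l := by
      intro l
      have h3 : π (MvPolynomial.aeval Y (r l)) = ρ l := by
        have h4 : π (MvPolynomial.aeval Y (r l)) =
            MvPolynomial.aeval (fun i => π (Y i)) (r l) := by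
          have h5 : π.comp (MvPolynomial.aeval Y) = MvPolynomial.aeval (fun i => π (Y i)) := by
            ext i
            simp
          exact DFunLike.congr_fun h5 (r l)
        have h6 : (fun i => π (Y i)) = x := by
          funext i
          rw [hY, hX0]
          simp only [Pi.add_apply, Pi.smul_apply, smul_eq_mul, map_add, map_mul, hπe, hπd,
            zero_mul, add_zero]
          exact π.commutes (x i)
        rw [h4, h6, hρ]
      rw [hz l] at h3
      simp only [map_add, map_mul, hπe, hπd, zero_mul, add_zero] at h3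
      rw [← h3]
      exact (π.commutes (a l)).symm
    obtain ⟨A, hA⟩ : ∃ A : Fin N → R, A = fun l => algebraMap k R (b l) := ⟨_, rfl⟩
    obtain ⟨B, hB⟩ : ∃ B : Fin N → R, B = fun l => algebraMap k R (c l) := ⟨_, rfl⟩
    obtain ⟨C, hC⟩ : ∃ C : Fin N → R, C = fun l => algebraMap k R (f l) := ⟨_, rfl⟩
    have hrY : (fun l => MvPolynomial.aeval Y (r l)) = V + e • A + d • B + e • (d • C) := by
      funext l
      rw [hz l, ha l, hV, hA, hB, hC]
      rfl
    have hall : ∀ w : Fin N → k,
        (2 * phi T x u ρ w + phi T x x b w = 0) ∧ (2 * phi T x ρ ρ w + phi T x x c w = 0) ∧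
        (2 * phi T u ρ ρ w + 2 * phi T x u c w + 2 * phi T x ρ b w + phi T x x f w = 0) := by
      intro w
      obtain ⟨W, hW⟩ : ∃ W : Fin N → R, W = fun l => algebraMap k R (w l) := ⟨_, rfl⟩
      have h3 := eval_null hT r hrb Y hYY W
      rw [hrY, hY] at h3
      have h4 := expand_two hT he hd X0 U V A B C W h3
      rw [hX0, hU, hV, hA, hB, hC, hW] at h4
      simp only [phi_algebraMap] at h4
      apply hind (phi T x x ρ w)
      rw [← h4]
      simp only [map_add, map_mul, map_ofNat]
    exact ⟨b, c, f, fun w => (hall w).1, fun w => (hall w).2.1, fun w => (hall w).2.2⟩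

end Pool.Agent.Helper72.QT
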