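import Pool.Agent.Helper72.QT.Basic

/-!
# QT-04: Step 0, the contradiction

PROOF. Write `Phi(a,b,c,d) = phi T a b c d` (symmetric). Let `u` with `Phi(x,x,x,u) = 0` and `ru, rr, rur` as in `h`: equations (1), (2), (3).
(1) at `w = r`: `Phi(x,u,r,r) = 0` (as `Phi(x,x,ru,r) = 0` by `hr0`), for all `u` in the kernel of `l_x`.
(1) at `w = x`: `Phi(x,x,x,ru) = 0`, so the previous line applies to `ru`: `Phi(x,ru,r,r) = 0`.
(1) at `w = rr` and (2) at `w = ru`: `2 Phi(x,u,r,rr) = -Phi(x,x,ru,rr) = 2 Phi(x,r,r,ru) = 0`.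
(3) at `w = r`: `2 Phi(u,r,r,r) + 2 Phi(x,u,rr,r) + 2 Phi(x,r,ru,r) + Phi(x,x,rur,r) = 0`, so `Phi(u,r,r,r) = 0`.
So the linear forms `Phi(r,r,r,.)` and `Phi(x,r,r,.)` vanish on the kernel of `l = Phi(x,x,x,.)`, so they are multiples `κ l`, `ν l` (choose `e` with `l(e) = 1`: `Smo`; for all
`w` the vector `w - l(w) e` is in the kernel). `κ ≠ 0` as `r ≠ 0` is not singular (`Smo`). For `τ` in `k` and `y = x + τ r`:
`Phi(y,y,y,w) = Phi(x,x,x,w) + 3 τ Phi(x,x,r,w) + 3 τ² Phi(x,r,r,w) + τ³ Phi(r,r,r,w) = (1 + 3 ν τ² + κ τ³) l(w)`. Choose a root `τ` of the cubic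
(`IsAlgClosed.exists_root`); `τ ≠ 0`. By `Smo`, `y = 0`, `x = -τ r`, so `0 = Phi(x,x,r,e) = τ² Phi(r,r,r,e) = τ² κ ≠ 0`, contradiction.
The simp set `phi_s12 hT, phi_s23 hT, phi_s34 hT` sorts arguments (see `phi_line` in `Basic`).
-/

set_option autoImplicit false

namespace Pool.Agent.Helper72.QT

open Polynomial

variable {k : Type*} [Field k] [IsAlgClosed k] {N : ℕ} {T : Ten k N}

theorem no_lift (h2 : (2 : k) ≠ 0) (hT : SymT T) (hS : Smo T) (x r : Fin N → k) (hx : x ≠ 0)
    (hr : r ≠ 0) (hr0 : ∀ w, phi T x x r w = 0)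
    (h : ∀ u, phi T x x x u = 0 → ∃ ru rr rur : Fin N → k,
        (∀ w, 2 * phi T x u r w + phi T x x ru w = 0) ∧
        (∀ w, 2 * phi T x r r w + phi T x x rr w = 0) ∧
        (∀ w, 2 * phi T u r r w + 2 * phi T x u rr w + 2 * phi T x r ru w + phi T x x rur w = 0)) :
    False := by
  -- step A
  have hA : ∀ u, phi T x x x u = 0 → phi T x u r r = 0 := by
    intro u hu
    obtain ⟨ru, rr, rur, h1, -, -⟩ := h u hu
    have e1 := h1 r
    have e2 : phi T x x ru r = 0 := by
      have : phi T x x ru r = phi T x x r ru := phi_s34 hT _ _ _ _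
      rw [this, hr0]
    rw [e2, add_zero] at e1
    exact (mul_eq_zero.1 e1).resolve_left h2
  -- the form `phi r r r`
  have hB : ∀ u, phi T x x x u = 0 → phi T r r r u = 0 := by
    intro u hu
    obtain ⟨ru, rr, rur, h1, h2', h3⟩ := h u hu
    have a1 : phi T x x x ru = 0 := by
      have e1 := h1 x
      have e2 : phi T x u r x = phi T x x r u := by
        simp only [phi_s12 hT, phi_s23 hT, phi_s34 hT]
      have e3 : phi T x x ru x = phi T x x x ru := phi_s34 hT _ _ _ _
      rw [e2, hr0, mul_zero, zero_add, e3] at e1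
      exact e1
    have a2 : phi T x ru r r = 0 := hA ru a1
    have a3 : phi T x x ru rr = 0 := by
      have e1 := h2' ru
      have e2 : phi T x r r ru = phi T x ru r r := by
        simp only [phi_s12 hT, phi_s23 hT, phi_s34 hT]
      have e3 : phi T x x rr ru = phi T x x ru rr := phi_s34 hT _ _ _ _
      rw [e2, a2, mul_zero, zero_add, e3] at e1
      exact e1
    have a4 : 2 * phi T x u r rr = 0 := by
      have e1 := h1 rr
      rwa [a3, add_zero] at e1
    have e1 := h3 r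
    have e2 : phi T x u rr r = phi T x u r rr := phi_s34 hT _ _ _ _
    have e3 : phi T x r ru r = phi T x ru r r := phi_s23 hT _ _ _ _
    have e4 : phi T x x rur r = phi T x x r rur := phi_s34 hT _ _ _ _
    have e5 : phi T u r r r = phi T r r r u := by
      simp only [phi_s12 hT, phi_s23 hT, phi_s34 hT]
    rw [e2, a4, e3, a2, e4, hr0, e5, mul_zero, add_zero, add_zero, add_zero] at e1
    exact (mul_eq_zero.1 e1).resolve_left h2
  -- a vector with `l e = 1`
  obtain ⟨v, hv⟩ := hS x hx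
  set e : Fin N → k := (phi T x x x v)⁻¹ • v with he
  have hle : phi T x x x e = 1 := by
    rw [he, phi_smul4, inv_mul_cancel₀ hv]
  have hker : ∀ w, phi T x x x (w - phi T x x x w • e) = 0 := by
    intro w
    rw [phi_sub4, phi_smul4, hle, mul_one, sub_self]
  have hκ : ∀ w, phi T r r r w = phi T x x x w * phi T r r r e := by
    intro w
    have h1 := hB _ (hker w)
    rw [phi_sub4, phi_smul4] at h1
    exact sub_eq_zero.1 h1
  have hν : ∀ w, phi T x r r w = phi T x x x w * phi T x r r e := by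
    intro w
    have h1 := hA _ (hker w)
    have e2 : phi T x (w - phi T x x x w • e) r r = phi T x r r (w - phi T x x x w • e) := by
      rw [phi_s23 hT x _ r r, phi_s34 hT x r _ r]
    rw [e2, phi_sub4, phi_smul4] at h1
    exact sub_eq_zero.1 h1
  set κ := phi T r r r e with hκdef
  set ν := phi T x r r e with hνdef
  have hκ0 : κ ≠ 0 := by
    intro h0
    obtain ⟨v', hv'⟩ := hS r hr
    apply hv'
    rw [hκ, h0, mul_zero]
  -- the root of the cubic
  obtain ⟨τ, hτ⟩ : ∃ τ : k, 1 + 3 * ν * τ ^ 2 + κ * τ ^ 3 = 0 := by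
    have hdeg : (C κ * X ^ 3 + C (3 * ν) * X ^ 2 + C 0 * X + C 1 : k[X]).degree = 3 :=
      degree_cubic hκ0
    obtain ⟨τ, hτ⟩ := IsAlgClosed.exists_root
      (C κ * X ^ 3 + C (3 * ν) * X ^ 2 + C 0 * X + C 1 : k[X]) (by rw [hdeg]; decide)
    refine ⟨τ, ?_⟩
    have h1 : κ * τ ^ 3 + 3 * ν * τ ^ 2 + 0 * τ + 1 = 0 := by
      have h2 := hτ
      rw [IsRoot.def] at h2
      simpa [eval_add, eval_mul, eval_pow] using h2
    rw [← h1]
    ring
  have hy : x + τ • r = 0 := by
    by_contra hne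
    obtain ⟨w, hw⟩ := hS _ hne
    apply hw
    have e1 : phi T (x + τ • r) (x + τ • r) (x + τ • r) w =
        phi T x x x w + 3 * τ * phi T x x r w + 3 * τ ^ 2 * phi T x r r w +
          τ ^ 3 * phi T r r r w := by
      have s1 : phi T x r x w = phi T x x r w := phi_s23 hT _ _ _ _
      have s2 : phi T r x x w = phi T x x r w := by rw [phi_s12 hT r x x w, s1]
      have s3 : phi T r x r w = phi T x r r w := phi_s12 hT _ _ _ _
      have s4 : phi T r r x w = phi T x r r w := by rw [phi_s23 hT r r x w, s3]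
      simp only [phi_add1, phi_add2, phi_add3, phi_smul1, phi_smul2, phi_smul3]
      rw [s1, s2, s3, s4]
      ring
    rw [e1, hr0, hν w, hκ w]
    have e2 : phi T x x x w + 3 * τ * 0 + 3 * τ ^ 2 * (phi T x x x w * ν) +
        τ ^ 3 * (phi T x x x w * κ) = phi T x x x w * (1 + 3 * ν * τ ^ 2 + κ * τ ^ 3) := by ring
    rw [e2, hτ, mul_zero]
  have hxr : x = (-τ) • r := by
    rw [neg_smul]
    exact eq_neg_of_add_eq_zero_left hy
  have h0 := hr0 e
  rw [hxr, phi_smul1, phi_smul2, ← mul_assoc, neg_mul_neg] at h0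
  rcases mul_eq_zero.1 h0 with h1 | h1
  · have hτ0 : τ = 0 := mul_self_eq_zero.1 h1
    apply hx
    rw [hxr, hτ0, neg_zero, zero_smul]
  · exact hκ0 h1

end Pool.Agent.Helper72.QT
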