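import Pool.Agent.Helper72.QT.Basic

/-!
# QT-15: removing the common factor

PROOF. Let `g` be the gcd of the entries (`Finset.gcd`, or a generator of the ideal spanned by the entries; `k[X]` is a PID), `x i = g * y i` with the ideal of the `y i` equal to the unit ideal; `g ≠ 0` as `x(0) ≠ 0`
and `g(0) ≠ 0`. `phi T x x x x = g⁴ phi T y y y y`. No common root of the `y i`: `∑ a_i y_i = 1`. `y(0) = (μ / g(0)) x0`. Let `m` be the maximum of the degrees of the `y i`; there is `i` with `(y i).coeff m ≠ 0` (leading coefficient; not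
all `y i` are zero). If `m = 0` then `y i = C (z i)`, so `x i = g * C (z i)`, contradiction to the last hypothesis (`a = 1`).
-/

set_option autoImplicit false

namespace Pool.Agent.Helper72.QT

open Polynomial

variable {k : Type*} [Field k] {T : Ten k 5}

theorem reduce (x0 : Fin 5 → k) (hx : x0 ≠ 0) (x : Fin 5 → k[X]) (hf : phi T x x x x = 0)
    (h0 : ∃ μ : k, μ ≠ 0 ∧ ∀ i, (x i).eval 0 = μ * x0 i)
    (hc : ¬ ∃ (z : Fin 5 → k) (a b : k[X]), a ≠ 0 ∧ ∀ i, a * x i = b * C (z i)) :
    ∃ (y : Fin 5 → k[X]) (m : ℕ), phi T y y y y = 0 ∧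
      (∃ μ : k, μ ≠ 0 ∧ ∀ i, (y i).eval 0 = μ * x0 i) ∧
      (∀ τ : k, ∃ i, (y i).eval τ ≠ 0) ∧ 1 ≤ m ∧ (∀ i, (y i).natDegree ≤ m) ∧
      ∃ i, (y i).coeff m ≠ 0 := by
  obtain ⟨μ, hμ, h0⟩ := h0
  obtain ⟨g, hg⟩ : ∃ g : k[X], Ideal.span (Set.range x) = Ideal.span {g} :=
    (IsPrincipalIdealRing.principal (Ideal.span (Set.range x))).principal
  have h1 : ∀ i, ∃ y, x i = g * y := by
    intro i
    have h2 : x i ∈ Ideal.span {g} := by
      rw [← hg]
      exact Ideal.subset_span ⟨i, rfl⟩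
    exact Ideal.mem_span_singleton.1 h2
  choose y hy using h1
  obtain ⟨i0, hi0⟩ : ∃ i, x0 i ≠ 0 := by
    by_contra hcon
    push Not at hcon
    exact hx (funext hcon)
  have hxi0 : (x i0).eval 0 ≠ 0 := by
    rw [h0]
    exact mul_ne_zero hμ hi0
  have hg0 : g.eval 0 ≠ 0 := by
    intro h
    apply hxi0
    rw [hy, eval_mul, h, zero_mul]
  have hgne : g ≠ 0 := by
    rintro rfl
    exact hg0 eval_zero
  have hxy : x = g • y := by
    funext i
    exact hy i
  have hsum : ∃ a : Fin 5 → k[X], ∑ i, a i * y i = 1 := by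
    have h2 : g ∈ Ideal.span (Set.range x) := by
      rw [hg]
      exact Ideal.mem_span_singleton_self g
    obtain ⟨a, ha⟩ := Ideal.mem_span_range_iff_exists_fun.1 h2
    refine ⟨a, ?_⟩
    apply mul_left_cancel₀ hgne
    rw [mul_one, Finset.mul_sum]
    refine Eq.trans (Finset.sum_congr rfl fun i _ => ?_) ha
    rw [hy i]
    ring
  obtain ⟨a, ha⟩ := hsum
  obtain ⟨i1, -, hi1⟩ := Finset.exists_mem_eq_sup (Finset.univ : Finset (Fin 5)) ⟨0, Finset.mem_univ _⟩
    (fun i => (y i).natDegree)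
  have hle : ∀ i, (y i).natDegree ≤ (y i1).natDegree := by
    intro i
    rw [← hi1]
    exact Finset.le_sup (f := fun i => (y i).natDegree) (Finset.mem_univ i)
  have hm : 1 ≤ (y i1).natDegree := by
    by_contra hcon
    have h3 : (y i1).natDegree = 0 := by omega
    refine hc ⟨fun i => (y i).coeff 0, 1, g, one_ne_zero, fun i => ?_⟩
    rw [one_mul]
    have h4 : (y i).natDegree = 0 := by
      have := hle i
      omega
    have h5 := eq_C_of_natDegree_eq_zero h4
    rw [← h5]
    exact hy i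
  refine ⟨y, (y i1).natDegree, ?_, ⟨μ / g.eval 0, div_ne_zero hμ hg0, fun i => ?_⟩, ?_, hm, hle, i1, ?_⟩
  · rw [hxy, phi_smul1, phi_smul2, phi_smul3, phi_smul4] at hf
    have h2 : g * (g * (g * g)) ≠ 0 := mul_ne_zero hgne (mul_ne_zero hgne (mul_ne_zero hgne hgne))
    have h3 : g * (g * (g * g)) * phi T y y y y = 0 := by
      rw [← hf]
      ring
    exact (mul_eq_zero.1 h3).resolve_left h2
  · have h2 := h0 i
    rw [hy, eval_mul] at h2
    rw [div_mul_eq_mul_div, eq_div_iff hg0, ← h2]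
    ring
  · intro τ
    by_contra hcon
    push Not at hcon
    have h2 := congrArg (fun p : k[X] => p.eval τ) ha
    simp only [eval_finsetSum, eval_mul, hcon, mul_zero, Finset.sum_const_zero, eval_one] at h2
    exact zero_ne_one h2
  · have h2 : y i1 ≠ 0 := by
      intro h
      rw [h, natDegree_zero] at hm
      omega
    exact leadingCoeff_ne_zero.2 h2

end Pool.Agent.Helper72.QT
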