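import Pool.Agent.Helper72.QT.Ratio

/-!
# QT-10: a rational surface of residual points, dimension at least four

PROOF. Over `K = KK k` (all vectors of `k^N` mapped with `algebraMap`, `phi_algebraMap`): `w = w0 + t w1 + s w2` (`t = tt k`, `s = ss k`), `v = stereo T x v0 w` (`InW` by `stereo_l`, `stereo_q`), `y = resid T x v = f(v) x - 4 c_x(v) v`
(`phi_resid`). Here `b(v0, w) = t β`, `β = b(v0, w1) ≠ 0`. `c_x(v) ≠ 0`: it is the image of the same expression in `k[X][X]` (or in `MvPolynomial (Fin 2) k`), whose value at `t = s = 0` is `c_x(q(w0) v0) = q(w0)³ c_x(v0) ≠ 0`.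
So `y = f(v) x - 4 c q(w) v0 + 8 c t β w0 + 8 c t β t w1 + 8 c t β s w2`. By `exists_dual` for `![x, v0, w0, w1, w2]` the ratios of the last three coordinates `1 : t : s` are in the field (`ratio_mem`); some `y_i ≠ 0`
as the coordinate at `w0` is not `0`; `gen_top`.
-/

set_option autoImplicit false

namespace Pool.Agent.Helper72.QT

open Polynomial

variable {k : Type*} [Field k] {N : ℕ} {T : Ten k N}

section aux

variable {R S : Type*} [CommRing R] [Algebra k R] [CommRing S] [Algebra k S]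

/-- a vector with coordinates in `k` over the algebra `R` -/
private def lf (R : Type*) [CommRing R] [Algebra k R] (x : Fin N → k) : Fin N → R :=
  fun i => algebraMap k R (x i)

private theorem phi_lf (T : Ten k N) (x y z w : Fin N → k) :
    phi T (lf R x) (lf R y) (lf R z) (lf R w) = algebraMap k R (phi T x y z w) :=
  phi_algebraMap T (R := k) (S := R) x y z w

private def wt (w0 w1 w2 : Fin N → k) (t s : R) : Fin N → R :=
  lf R w0 + t • lf R w1 + s • lf R w2

private def vt (T : Ten k N) (x v0 w0 w1 w2 : Fin N → k) (t s : R) : Fin N → R :=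
  stereo T (lf R x) (lf R v0) (wt w0 w1 w2 t s)

private def ct (T : Ten k N) (x v0 w0 w1 w2 : Fin N → k) (t s : R) : R :=
  phi T (lf R x) (vt T x v0 w0 w1 w2 t s) (vt T x v0 w0 w1 w2 t s) (vt T x v0 w0 w1 w2 t s)

private theorem lf_map (g : R →ₐ[k] S) (x : Fin N → k) : (fun i => g (lf R x i)) = lf S x := by
  funext i
  exact g.commutes _

private theorem wt_map (g : R →ₐ[k] S) (w0 w1 w2 : Fin N → k) (t s : R) :
    (fun i => g (wt w0 w1 w2 t s i)) = wt w0 w1 w2 (g t) (g s) := by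
  funext i
  simp only [wt, Pi.add_apply, Pi.smul_apply, smul_eq_mul, map_add, map_mul]
  rw [← lf_map g w0, ← lf_map g w1, ← lf_map g w2]

private theorem stereo_map (T : Ten k N) (g : R →ₐ[k] S) (x u w : Fin N → R) :
    (fun i => g (stereo T x u w i)) =
      stereo T (fun i => g (x i)) (fun i => g (u i)) (fun i => g (w i)) := by
  funext i
  unfold stereo
  rw [phi_map, phi_map]
  simp only [Pi.sub_apply, Pi.smul_apply, smul_eq_mul, map_sub, map_mul, map_ofNat]

private theorem ct_map (T : Ten k N) (g : R →ₐ[k] S) (x v0 w0 w1 w2 : Fin N → k) (t s : R) :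
    g (ct T x v0 w0 w1 w2 t s) = ct T x v0 w0 w1 w2 (g t) (g s) := by
  have h1 : (fun i => g (vt T x v0 w0 w1 w2 t s i)) = vt T x v0 w0 w1 w2 (g t) (g s) := by
    unfold vt
    rw [stereo_map, lf_map, lf_map, wt_map]
  unfold ct
  rw [← phi_map, h1, lf_map]

private theorem ct_zero (x v0 w0 w1 w2 : Fin N → k) (b0 : phi T x x v0 w0 = 0) :
    ct T x v0 w0 w1 w2 (0 : k) (0 : k) = phi T x x w0 w0 ^ 3 * phi T x v0 v0 v0 := by
  have h0 : ∀ z : Fin N → k, lf k z = z := fun z => rfl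
  have h1 : vt T x v0 w0 w1 w2 (0 : k) (0 : k) = phi T x x w0 w0 • v0 := by
    unfold vt stereo wt
    simp only [h0, zero_smul, add_zero, b0, mul_zero, sub_zero]
  unfold ct
  rw [h1, h0, phi_smul2, phi_smul3, phi_smul4]
  ring

end aux

/-- evaluation at `(0, 0)` -/
private noncomputable def ev0 (k : Type*) [Field k] : k[X][X] →ₐ[k] k :=
  (Polynomial.aeval (0 : k)).comp ((Polynomial.aeval (0 : k[X])).restrictScalars k)

/-- the embedding of the polynomials -/
private noncomputable def emb (k : Type*) [Field k] : k[X][X] →ₐ[k] KK k :=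
  (IsScalarTower.toAlgHom k (RatFunc k)[X] (KK k)).comp
    (Polynomial.mapAlgHom (IsScalarTower.toAlgHom k k[X] (RatFunc k)))

private theorem emb_inj : Function.Injective (emb k) := by
  intro p q h
  have h1 : algebraMap (RatFunc k)[X] (KK k)
        (Polynomial.map (algebraMap k[X] (RatFunc k)) p) =
      algebraMap (RatFunc k)[X] (KK k) (Polynomial.map (algebraMap k[X] (RatFunc k)) q) := h
  exact Polynomial.map_injective _ (RatFunc.algebraMap_injective k)
    (RatFunc.algebraMap_injective _ h1)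

private theorem emb_t : emb k (C X) = tt k := by
  have h1 : algebraMap (RatFunc k)[X] (KK k)
        (Polynomial.map (algebraMap k[X] (RatFunc k)) (C X)) = tt k := by
    rw [Polynomial.map_C, RatFunc.algebraMap_X, RatFunc.algebraMap_C]
    rfl
  exact h1

private theorem emb_s : emb k X = ss k := by
  have h1 : algebraMap (RatFunc k)[X] (KK k)
        (Polynomial.map (algebraMap k[X] (RatFunc k)) X) = ss k := by
    rw [Polynomial.map_X, RatFunc.algebraMap_X]
    rfl
  exact h1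

private theorem ev0_t : ev0 k (C X) = 0 := by
  simp [ev0]

private theorem ev0_s : ev0 k X = 0 := by
  simp [ev0]

private theorem ct_ne (x v0 w0 w1 w2 : Fin N → k) (b0 : phi T x x v0 w0 = 0)
    (q0 : phi T x x w0 w0 ≠ 0) (hc : phi T x v0 v0 v0 ≠ 0) :
    ct T x v0 w0 w1 w2 (tt k) (ss k) ≠ 0 := by
  intro h
  have h1 : emb k (ct T x v0 w0 w1 w2 (C X) X) = emb k 0 := by
    rw [ct_map, emb_t, emb_s, h, map_zero]
  have h2 := emb_inj h1
  have h3 := congrArg (ev0 k) h2
  rw [ct_map, ev0_t, ev0_s, map_zero, ct_zero _ _ _ _ _ b0] at h3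
  exact mul_ne_zero (pow_ne_zero 3 q0) hc h3

theorem surfA (h2 : (2 : k) ≠ 0) (hT : SymT T) (x v0 w0 w1 w2 : Fin N → k)
    (li : LinearIndependent k ![x, v0, w0, w1, w2]) (hv0 : InW T x v0)
    (l0 : phi T x x x w0 = 0) (l1 : phi T x x x w1 = 0) (l2 : phi T x x x w2 = 0)
    (b0 : phi T x x v0 w0 = 0) (b1 : phi T x x v0 w1 ≠ 0) (b2 : phi T x x v0 w2 = 0)
    (q0 : phi T x x w0 w0 ≠ 0) (hc : phi T x v0 v0 v0 ≠ 0) : ContRat T := by
  obtain ⟨a, ha⟩ := exists_dual _ li
  obtain ⟨t, ht⟩ : ∃ t, t = tt k := ⟨_, rfl⟩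
  obtain ⟨s, hs⟩ : ∃ s, s = ss k := ⟨_, rfl⟩
  obtain ⟨β, hβ⟩ : ∃ β, β = algebraMap k (KK k) (phi T x x v0 w1) := ⟨_, rfl⟩
  have hβ0 : β ≠ 0 := by
    rw [hβ]
    exact (_root_.map_ne_zero _).2 b1
  have ht0 : t ≠ 0 := by
    rw [ht]
    exact (_root_.map_ne_zero _).2 RatFunc.X_ne_zero
  have h20 : (2 : KK k) ≠ 0 := by
    have h3 : algebraMap k (KK k) 2 ≠ 0 := (_root_.map_ne_zero _).2 h2
    rwa [map_ofNat] at h3
  obtain ⟨w, hw⟩ : ∃ w : Fin N → KK k, w = wt w0 w1 w2 t s := ⟨_, rfl⟩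
  obtain ⟨v, hv⟩ : ∃ v : Fin N → KK k, v = vt T x v0 w0 w1 w2 t s := ⟨_, rfl⟩
  obtain ⟨c, hcc⟩ : ∃ c, c = ct T x v0 w0 w1 w2 t s := ⟨_, rfl⟩
  have hc0 : c ≠ 0 := by
    rw [hcc, ht, hs]
    exact ct_ne x v0 w0 w1 w2 b0 q0 hc
  have hcv : phi T (lf (KK k) x) v v v = c := by
    rw [hcc, hv]
    rfl
  have hbw : phi T (lf (KK k) x) (lf (KK k) x) (lf (KK k) v0) w = t * β := by
    rw [hw]
    unfold wt
    rw [phi_add4, phi_add4, phi_smul4, phi_smul4, phi_lf, phi_lf, phi_lf, b0, b2, map_zero, ← hβ]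
    ring
  have hlw : phi T (lf (KK k) x) (lf (KK k) x) (lf (KK k) x) w = 0 := by
    rw [hw]
    unfold wt
    rw [phi_add4, phi_add4, phi_smul4, phi_smul4, phi_lf, phi_lf, phi_lf, l0, l1, l2, map_zero]
    ring
  have hv' : v = phi T (lf (KK k) x) (lf (KK k) x) w w • lf (KK k) v0 - (2 * (t * β)) • w := by
    rw [hv]
    unfold vt stereo
    rw [← hw, hbw]
  have hin : InW T (lf (KK k) x) v := by
    refine ⟨?_, ?_, ?_⟩
    · rw [phi_lf, hv0.f, map_zero]
    · rw [hv]
      unfold vt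
      rw [← hw]
      refine stereo_l ?_ hlw
      rw [phi_lf, hv0.l, map_zero]
    · rw [hv]
      unfold vt
      refine stereo_q hT ?_
      rw [phi_lf, hv0.q, map_zero]
  obtain ⟨y, hy⟩ : ∃ y, y = resid T (lf (KK k) x) v := ⟨_, rfl⟩
  obtain ⟨D, hD⟩ : ∃ D, D = 8 * c * (t * β) := ⟨_, rfl⟩
  have hD0 : D ≠ 0 := by
    have h8 : (8 : KK k) = 2 * 2 * 2 := by norm_num
    rw [hD, h8]
    exact mul_ne_zero (mul_ne_zero (mul_ne_zero (mul_ne_zero h20 h20) h20) hc0)
      (mul_ne_zero ht0 hβ0)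
  obtain ⟨cf, hcf⟩ : ∃ cf : Fin 5 → KK k, cf = ![phi T v v v v,
      -(4 * c * phi T (lf (KK k) x) (lf (KK k) x) w w), D, D * t, D * s] := ⟨_, rfl⟩
  have hcomb : ∀ j, y j = ∑ q, cf q * algebraMap k (KK k) (![x, v0, w0, w1, w2] q j) := by
    intro j
    rw [hy, hcf, Fin.sum_univ_five]
    unfold resid
    rw [hcv, hv', hw]
    simp only [wt, lf, Pi.sub_apply, Pi.smul_apply, Pi.add_apply, smul_eq_mul, Matrix.cons_val]
    rw [hD]
    ring
  have hdual : ∀ p, ∑ j, algebraMap k (KK k) (a p j) * y j = cf p := by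
    intro p
    rw [← ha cf p]
    exact Finset.sum_congr rfl fun j _ => by rw [hcomb j]
  have hd2 : ∑ j, algebraMap k (KK k) (a 2 j) * y j = D := by
    rw [hdual 2, hcf]
    rfl
  have hd3 : ∑ j, algebraMap k (KK k) (a 3 j) * y j = D * t := by
    rw [hdual 3, hcf]
    rfl
  have hd4 : ∑ j, algebraMap k (KK k) (a 4 j) * y j = D * s := by
    rw [hdual 4, hcf]
    rfl
  obtain ⟨i, hi⟩ : ∃ i, y i ≠ 0 := by
    by_contra hno
    push Not at hno
    refine hD0 ?_
    rw [← hd2]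
    exact Finset.sum_eq_zero fun j _ => by rw [hno j, mul_zero]
  refine ⟨y, ?_, i, hi, ?_⟩
  · rw [hy]
    exact phi_resid hT hin
  · refine gen_top _ ?_ ?_
    · have h3 := ratio_mem y i hi (a 4) (a 2)
      rw [hd4, hd2, mul_div_cancel_left₀ _ hD0, hs] at h3
      exact h3
    · have h3 := ratio_mem y i hi (a 3) (a 2)
      rw [hd3, hd2, mul_div_cancel_left₀ _ hD0, ht] at h3
      exact h3

end Pool.Agent.Helper72.QT
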