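import Pool.Agent.Helper72.QT.Ratio

/-!
# QT-09: the cone over a conic (second alternative of `Dicho`)

PROOF. Let `K = KK k`, `i : Fin N → k` vectors are mapped to `K` with `algebraMap` (`phi_algebraMap`). Let `w = w0 + t w1` (`t = tt k`), `v = stereo T x v0 w = q(w) v0 - 2 b(v0, w) w`
(`stereo_l`, `stereo_q`), `y = x + s v` (`s = ss k`). Here `b(v0, w) = t b(v0, w1)`. `phi T y y y y = 0` by `phi_line`: `f(x) = l_x(v) = q_x(v) = 0`, and `c_x(v) = f(v) = 0`, because they are the images of polynomials in `t`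
(do the computation of `v` over `k[X]`, `v' = stereo T x v0 (w0 + X w1)`, then map `X ↦ t`) which vanish at all `τ` in `k` by `hB` applied to `stereo T x v0 (w0 + τ w1)` (`k` is infinite, `Polynomial.funext`).
`y = x + s q(w) v0 - 2 s b(v0,w) w0 - 2 s b(v0,w) t w1`. By `exists_dual` for `![x, v0, w0, w1]` there are functionals with values `1`, `s q(w)`, `- 2 s t β`, `-2 s t² β` (`β = b(v0,w1) ≠ 0`) on `y`; some
`y_i ≠ 0`; `ratio_mem`: `t` (ratio of the last two) and `- 2 s t β` are in the field, so also `s`; `gen_top`.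
-/

set_option autoImplicit false

namespace Pool.Agent.Helper72.QT

open Polynomial

variable {k : Type*} [Field k] [IsAlgClosed k] {N : ℕ} {T : Ten k N}

private theorem stereo_map {R S : Type*} [CommRing R] [Algebra k R] [CommRing S] [Algebra k S]
    (T : Ten k N) (g : R →ₐ[k] S) (x u w : Fin N → R) :
    (fun i => g (stereo T x u w i)) =
      stereo T (fun i => g (x i)) (fun i => g (u i)) (fun i => g (w i)) := by
  funext i
  simp only [stereo, phi_map, Pi.sub_apply, Pi.smul_apply, smul_eq_mul, map_sub, map_mul,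
    map_ofNat]

private theorem stereo_aeval (T : Ten k N) (x v0 w0 w1 : Fin N → k) {S : Type*} [CommRing S]
    [Algebra k S] (τ : S) {vP : Fin N → k[X]} (hvP : vP = stereo T (fun i => C (x i))
      (fun i => C (v0 i)) (fun i => C (w0 i) + X * C (w1 i))) :
    (fun i => aeval τ (vP i)) = stereo T (fun i => algebraMap k S (x i))
      (fun i => algebraMap k S (v0 i))
      (fun i => algebraMap k S (w0 i) + τ * algebraMap k S (w1 i)) := by
  rw [hvP, stereo_map T (aeval τ : k[X] →ₐ[k] S)]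
  simp only [map_add, map_mul, aeval_C, aeval_X]

private theorem poly_vanish (hT : SymT T) (x v0 w0 w1 : Fin N → k) (hv0 : InW T x v0)
    (l0 : phi T x x x w0 = 0) (l1 : phi T x x x w1 = 0)
    (hB : ∀ v, InW T x v → phi T x v v v = 0 ∧ phi T v v v v = 0)
    {S : Type*} [CommRing S] [Algebra k S] (t : S) {v : Fin N → S}
    (hv : v = stereo T (fun i => algebraMap k S (x i)) (fun i => algebraMap k S (v0 i))
      (fun i => algebraMap k S (w0 i) + t * algebraMap k S (w1 i))) :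
    phi T (fun i => algebraMap k S (x i)) v v v = 0 ∧ phi T v v v v = 0 := by
  obtain ⟨vP, hvP⟩ : ∃ vP : Fin N → k[X], vP = stereo T (fun i => C (x i)) (fun i => C (v0 i))
      (fun i => C (w0 i) + X * C (w1 i)) := ⟨_, rfl⟩
  have hk : ∀ τ : k, aeval τ (phi T (fun i => C (x i)) vP vP vP) = 0 ∧
      aeval τ (phi T vP vP vP vP) = 0 := by
    intro τ
    obtain ⟨u, hu⟩ : ∃ u : Fin N → k, u = stereo T x v0 (w0 + τ • w1) := ⟨_, rfl⟩
    have h1 : (fun i => aeval τ (vP i)) = u := by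
      rw [stereo_aeval T x v0 w0 w1 τ hvP, hu]
      rfl
    have h2 : (fun i => aeval τ (C (x i) : k[X])) = x := by
      funext i
      rw [aeval_C]
      rfl
    have h3 : InW T x u := by
      refine ⟨hv0.f, ?_, ?_⟩
      · rw [hu]
        apply stereo_l hv0.l
        rw [phi_add4, phi_smul4, l0, l1]
        ring
      · rw [hu]
        exact stereo_q hT hv0.q
    obtain ⟨h4, h5⟩ := hB u h3
    constructor
    · rw [← phi_map, h1, h2, h4]
    · rw [← phi_map, h1, h5]
  have hinf : Infinite k := inferInstance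
  have hz1 : phi T (fun i => C (x i)) vP vP vP = 0 := by
    apply Polynomial.funext
    intro τ
    rw [← coe_aeval_eq_eval, (hk τ).1, map_zero]
  have hz2 : phi T vP vP vP vP = 0 := by
    apply Polynomial.funext
    intro τ
    rw [← coe_aeval_eq_eval, (hk τ).2, map_zero]
  have h1 : (fun i => aeval t (vP i)) = v := by
    rw [stereo_aeval T x v0 w0 w1 t hvP, hv]
  have h2 : (fun i => aeval t (C (x i) : k[X])) = fun i => algebraMap k S (x i) := by
    funext i
    rw [aeval_C]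
  constructor
  · rw [← h1, ← h2, phi_map T (aeval t : k[X] →ₐ[k] S), hz1, map_zero]
  · rw [← h1, phi_map T (aeval t : k[X] →ₐ[k] S), hz2, map_zero]

theorem surfB (h2 : (2 : k) ≠ 0) (hT : SymT T) (x v0 w0 w1 : Fin N → k)
    (li : LinearIndependent k ![x, v0, w0, w1]) (hv0 : InW T x v0)
    (l0 : phi T x x x w0 = 0) (l1 : phi T x x x w1 = 0) (b0 : phi T x x v0 w0 = 0)
    (b1 : phi T x x v0 w1 ≠ 0)
    (hB : ∀ v, InW T x v → phi T x v v v = 0 ∧ phi T v v v v = 0) : ContRat T := by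
  classical
  obtain ⟨t, ht⟩ : ∃ t : KK k, t = tt k := ⟨_, rfl⟩
  obtain ⟨s, hs⟩ : ∃ s : KK k, s = ss k := ⟨_, rfl⟩
  have ht0 : t ≠ 0 := by
    rw [ht, tt]
    exact (map_ne_zero_iff _ (algebraMap (RatFunc k) (KK k)).injective).mpr RatFunc.X_ne_zero
  have hs0 : s ≠ 0 := by
    rw [hs, ss]
    exact RatFunc.X_ne_zero
  have h2K : (2 : KK k) ≠ 0 := by
    have h := (map_ne_zero_iff _ (algebraMap k (KK k)).injective).mpr h2
    rwa [map_ofNat] at h
  obtain ⟨β, hβ⟩ : ∃ β : KK k, β = algebraMap k (KK k) (phi T x x v0 w1) := ⟨_, rfl⟩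
  have hβ0 : β ≠ 0 := by
    rw [hβ]
    exact (map_ne_zero_iff _ (algebraMap k (KK k)).injective).mpr b1
  obtain ⟨xK, hxK⟩ : ∃ xK : Fin N → KK k, xK = fun i => algebraMap k (KK k) (x i) := ⟨_, rfl⟩
  obtain ⟨vK, hvK⟩ : ∃ vK : Fin N → KK k, vK = fun i => algebraMap k (KK k) (v0 i) := ⟨_, rfl⟩
  obtain ⟨wK, hwK⟩ : ∃ wK : Fin N → KK k, wK =
      fun i => algebraMap k (KK k) (w0 i) + t * algebraMap k (KK k) (w1 i) := ⟨_, rfl⟩
  have hwK' : wK = (fun i => algebraMap k (KK k) (w0 i)) +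
      t • (fun i => algebraMap k (KK k) (w1 i)) := by
    rw [hwK]
    rfl
  obtain ⟨v, hv⟩ : ∃ v : Fin N → KK k, v = stereo T xK vK wK := ⟨_, rfl⟩
  obtain ⟨hv3, hv4⟩ := poly_vanish hT x v0 w0 w1 hv0 l0 l1 hB t (v := v)
    (by rw [hv, hxK, hvK, hwK])
  rw [← hxK] at hv3
  have hx4 : phi T xK xK xK xK = 0 := by
    rw [hxK, phi_algebraMap, hv0.f, map_zero]
  have hx3v : phi T xK xK xK vK = 0 := by
    rw [hxK, hvK, phi_algebraMap, hv0.l, map_zero]
  have hx2v : phi T xK xK vK vK = 0 := by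
    rw [hxK, hvK, phi_algebraMap, hv0.q, map_zero]
  have hx3w : phi T xK xK xK wK = 0 := by
    rw [hwK', phi_add4, phi_smul4, hxK, phi_algebraMap, phi_algebraMap, l0, l1, map_zero]
    ring
  have hb : phi T xK xK vK wK = t * β := by
    rw [hwK', phi_add4, phi_smul4, hxK, hvK, phi_algebraMap, phi_algebraMap, b0, map_zero,
      zero_add, hβ]
  obtain ⟨Q, hQ⟩ : ∃ Q : KK k, Q = phi T xK xK wK wK := ⟨_, rfl⟩
  obtain ⟨c, hc⟩ : ∃ c : Fin 4 → KK k, c = ![1, s * Q, -(2 * s * t * β), -(2 * s * t ^ 2 * β)] :=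
    ⟨_, rfl⟩
  obtain ⟨y, hy⟩ : ∃ y : Fin N → KK k, ∀ j, y j = ∑ q, c q *
      algebraMap k (KK k) ((![x, v0, w0, w1] : Fin 4 → Fin N → k) q j) := ⟨_, fun _ => rfl⟩
  have hyv : y = xK + s • v := by
    funext j
    rw [hy j, Fin.sum_univ_four, hc]
    simp only [Matrix.cons_val_zero, Matrix.cons_val_one, Matrix.cons_val_two,
      Matrix.cons_val_three, Matrix.head_cons, Matrix.tail_cons, Matrix.cons_val]
    rw [Pi.add_apply, Pi.smul_apply, smul_eq_mul, hv]
    unfold stereo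
    rw [Pi.sub_apply, Pi.smul_apply, Pi.smul_apply, smul_eq_mul, smul_eq_mul, hb, ← hQ, hxK, hvK,
      hwK]
    ring
  have hy0 : phi T y y y y = 0 := by
    rw [hyv, phi_line hT, hx4, hv3, hv4]
    have e1 : phi T xK xK xK v = 0 := by
      rw [hv]
      exact stereo_l hx3v hx3w
    have e2 : phi T xK xK v v = 0 := by
      rw [hv]
      exact stereo_q hT hx2v
    rw [e1, e2]
    ring
  obtain ⟨a, ha⟩ := exists_dual ![x, v0, w0, w1] li
  have ha' : ∀ p, ∑ j, algebraMap k (KK k) (a p j) * y j = c p := by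
    intro p
    rw [← ha c p]
    exact Finset.sum_congr rfl fun j _ => by rw [hy j]
  have hc0 : c 0 = 1 := by
    rw [hc]
    rfl
  have hc2 : c 2 = -(2 * s * t * β) := by
    rw [hc]
    rfl
  have hc3 : c 3 = -(2 * s * t ^ 2 * β) := by
    rw [hc]
    rfl
  have hyi : ∃ i, y i ≠ 0 := by
    by_contra hcon
    push Not at hcon
    have h1 := ha' 0
    rw [hc0, Finset.sum_eq_zero (fun j _ => by rw [hcon j, mul_zero])] at h1
    exact zero_ne_one h1
  obtain ⟨i, hi⟩ := hyi
  refine ⟨y, hy0, i, hi, ?_⟩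
  obtain ⟨L, hL⟩ : ∃ L : IntermediateField k (KK k),
      L = IntermediateField.adjoin k (Set.range fun j => y j / y i) := ⟨_, rfl⟩
  rw [← hL]
  have htL : t ∈ L := by
    have h1 := ratio_mem y i hi (a 3) (a 2)
    rw [ha' 3, ha' 2, hc2, hc3, ← hL] at h1
    have e : -(2 * s * t ^ 2 * β) / -(2 * s * t * β) = t := by
      have h3 : -(2 * s * t * β) ≠ 0 :=
        neg_ne_zero.mpr (mul_ne_zero (mul_ne_zero (mul_ne_zero h2K hs0) ht0) hβ0)
      rw [div_eq_iff h3]
      ring
    rwa [e] at h1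
  have hsL : s ∈ L := by
    have h1 := ratio_mem y i hi (a 2) (a 0)
    rw [ha' 2, ha' 0, hc2, hc0, div_one, ← hL] at h1
    have h2' : (2 : KK k) ∈ L := by
      have := L.algebraMap_mem (2 : k)
      rwa [map_ofNat] at this
    have hβL : β ∈ L := by
      rw [hβ]
      exact L.algebraMap_mem _
    have h3 : -(2 * t * β) ∈ L := L.neg_mem (L.mul_mem (L.mul_mem h2' htL) hβL)
    have h4 := L.div_mem h1 h3
    have h5 : -(2 * t * β) ≠ 0 :=
      neg_ne_zero.mpr (mul_ne_zero (mul_ne_zero h2K ht0) hβ0)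
    have e : -(2 * s * t * β) / -(2 * t * β) = s := by
      rw [div_eq_iff h5]
      ring
    rwa [e] at h4
  rw [hs] at hsL
  rw [ht] at htL
  exact gen_top L hsL htL

end Pool.Agent.Helper72.QT
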