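import Pool.Agent.Helper72.QT.Basic

/-!
# QT-20: transcendence degree at most one

PROOF. If every `z j` is algebraic over `k` then it is in `k` (`k` is algebraically closed: `IsAlgClosed.algebraMap_surjective_of_isIntegral`-type lemma, or minimal polynomial has a root), first alternative. Otherwise choose `j` with `z j` transcendental over `k`.
For every `l`, `z l` is algebraic over `F = IntermediateField.adjoin k {z j}`, because `![z j, z l]` is not algebraically independent (pair version: `AlgebraicIndependent` of `Option`/`Fin.cons`: independent iff `z j` is transcendental over `k` and `z l` is transcendental over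
`Algebra.adjoin k {z j}`; look for `algebraicIndependent_fin_succ`-type lemmas, `AlgebraicIndependent.option_iff_transcendental`, `AlgebraicIndependent.iff_transcendental_adjoin_image`). Let `E` be the set of all elements of `K` algebraic over `F`
(`(algebraicClosure F K).restrictScalars k`). If `tt k ∉ E` then `tt k` is transcendental over `E` (otherwise algebraic over `E`, so over `F`, so in `E`): second alternative.
If `tt k ∈ E`: `tt k` is algebraic over `k(z j)` and transcendental over `k`, so (exchange: `![z j, tt k]` is not algebraically independent, `tt k` is transcendental over `k`) `z j` is algebraic over `k(tt k)`, so over `RatFunc k`, so `z j` is in the image of `RatFunc k`: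
`RatFunc.transcendental_of_ne_C`. Then `F` is contained in the image of `RatFunc k`, every `z l` is algebraic over `F`, so over `RatFunc k`, so `z l` is in the image of `RatFunc k`: first alternative.
-/

set_option autoImplicit false

namespace Pool.Agent.Helper72.QT

open Polynomial
open scoped IntermediateField.algebraAdjoinAdjoin

variable {k : Type*} [Field k]

private theorem ta_image {K : Type*} (a b : K) :
    (![a, b] '' ({(1 : Fin 2)}ᶜ : Set (Fin 2))) = {a} := by
  ext x
  constructor
  · rintro ⟨i, hi, rfl⟩
    fin_cases i
    · rfl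
    · exact absurd rfl hi
  · rintro rfl
    exact ⟨0, by simp, rfl⟩

private theorem ta_pair {K : Type*} [Field K] [Algebra k K] (a b : K) :
    AlgebraicIndependent k ![a, b] ↔
      Transcendental k a ∧ Transcendental (Algebra.adjoin k {a}) b := by
  rw [AlgebraicIndependent.iff_transcendental_adjoin_image (1 : Fin 2), ta_image]
  refine and_congr ?_ Iff.rfl
  let u : Unique {j : Fin 2 // j ≠ 1} :=
    { default := ⟨0, by decide⟩
      uniq := by
        rintro ⟨j, hj⟩
        fin_cases j
        · rfl
        · exact absurd rfl hj }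
  rw [algebraicIndependent_unique_type_iff (ι := {j : Fin 2 // j ≠ 1})]
  rfl

private theorem ta_swap {K : Type*} [Field K] [Algebra k K] {a b : K}
    (h : AlgebraicIndependent k ![a, b]) : AlgebraicIndependent k ![b, a] := by
  have h1 := h.comp ![(1 : Fin 2), 0] (by decide)
  have h2 : ![a, b] ∘ ![(1 : Fin 2), 0] = ![b, a] := by
    funext i
    fin_cases i <;> rfl
  rwa [h2] at h1

private theorem ta_alg {K : Type*} [Field K] [Algebra k K] {a b : K} (ha : Transcendental k a)
    (h : ¬ AlgebraicIndependent k ![a, b]) : IsAlgebraic (Algebra.adjoin k {a}) b := by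
  by_contra h1
  exact h ((ta_pair a b).2 ⟨ha, h1⟩)

/-- exchange -/
private theorem ta_exch {K : Type*} [Field K] [Algebra k K] {a b : K} (hb : Transcendental k b)
    (h : IsAlgebraic (Algebra.adjoin k {a}) b) : IsAlgebraic (Algebra.adjoin k {b}) a := by
  refine ta_alg hb fun h1 => ?_
  exact ((ta_pair a b).1 (ta_swap h1)).2 h

private theorem ta_field {K : Type*} [Field K] [Algebra k K] (a b : K) :
    IsAlgebraic (Algebra.adjoin k {a}) b ↔ IsAlgebraic (IntermediateField.adjoin k {a}) b :=
  IsFractionRing.isAlgebraic_iff (Algebra.adjoin k {a}) (IntermediateField.adjoin k {a}) K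

/-- algebraic over a subring of the image of `L` -/
private theorem ta_over {K L : Type*} [Field K] [Field L] [Algebra k L] [Algebra L K] [Algebra k K]
    [IsScalarTower k L K] {c : L} {b : K}
    (h : IsAlgebraic (Algebra.adjoin k {algebraMap L K c}) b) : IsAlgebraic L b := by
  obtain ⟨p, hp, hpb⟩ := h
  have hle : ∀ x : Algebra.adjoin k {algebraMap L K c}, ∃ y : L, algebraMap L K y = x := by
    rintro ⟨x, hx⟩
    have h1 : Algebra.adjoin k {algebraMap L K c} ≤ (IsScalarTower.toAlgHom k L K).range :=
      Algebra.adjoin_le (by
        rintro _ rfl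
        exact ⟨c, rfl⟩)
    obtain ⟨y, hy⟩ := h1 hx
    exact ⟨y, hy⟩
  have hlift : p.map (algebraMap (Algebra.adjoin k {algebraMap L K c}) K) ∈
      Polynomial.lifts (algebraMap L K) := by
    rw [Polynomial.lifts_iff_coeff_lifts]
    intro n
    rw [Polynomial.coeff_map]
    obtain ⟨y, hy⟩ := hle (p.coeff n)
    exact ⟨y, hy⟩
  obtain ⟨q, hq⟩ := (Polynomial.mem_lifts _).1 hlift
  refine ⟨q, ?_, ?_⟩
  · rintro rfl
    rw [Polynomial.map_zero] at hq
    exact hp ((Polynomial.map_eq_zero_iff Subtype.val_injective).1 hq.symm)
  · rw [Polynomial.aeval_def, Polynomial.eval₂_eq_eval_map, hq, ← Polynomial.eval₂_eq_eval_map]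
    exact hpb

private theorem ta_alg_range [IsAlgClosed k] {K : Type*} [Field K] [Algebra k K] {x : K}
    (h : IsAlgebraic k x) : ∃ c : k, algebraMap k K c = x := by
  have h1 := h.isIntegral.mem_range_algebraMap_of_minpoly_splits (K := k)
    (IsAlgClosed.splits _)
  exact h1

private theorem ta_rat {x : KK k} (h : IsAlgebraic (RatFunc k) x) :
    ∃ c : RatFunc k, x = algebraMap (RatFunc k) (KK k) c := by
  by_contra h1
  refine RatFunc.transcendental_of_ne_C x ?_ h
  rintro ⟨c, rfl⟩
  exact h1 ⟨c, rfl⟩

private theorem ta_tt : Transcendental k (tt k) := by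
  intro h
  have h1 : IsAlgebraic k (RatFunc.X : RatFunc k) := by
    have h2 := (isAlgebraic_algebraMap_iff (R := k) (S := RatFunc k) (A := KK k)
      (algebraMap (RatFunc k) (KK k)).injective).1 h
    exact h2
  exact RatFunc.transcendental_X h1

variable [IsAlgClosed k]

theorem tr_alg {N : ℕ} (z : Fin N → KK k) (h : ∀ j l, ¬ AlgebraicIndependent k ![z j, z l]) :
    (∀ j, ∃ c : RatFunc k, z j = algebraMap (RatFunc k) (KK k) c) ∨
    ∃ E : IntermediateField k (KK k), (∀ j, z j ∈ E) ∧ Transcendental E (tt k) := by
  by_cases hall : ∀ j, IsAlgebraic k (z j)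
  · left
    intro j
    obtain ⟨c, hc⟩ := ta_alg_range (hall j)
    refine ⟨algebraMap k (RatFunc k) c, ?_⟩
    rw [← hc, ← IsScalarTower.algebraMap_apply]
  · obtain ⟨j₀, hj₀⟩ := not_forall.1 hall
    have htr : Transcendental k (z j₀) := hj₀
    have hl : ∀ l, IsAlgebraic (Algebra.adjoin k {z j₀}) (z l) := fun l => ta_alg htr (h j₀ l)
    by_cases ht : IsAlgebraic (Algebra.adjoin k {z j₀}) (tt k)
    · left
      have h1 := ta_exch ta_tt ht
      obtain ⟨c, hc⟩ := ta_rat (ta_over (L := RatFunc k) h1)
      intro l
      have h2 := hl l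
      rw [hc] at h2
      exact ta_rat (ta_over (L := RatFunc k) h2)
    · right
      let A := IntermediateField.adjoin k {z j₀}
      refine ⟨(algebraicClosure A (KK k)).restrictScalars k, fun j => ?_, fun h3 => ?_⟩
      · exact (mem_algebraicClosure_iff (F := A)).2 ((ta_field _ _).1 (hl j))
      · refine ht ((ta_field _ _).2 ?_)
        have h4 : IsAlgebraic (algebraicClosure A (KK k)) (tt k) := h3
        exact h4.restrictScalars A

end Pool.Agent.Helper72.QT
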