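import Pool.Agent.Helper72.QT.Basic
import Pool.Agent.Helper41.Eggert.Zero

/-!
# QT-16: a section of the conic bundle (Tsen)

PROOF. Let `n = 5 m`, unknowns `c (j, e)`, `j : Fin 4`, `e : Fin (n + 1)`: `4 (5 m + 1) = 20 m + 4` unknowns. `σ (i0.succAbove j) = ∑_e c(j,e) X^e`, `σ i0 = 0`. Let `R = MvPolynomial (Fin (4 * (5 * m + 1))) k` (`finProdFinEquiv`) and let `σ` be the generic section in
`R[X]^5`; `phi T x x x σ` has degree `≤ 3 m + n = 8 m`, `phi T x x σ σ` has degree `≤ 2 m + 2 n = 12 m` (`x` mapped to `R[X]`), so their coefficients give `(8 m + 1) + (12 m + 1) = 20 m + 2` polynomials in `R` which vanish at `0` (they are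
forms of degree one and two: put all unknowns `0`, then `σ = 0`). `Helper41.Eggert.exists_ne_zero_common_zero` gives a common zero `c ≠ 0`, and evaluating (`Polynomial.map` of `MvPolynomial.eval c`) gives `σ ≠ 0` over `k[X]` with both
expressions zero: all coefficients vanish. (The degree bounds also hold after the evaluation, so it is enough to consider the first `8 m + 1` and `12 m + 1` coefficients.)
`tsen`: divide by the largest power of `X` which divides all `σ i` (for instance choose `σ` such that the sum of the degrees, or the order, is minimal; or: `X^j` divides all entries, `j` maximal, exists because `σ ≠ 0`);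
`k[X]` is a domain, so the equations remain true.
-/

set_option autoImplicit false

namespace Pool.Agent.Helper72.QT

open Polynomial

variable {k : Type*} [Field k] [IsAlgClosed k] {T : Ten k 5}

/-- the section with coefficients `c` -/
private noncomputable def sec {A : Type*} [CommRing A] (m : ℕ) (i0 : Fin 5)
    (c : Fin (4 * (5 * m + 1)) → A) : Fin 5 → A[X] :=
  Fin.insertNth (α := fun _ => A[X]) i0 0
    (fun j : Fin 4 => ∑ e : Fin (5 * m + 1), C (c (finProdFinEquiv (j, e))) * X ^ (e : ℕ))

private theorem sec_i0 {A : Type*} [CommRing A] (m : ℕ) (i0 : Fin 5)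
    (c : Fin (4 * (5 * m + 1)) → A) : sec m i0 c i0 = 0 := by
  unfold sec
  exact Fin.insertNth_apply_same (α := fun _ => A[X]) i0 _ _

private theorem sec_above {A : Type*} [CommRing A] (m : ℕ) (i0 : Fin 5)
    (c : Fin (4 * (5 * m + 1)) → A) (j : Fin 4) : sec m i0 c (i0.succAbove j) =
      ∑ e : Fin (5 * m + 1), C (c (finProdFinEquiv (j, e))) * X ^ (e : ℕ) := by
  unfold sec
  exact Fin.insertNth_apply_succAbove (α := fun _ => A[X]) i0 _ _ j

private theorem sec_coeff {A : Type*} [CommRing A] (m : ℕ) (i0 : Fin 5)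
    (c : Fin (4 * (5 * m + 1)) → A) (j : Fin 4) (e : Fin (5 * m + 1)) :
    (sec m i0 c (i0.succAbove j)).coeff e = c (finProdFinEquiv (j, e)) := by
  rw [sec_above, finsetSum_coeff, Finset.sum_eq_single e]
  · rw [coeff_C_mul, coeff_X_pow, if_pos rfl, mul_one]
  · intro e' _ he
    rw [coeff_C_mul, coeff_X_pow, if_neg (fun h => he (Fin.ext h.symm)), mul_zero]
  · intro h
    exact absurd (Finset.mem_univ _) h

private theorem sec_map {A B : Type*} [CommRing A] [CommRing B] (f : A →+* B) (m : ℕ) (i0 : Fin 5)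
    (c : Fin (4 * (5 * m + 1)) → A) (i : Fin 5) :
    (sec m i0 c i).map f = sec m i0 (fun l => f (c l)) i := by
  rcases Fin.eq_self_or_eq_succAbove i0 i with h | ⟨j, rfl⟩
  · rw [h, sec_i0, sec_i0, Polynomial.map_zero]
  · rw [sec_above, sec_above, Polynomial.map_sum]
    refine Finset.sum_congr rfl fun e _ => ?_
    rw [Polynomial.map_mul, Polynomial.map_C, Polynomial.map_pow, Polynomial.map_X]

private theorem sec_deg {A : Type*} [CommRing A] (m : ℕ) (i0 : Fin 5)
    (c : Fin (4 * (5 * m + 1)) → A) (i : Fin 5) : (sec m i0 c i).natDegree ≤ 5 * m := by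
  rcases Fin.eq_self_or_eq_succAbove i0 i with h | ⟨j, rfl⟩
  · rw [h, sec_i0, natDegree_zero]
    exact Nat.zero_le _
  · rw [sec_above]
    refine natDegree_sum_le_of_forall_le _ _ fun e _ => ?_
    refine (natDegree_C_mul_X_pow_le _ _).trans ?_
    have := e.2
    omega

omit [IsAlgClosed k] in
private theorem phi_deg (T : Ten k 5) (x y z w : Fin 5 → k[X]) (a b c d : ℕ)
    (hx : ∀ i, (x i).natDegree ≤ a) (hy : ∀ i, (y i).natDegree ≤ b) (hz : ∀ i, (z i).natDegree ≤ c)
    (hw : ∀ i, (w i).natDegree ≤ d) : (phi T x y z w).natDegree ≤ a + b + c + d := by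
  unfold phi
  refine natDegree_sum_le_of_forall_le _ _ fun i _ => natDegree_sum_le_of_forall_le _ _ fun j _ =>
    natDegree_sum_le_of_forall_le _ _ fun l _ => natDegree_sum_le_of_forall_le _ _ fun n _ => ?_
  refine natDegree_mul_le_of_le (natDegree_mul_le_of_le (natDegree_mul_le_of_le ?_ (hy j)) (hz l)) (hw n)
  have h1 : (algebraMap k k[X] (T i j l n) * x i).natDegree ≤ 0 + a := by
    refine natDegree_mul_le_of_le ?_ (hx i)
    rw [Polynomial.algebraMap_apply, natDegree_C]
  rw [zero_add] at h1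
  exact h1

private theorem eq_zero_of_coeff {A : Type*} [CommRing A] {F : A[X]} {n : ℕ} (hF : F.natDegree ≤ n)
    (h : ∀ i < n + 1, F.coeff i = 0) : F = 0 := by
  ext i
  rw [coeff_zero]
  by_cases hi : i < n + 1
  · exact h i hi
  · exact coeff_eq_zero_of_natDegree_lt (by omega)

omit [IsAlgClosed k] in
private theorem evalF {n : ℕ} (c : Fin n → k) (F : (MvPolynomial (Fin n) k)[X]) (G : k[X])
    (h : Polynomial.mapAlgHom (MvPolynomial.aeval c : MvPolynomial (Fin n) k →ₐ[k] k) F = G)
    (i : ℕ) : MvPolynomial.eval c (F.coeff i) = G.coeff i := by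
  rw [← h, Polynomial.coe_mapAlgHom, Polynomial.coeff_map]
  rw [← MvPolynomial.coe_aeval_eq_eval]

theorem tsen_aux (x : Fin 5 → k[X]) (m : ℕ) (hm : ∀ i, (x i).natDegree ≤ m) (i0 : Fin 5) :
    ∃ σ : Fin 5 → k[X], σ ≠ 0 ∧ σ i0 = 0 ∧ phi T x x x σ = 0 ∧ phi T x x σ σ = 0 := by
  classical
  obtain ⟨xA, hxA⟩ : ∃ xA : Fin 5 → (MvPolynomial (Fin (4 * (5 * m + 1))) k)[X],
      xA = fun i => (x i).map (algebraMap k (MvPolynomial (Fin (4 * (5 * m + 1))) k)) := ⟨_, rfl⟩
  obtain ⟨sA, hsA⟩ : ∃ sA : Fin 5 → (MvPolynomial (Fin (4 * (5 * m + 1))) k)[X],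
      sA = sec m i0 MvPolynomial.X := ⟨_, rfl⟩
  -- evaluation
  have hgx : ∀ (c : Fin (4 * (5 * m + 1)) → k) (i : Fin 5),
      Polynomial.mapAlgHom (MvPolynomial.aeval c : _ →ₐ[k] k) (xA i) = x i := by
    intro c i
    rw [hxA, Polynomial.coe_mapAlgHom, Polynomial.map_map]
    have h1 : ((MvPolynomial.aeval c : MvPolynomial (Fin (4 * (5 * m + 1))) k →ₐ[k] k) :
        MvPolynomial (Fin (4 * (5 * m + 1))) k →+* k).comp
        (algebraMap k (MvPolynomial (Fin (4 * (5 * m + 1))) k)) = RingHom.id k := by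
      ext a
      simp
    rw [h1, Polynomial.map_id]
  have hgs : ∀ (c : Fin (4 * (5 * m + 1)) → k) (i : Fin 5),
      Polynomial.mapAlgHom (MvPolynomial.aeval c : _ →ₐ[k] k) (sA i) = sec m i0 c i := by
    intro c i
    rw [hsA, Polynomial.coe_mapAlgHom, sec_map]
    congr 1
    funext l
    exact MvPolynomial.aeval_X c l
  have hF1 : ∀ (c : Fin (4 * (5 * m + 1)) → k) (i : ℕ),
      MvPolynomial.eval c ((phi T xA xA xA sA).coeff i) = (phi T x x x (sec m i0 c)).coeff i := by
    intro c i
    refine evalF c _ _ ?_ i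
    have h1 := phi_map T (Polynomial.mapAlgHom (MvPolynomial.aeval c :
      MvPolynomial (Fin (4 * (5 * m + 1))) k →ₐ[k] k)) xA xA xA sA
    have h2 := funext (hgx c)
    have h3 := funext (hgs c)
    rw [← h2, ← h3]
    exact h1.symm
  have hF2 : ∀ (c : Fin (4 * (5 * m + 1)) → k) (i : ℕ),
      MvPolynomial.eval c ((phi T xA xA sA sA).coeff i) =
        (phi T x x (sec m i0 c) (sec m i0 c)).coeff i := by
    intro c i
    refine evalF c _ _ ?_ i
    have h1 := phi_map T (Polynomial.mapAlgHom (MvPolynomial.aeval c :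
      MvPolynomial (Fin (4 * (5 * m + 1))) k →ₐ[k] k)) xA xA sA sA
    have h2 := funext (hgx c)
    have h3 := funext (hgs c)
    rw [← h2, ← h3]
    exact h1.symm
  have hsec0 : sec m i0 (0 : Fin (4 * (5 * m + 1)) → k) = 0 := by
    funext i
    rcases Fin.eq_self_or_eq_succAbove i0 i with h | ⟨j, rfl⟩
    · rw [h, sec_i0]
      rfl
    · rw [sec_above]
      simp
  obtain ⟨c, hc0, hc⟩ := Helper41.Eggert.exists_ne_zero_common_zero
    ((Finset.range (8 * m + 1)).image (phi T xA xA xA sA).coeff ∪
      (Finset.range (12 * m + 1)).image (phi T xA xA sA sA).coeff) (by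
      refine lt_of_le_of_lt (Finset.card_union_le _ _) ?_
      have h1 : ((Finset.range (8 * m + 1)).image (phi T xA xA xA sA).coeff).card ≤ 8 * m + 1 :=
        Finset.card_image_le.trans (by rw [Finset.card_range])
      have h2 : ((Finset.range (12 * m + 1)).image (phi T xA xA sA sA).coeff).card ≤ 12 * m + 1 :=
        Finset.card_image_le.trans (by rw [Finset.card_range])
      omega) (by
      intro f hf
      rcases Finset.mem_union.1 hf with h | h
      · obtain ⟨i, _, rfl⟩ := Finset.mem_image.1 h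
        rw [hF1, hsec0, phi_zero4, coeff_zero]
      · obtain ⟨i, _, rfl⟩ := Finset.mem_image.1 h
        rw [hF2, hsec0, phi_zero4, coeff_zero])
  refine ⟨sec m i0 c, ?_, sec_i0 m i0 c, ?_, ?_⟩
  · intro h
    apply hc0
    funext l
    obtain ⟨⟨j, e⟩, rfl⟩ := finProdFinEquiv.surjective l
    rw [← sec_coeff m i0 c j e, h]
    simp
  · refine eq_zero_of_coeff (n := 8 * m) ?_ ?_
    · refine (phi_deg T x x x (sec m i0 c) m m m (5 * m) hm hm hm (sec_deg m i0 c)).trans ?_
      omega
    · intro i hi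
      rw [← hF1]
      exact hc _ (Finset.mem_union_left _ (Finset.mem_image_of_mem _ (Finset.mem_range.2 hi)))
  · refine eq_zero_of_coeff (n := 12 * m) ?_ ?_
    · refine (phi_deg T x x (sec m i0 c) (sec m i0 c) m m (5 * m) (5 * m) hm hm (sec_deg m i0 c)
        (sec_deg m i0 c)).trans ?_
      omega
    · intro i hi
      rw [← hF2]
      exact hc _ (Finset.mem_union_right _ (Finset.mem_image_of_mem _ (Finset.mem_range.2 hi)))

theorem tsen (x : Fin 5 → k[X]) (i0 : Fin 5) :
    ∃ σ : Fin 5 → k[X], (∃ i, (σ i).eval 0 ≠ 0) ∧ σ i0 = 0 ∧ phi T x x x σ = 0 ∧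
      phi T x x σ σ = 0 := by
  obtain ⟨σ, h0, h1, h2, h3⟩ := tsen_aux (T := T) x (Finset.univ.sup fun i => (x i).natDegree)
    (fun i => Finset.le_sup (f := fun i => (x i).natDegree) (Finset.mem_univ i)) i0
  have key : ∀ (n : ℕ) (σ : Fin 5 → k[X]), ∑ i, (σ i).natDegree ≤ n → σ ≠ 0 → σ i0 = 0 →
      phi T x x x σ = 0 → phi T x x σ σ = 0 →
      ∃ σ : Fin 5 → k[X], (∃ i, (σ i).eval 0 ≠ 0) ∧ σ i0 = 0 ∧ phi T x x x σ = 0 ∧
        phi T x x σ σ = 0 := by
    intro n
    induction n with
    | zero =>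
      intro σ hn h0 h1 h2 h3
      refine ⟨σ, ?_, h1, h2, h3⟩
      by_contra hcon
      push Not at hcon
      apply h0
      funext i
      have h4 : (σ i).natDegree = 0 := by
        have := Finset.single_le_sum (f := fun i => (σ i).natDegree) (fun _ _ => Nat.zero_le _)
          (Finset.mem_univ i)
        omega
      obtain ⟨a, ha⟩ := natDegree_eq_zero.1 h4
      have h5 := hcon i
      rw [← ha, eval_C] at h5
      rw [← ha, h5, C_0]
      rfl
    | succ n ih =>
      intro σ hn h0 h1 h2 h3
      by_cases h4 : ∃ i, (σ i).eval 0 ≠ 0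
      · exact ⟨σ, h4, h1, h2, h3⟩
      push Not at h4
      have h5 : ∀ i, ∃ q, σ i = X * q := by
        intro i
        exact X_dvd_iff.2 (by rw [coeff_zero_eq_eval_zero]; exact h4 i)
      choose τ hτ using h5
      have h6 : σ = (X : k[X]) • τ := by
        funext i
        rw [Pi.smul_apply, smul_eq_mul]
        exact hτ i
      have hX : (X : k[X]) ≠ 0 := X_ne_zero
      have h7 : τ ≠ 0 := by
        rintro rfl
        exact h0 (by rw [h6, smul_zero])
      apply ih τ
      · have h8 : ∀ i, (τ i).natDegree ≤ (σ i).natDegree := by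
          intro i
          by_cases h9 : τ i = 0
          · rw [h9, natDegree_zero]
            exact Nat.zero_le _
          · rw [hτ i, natDegree_X_mul h9]
            omega
        obtain ⟨i, hi⟩ : ∃ i, τ i ≠ 0 := by
          by_contra hcon
          push Not at hcon
          exact h7 (funext hcon)
        have h9 : ∑ i, (τ i).natDegree < ∑ i, (σ i).natDegree := by
          refine Finset.sum_lt_sum (fun i _ => h8 i) ⟨i, Finset.mem_univ i, ?_⟩
          rw [hτ i, natDegree_X_mul hi]
          omega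
        omega
      · exact h7
      · have h8 : X * τ i0 = 0 := by rw [← hτ, h1]
        rcases mul_eq_zero.1 h8 with h9 | h9
        · exact absurd h9 hX
        · exact h9
      · rw [h6, phi_smul4] at h2
        rcases mul_eq_zero.1 h2 with h9 | h9
        · exact absurd h9 hX
        · exact h9
      · rw [h6, phi_smul3, phi_smul4] at h3
        rcases mul_eq_zero.1 h3 with h9 | h9
        · exact absurd h9 hX
        · rcases mul_eq_zero.1 h9 with h9 | h9
          · exact absurd h9 hX
          · exact h9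
  exact key _ σ le_rfl h0 h1 h2 h3

end Pool.Agent.Helper72.QT
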