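import Pool.Agent.Helper72.QT.Polar
import Pool.Agent.Helper72.QT.Lift
import Pool.Agent.Helper72.QT.NoLift
import Pool.Agent.Helper72.QT.Dicho
import Pool.Agent.Helper72.QT.Frame
import Pool.Agent.Helper72.QT.SurfB
import Pool.Agent.Helper72.QT.SurfA
import Pool.Agent.Helper72.QT.RatUni
import Pool.Agent.Helper72.QT.CurveRaw
import Pool.Agent.Helper72.QT.Reduce
import Pool.Agent.Helper72.QT.Tsen
import Pool.Agent.Helper72.QT.Indep
import Pool.Agent.Helper72.QT.TrAlg
import Pool.Agent.Helper72.QT.CaseConst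
import Pool.Agent.Helper72.QT.CaseTr

/-!
# QT: assembly
-/

set_option autoImplicit false

namespace Pool.Agent.Helper72.QT

open Polynomial

variable {k : Type*} [Field k] [IsAlgClosed k] {N : ℕ} {T : Ten k N}

/-- Step 0 -/
theorem nd_point (h2 : (2 : k) ≠ 0) (hT : SymT T) (hS : Smo T) (hN : 3 ≤ N) :
    ∃ x : Fin N → k, x ≠ 0 ∧ phi T x x x x = 0 ∧ ND T x := by
  by_contra hcon
  push Not at hcon
  obtain ⟨x, r, hx, hr, _, hr0, h⟩ := exists_lift h2 hT hS hN hcon
  exact no_lift h2 hT hS x r hx hr hr0 h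

/-- the second alternative of `dicho` -/
theorem rat_of_B (h2 : (2 : k) ≠ 0) (hT : SymT T) (hS : Smo T) (hN : 5 ≤ N)
    (hB : ∀ x v : Fin N → k, ND T x → InW T x v → phi T x v v v = 0 ∧ phi T v v v v = 0) :
    ContRat T := by
  obtain ⟨x, hx0, hf, hx⟩ := nd_point h2 hT hS (by omega)
  obtain ⟨v0, hv0, hv0x⟩ := exists_iso hT (by omega) x hf
  obtain ⟨w0, l0, b0, q0⟩ := exists_w0 h2 hT hN x v0 hx
  obtain ⟨w1, l1, b1⟩ := exists_g hT x v0 hx hx0 hv0x
  refine surfB h2 hT x v0 w0 w1 ?_ hv0 l0 l1 b0 b1 (fun v hv => hB x v hx hv)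
  rw [Fintype.linearIndependent_iff]
  intro g hg
  simp only [Fin.sum_univ_four, Matrix.cons_val_zero, Matrix.cons_val_one,
    Matrix.cons_val_two, Matrix.cons_val_three, Matrix.head_cons, Matrix.tail_cons,
    Matrix.cons_val] at hg
  have hxv : phi T x x v0 x = 0 := by
    have := hv0.l
    simp only [phi_s12 hT, phi_s23 hT, phi_s34 hT] at this ⊢
    exact this
  have hxw : phi T x x w0 x = 0 := by
    have := l0
    simp only [phi_s12 hT, phi_s23 hT, phi_s34 hT] at this ⊢
    exact this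
  have hvw : phi T x x w0 v0 = 0 := by
    have := b0
    simp only [phi_s12 hT, phi_s23 hT, phi_s34 hT] at this ⊢
    exact this
  have h3 : g 3 = 0 := by
    have h := congrArg (fun w => phi T x x v0 w) hg
    simp only [phi_add4, phi_smul4, phi_zero4, hxv, hv0.q, b0, mul_zero, zero_add] at h
    exact (mul_eq_zero.1 h).resolve_right b1
  have h2' : g 2 = 0 := by
    have h := congrArg (fun w => phi T x x w0 w) hg
    simp only [phi_add4, phi_smul4, phi_zero4, hxw, hvw, h3, mul_zero, zero_add, zero_mul,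
      add_zero] at h
    exact (mul_eq_zero.1 h).resolve_right q0
  rw [h3, h2', zero_smul, zero_smul, add_zero, add_zero] at hg
  have h1 : g 1 = 0 := by
    by_contra hne
    apply hv0x (-(g 0) / g 1)
    rw [add_comm] at hg
    have := eq_neg_of_add_eq_zero_left hg
    rw [div_eq_inv_mul, mul_smul, neg_smul, ← this, smul_smul, inv_mul_cancel₀ hne, one_smul]
  have h0 : g 0 = 0 := by
    rw [h1, zero_smul, add_zero] at hg
    exact (smul_eq_zero.1 hg).resolve_right hx0
  intro i
  fin_cases i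
  · exact h0
  · exact h1
  · exact h2'
  · exact h3

/-- the isotropic direction is not `x` -/
theorem ne_smul_of_c {x v : Fin N → k} (h : InW T x v) (hc : phi T x v v v ≠ 0) (c : k) :
    v ≠ c • x := by
  rintro rfl
  apply hc
  rw [phi_smul2, phi_smul3, phi_smul4, h.f]
  ring

/-- the first alternative in dimension at least four -/
theorem rat_of_A (h2 : (2 : k) ≠ 0) (hT : SymT T) (hN : 6 ≤ N) (x v0 : Fin N → k)
    (hx : ND T x) (hv0 : InW T x v0) (hc : phi T x v0 v0 v0 ≠ 0) : ContRat T := by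
  have hv0x := ne_smul_of_c hv0 hc
  have hx0 : x ≠ 0 := by
    rintro rfl
    exact hc (phi_zero1 _ _ _ _)
  obtain ⟨w0, l0, b0, q0⟩ := exists_w0 h2 hT (by omega) x v0 hx
  obtain ⟨w1, l1, b1⟩ := exists_g hT x v0 hx hx0 hv0x
  obtain ⟨w2, l2, b2, hw2⟩ := exists_w2 (T := T) hN x v0 x v0 w0
  refine surfA h2 hT x v0 w0 w1 w2 ?_ hv0 l0 l1 l2 b0 b1 b2 q0 hc
  rw [Fintype.linearIndependent_iff]
  intro g hg
  simp only [Fin.sum_univ_five, Matrix.cons_val_zero, Matrix.cons_val_one,
    Matrix.cons_val_two, Matrix.cons_val_three, Matrix.head_cons, Matrix.tail_cons,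
    Matrix.cons_val_four, Matrix.cons_val] at hg
  have hxv : phi T x x v0 x = 0 := by
    have := hv0.l
    simp only [phi_s12 hT, phi_s23 hT, phi_s34 hT] at this ⊢
    exact this
  have hxw : phi T x x w0 x = 0 := by
    have := l0
    simp only [phi_s12 hT, phi_s23 hT, phi_s34 hT] at this ⊢
    exact this
  have hvw : phi T x x w0 v0 = 0 := by
    have := b0
    simp only [phi_s12 hT, phi_s23 hT, phi_s34 hT] at this ⊢
    exact this
  have h3 : g 3 = 0 := by
    have h := congrArg (fun w => phi T x x v0 w) hg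
    simp only [phi_add4, phi_smul4, phi_zero4, hxv, hv0.q, b0, b2, mul_zero, zero_add,
      add_zero] at h
    exact (mul_eq_zero.1 h).resolve_right b1
  have h4 : g 4 = 0 := by
    by_contra hne
    apply hw2
    rw [h3, zero_smul, add_zero] at hg
    have h5 := eq_neg_of_add_eq_zero_right hg
    have h6 : w2 = (g 4)⁻¹ • (-(g 0 • x + g 1 • v0 + g 2 • w0)) := by
      rw [← h5, smul_smul, inv_mul_cancel₀ hne, one_smul]
    rw [h6]
    apply Submodule.smul_mem
    apply Submodule.neg_mem
    apply Submodule.add_mem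
    · apply Submodule.add_mem
      · exact Submodule.smul_mem _ _ (Submodule.subset_span (by simp))
      · exact Submodule.smul_mem _ _ (Submodule.subset_span (by simp))
    · exact Submodule.smul_mem _ _ (Submodule.subset_span (by simp))
  have h2' : g 2 = 0 := by
    have h := congrArg (fun w => phi T x x w0 w) hg
    simp only [phi_add4, phi_smul4, phi_zero4, hxw, hvw, h3, h4, mul_zero, zero_add, zero_mul,
      add_zero] at h
    exact (mul_eq_zero.1 h).resolve_right q0
  simp only [h3, h4, h2', zero_smul, add_zero] at hg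
  have h1 : g 1 = 0 := by
    by_contra hne
    apply hv0x (-(g 0) / g 1)
    rw [add_comm] at hg
    have := eq_neg_of_add_eq_zero_left hg
    rw [div_eq_inv_mul, mul_smul, neg_smul, ← this, smul_smul, inv_mul_cancel₀ hne, one_smul]
  have h0 : g 0 = 0 := by
    rw [h1, zero_smul, add_zero] at hg
    exact (smul_eq_zero.1 hg).resolve_right hx0
  intro i
  fin_cases i
  · exact h0
  · exact h1
  · exact h2'
  · exact h3
  · exact h4

/-- the first alternative for quartic threefolds -/
theorem uni_of_A {T : Ten k 5} (h2 : (2 : k) ≠ 0) (hT : SymT T) (hS : Smo T) (x0 v0 : Fin 5 → k)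
    (hx : ND T x0) (hv0 : InW T x0 v0) (hc : phi T x0 v0 v0 v0 ≠ 0) : ContUni T := by
  have hx0 : x0 ≠ 0 := by
    rintro rfl
    exact hc (phi_zero1 _ _ _ _)
  obtain ⟨x', hf', hμ', hcon'⟩ := curve_raw h2 hT x0 hx0 hv0.f
  obtain ⟨x, m, hf, ⟨μ, hμ, hxμ⟩, hr, hm, hd, hl⟩ := reduce x0 hx0 x' hf' hμ' hcon'
  obtain ⟨i0, hi0⟩ : ∃ i0, x0 i0 ≠ 0 := by
    by_contra hcon
    push Not at hcon
    exact hx0 (funext hcon)
  obtain ⟨σ, ⟨i1, hσ1⟩, hσ0, hlσ, hqσ⟩ := tsen (T := T) x i0
  have h2X : (2 : k[X]) ≠ 0 := by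
    intro h
    apply h2
    have := congrArg (Polynomial.eval 0) h
    simpa using this
  -- the values at `0`
  have hev : ∀ y : Fin 5 → k[X], (fun i => Polynomial.aeval (0 : k) (y i)) =
      fun i => (y i).eval 0 := by
    intro y
    funext i
    rw [Polynomial.coe_aeval_eq_eval]
  have hxv : (fun i => (x i).eval 0) = μ • x0 := by
    funext i
    rw [hxμ, Pi.smul_apply, smul_eq_mul]
  set s0 : Fin 5 → k := fun i => (σ i).eval 0 with hs0
  have hls : phi T x0 x0 x0 s0 = 0 := by
    have h := phi_map T (Polynomial.aeval (0 : k)) x x x σ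
    rw [hlσ, map_zero, hev, hev, hxv, phi_smul1, phi_smul2, phi_smul3] at h
    simpa [hμ] using h
  have hqs : phi T x0 x0 s0 s0 = 0 := by
    have h := phi_map T (Polynomial.aeval (0 : k)) x x σ σ
    rw [hqσ, map_zero, hev, hev, hxv, phi_smul1, phi_smul2] at h
    simpa [hμ] using h
  have hsx : ∀ c : k, s0 ≠ c • x0 := by
    intro c hcon
    have h := congrFun hcon i0
    have h0 : s0 i0 = 0 := by
      rw [hs0]
      simp [hσ0]
    rw [h0, Pi.smul_apply, smul_eq_mul] at h
    have hc0 : c = 0 := (mul_eq_zero.1 h.symm).resolve_right hi0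
    rw [hc0, zero_smul] at hcon
    exact hσ1 (congrFun hcon i1)
  obtain ⟨w0, w1, l0, l1, hcw, hβ⟩ := frame h2 hT x0 v0 s0 hx0 hx hv0 hc ⟨hv0.f, hls, hqs⟩ hsx
  obtain ⟨p0, p1, p2, L0, L1, L2, q00, q01, q11, q12, q22, hβ', hcv⟩ :=
    pencil h2 hT x0 s0 w0 w1 μ hμ (hS x0 hx0) x σ hf hxμ (fun i => rfl) hlσ hqσ l0 l1 hcw hβ
  have h2F : (2 : RatFunc k) ≠ 0 := by
    have := (map_ne_zero (algebraMap k (RatFunc k))).2 h2
    rwa [map_ofNat] at this
  have h2K : (2 : KK k) ≠ 0 := by
    have := (map_ne_zero (algebraMap k (KK k))).2 h2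
    rwa [map_ofNat] at this
  have hxne : toR x ≠ 0 := by
    intro h
    obtain ⟨i, hi⟩ := hr 0
    have h1 := congrFun h i
    have h3 : x i = 0 := by
      apply (IsFractionRing.injective k[X] (RatFunc k))
      rw [map_zero]
      exact h1
    rw [h3] at hi
    simp at hi
  have li := indep h2F hT (toR x) p0 p1 p2 hxne L0 L1 L2 q00 q01 q11 q12 q22 hβ'
  set v : Fin 5 → KK k := toK p0 + ss k • toK p1 + ss k ^ 2 • toK p2 with hv
  have hfR : phi T (toR x) (toR x) (toR x) (toR x) = 0 := by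
    have := phi_algebraMap T (S := RatFunc k) x x x x
    rw [hf, map_zero] at this
    exact this
  have cast : ∀ a b c d : Fin 5 → RatFunc k, phi T (toK a) (toK b) (toK c) (toK d) =
      algebraMap (RatFunc k) (KK k) (phi T a b c d) := fun a b c d =>
    phi_algebraMap T a b c d
  have q01' : phi T (toR x) (toR x) p1 p0 = 0 := by rw [phi_s34 hT, q01]
  have q12' : phi T (toR x) (toR x) p2 p1 = 0 := by rw [phi_s34 hT, q12]
  have q02' : phi T (toR x) (toR x) p2 p0 = phi T (toR x) (toR x) p0 p2 := phi_s34 hT _ _ _ _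
  have hW : InW T (toK (toR x)) v := by
    refine ⟨?_, ?_, ?_⟩
    · rw [cast, hfR, map_zero]
    · rw [hv]
      simp only [phi_add4, phi_smul4, cast, L0, L1, L2, map_zero, mul_zero, add_zero]
    · rw [hv]
      have e1 := congrArg (algebraMap (RatFunc k) (KK k)) q11
      rw [map_add, map_mul, map_zero] at e1
      have e2 : (algebraMap (RatFunc k) (KK k)) 2 = 2 := map_ofNat _ 2
      rw [e2] at e1
      simp only [phi_add3, phi_add4, phi_smul3, phi_smul4, cast, q00, q01, q01', q12, q12', q22,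
        q02', map_zero, mul_zero, add_zero, zero_add]
      linear_combination (ss k) ^ 2 * e1
  have hy := phi_resid hT hW
  have hyl := phi_resid_l hT hW
  -- the residual point is not zero
  have hyne : ∃ i, resid T (toK (toR x)) v i ≠ 0 := by
    by_contra hcon
    push Not at hcon
    refine case_const h2 (toR x) p0 p1 p2 li v hv hcv 0 0 ?_
    rw [zero_smul]
    exact funext hcon
  obtain ⟨i, hi⟩ := hyne
  refine ⟨resid T (toK (toR x)) v, hy, i, ?_⟩
  by_contra hcon
  push Not at hcon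
  rcases tr_alg (fun j => resid T (toK (toR x)) v j / resid T (toK (toR x)) v i)
    (fun j l h => hcon j l hi h) with h | ⟨E, hE, ht⟩
  · choose z hz using h
    refine case_const h2 (toR x) p0 p1 p2 li v hv hcv z (resid T (toK (toR x)) v i) ?_
    funext j
    rw [Pi.smul_apply, smul_eq_mul, toK, ← hz, mul_div_cancel₀ _ hi]
  · exact case_tr h2 x (lam_dim hT hS x m hf hr hm hd hl) p0 p1 p2 li v hv hcv
      (fun n => lam x _ hyl i hi E hE ht n)

/-- the theorem for tensors -/
theorem main_tensor {N : ℕ} {T : Ten k N} (h2 : (2 : k) ≠ 0) (hT : SymT T) (hS : Smo T)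
    (hN : 5 ≤ N) : ContUni T ∧ (6 ≤ N → ContRat T) := by
  rcases dicho h2 hT with ⟨x, v, hx, hv, hc⟩ | hB
  · by_cases h6 : 6 ≤ N
    · have h := rat_of_A h2 hT h6 x v hx hv hc
      exact ⟨uni_of_rat h, fun _ => h⟩
    · obtain rfl : N = 5 := by omega
      exact ⟨uni_of_A h2 hT hS x v hx hv hc, fun h => absurd h h6⟩
  · have h := rat_of_B h2 hT hS hN hB
    exact ⟨uni_of_rat h, fun _ => h⟩

/-- transfer of a unirational surface along an isomorphism of fields -/
theorem transfer_uni {N : ℕ} {T : Ten k N} {K' : Type*} [Field K'] [Algebra k K']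
    (e : KK k ≃ₐ[k] K') (h : ContUni T) :
    ∃ y : Fin N → K', phi T y y y y = 0 ∧ ∃ i j l, y i ≠ 0 ∧
      AlgebraicIndependent k ![y j / y i, y l / y i] := by
  obtain ⟨y, hy, i, j, l, hi, hind⟩ := h
  refine ⟨fun a => e (y a), ?_, i, j, l, ?_, ?_⟩
  · have := phi_map T (e : KK k →ₐ[k] K') y y y y
    rw [hy, map_zero] at this
    exact this
  · exact (map_ne_zero e).2 hi
  · have h1 := hind.map' (f := (e : KK k →ₐ[k] K')) e.injective
    have h2 : (⇑(e : KK k →ₐ[k] K') ∘ ![y j / y i, y l / y i]) =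
        ![e (y j) / e (y i), e (y l) / e (y i)] := by
      funext a
      fin_cases a
      · exact map_div₀ e _ _
      · exact map_div₀ e _ _
    rwa [h2] at h1

/-- transfer of a rational surface along an isomorphism of fields -/
theorem transfer_rat {N : ℕ} {T : Ten k N} {K' : Type*} [Field K'] [Algebra k K']
    (e : KK k ≃ₐ[k] K') (h : ContRat T) :
    ∃ y : Fin N → K', phi T y y y y = 0 ∧ ∃ i, y i ≠ 0 ∧
      IntermediateField.adjoin k (Set.range fun j => y j / y i) = ⊤ := by
  obtain ⟨y, hy, i, hi, hgen⟩ := h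
  refine ⟨fun a => e (y a), ?_, i, ?_, ?_⟩
  · have := phi_map T (e : KK k →ₐ[k] K') y y y y
    rw [hy, map_zero] at this
    exact this
  · exact (map_ne_zero e).2 hi
  · have h1 := congrArg (IntermediateField.map (e : KK k →ₐ[k] K')) hgen
    rw [IntermediateField.adjoin_map] at h1
    have h2 : (⇑(e : KK k →ₐ[k] K') '' Set.range fun j => y j / y i) =
        Set.range fun j => e (y j) / e (y i) := by
      rw [← Set.range_comp]
      congr 1
      funext j
      exact map_div₀ e _ _
    rw [h2] at h1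
    rw [h1]
    apply top_unique
    intro z _
    exact ⟨e.symm z, IntermediateField.mem_top, e.apply_symm_apply z⟩

/-- smoothness in terms of the tensor -/
theorem smo_polT {N : ℕ} (h2 : (2 : k) ≠ 0) (h3 : (3 : k) ≠ 0) (F : MvPolynomial (Fin N) k)
    (hF : F.IsHomogeneous 4)
    (hS : ∀ x : Fin N → k, x ≠ 0 → MvPolynomial.eval x F = 0 →
      ∃ i, MvPolynomial.eval x (MvPolynomial.pderiv i F) ≠ 0) : Smo (polT F) := by
  intro x hx
  by_cases hf : MvPolynomial.eval x F = 0
  · obtain ⟨i, hi⟩ := hS x hx hf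
    rw [eval_pderiv_polT h2 h3 F hF] at hi
    exact ⟨Pi.single i 1, fun h => hi (by rw [h, mul_zero])⟩
  · refine ⟨x, fun h => hf ?_⟩
    have := aeval_polT h2 h3 F hF x
    rw [h] at this
    rw [← this]
    exact DFunLike.congr rfl rfl

end Pool.Agent.Helper72.QT
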