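import Pool.Agent.Helper72.QT.Basic

/-!
# QT-08: fields generated by ratios

PROOFS.
* `gen_top`: `L` contains `k`, `tt k`, so it contains the image of `RatFunc k` (every element of `RatFunc k` is a quotient of two polynomials in `X`, `RatFunc.num_div_denom`), then with `ss k = RatFunc.X` every element of
  `RatFunc (RatFunc k)`.
* `ratio_mem`: `(∑ a_j y_j) / (∑ b_j y_j) = (∑ a_j (y_j/y_i)) / (∑ b_j (y_j/y_i))`, and `L` contains all `y_j/y_i` and the constants.
* `exists_dual`: extend to a basis or `Module.Basis`/`LinearIndependent` dual functionals (`LinearIndependent.extend`, or a left inverse of the injective linear map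
  `c ↦ ∑ c_q u_q`, `LinearMap.exists_leftInverse_of_injective`), written in coordinates. Stated for the values of all combinations with coefficients in `K`.
-/

set_option autoImplicit false

namespace Pool.Agent.Helper72.QT

open Polynomial

variable {k : Type*} [Field k] {N : ℕ}

theorem gen_top (L : IntermediateField k (KK k)) (hs : ss k ∈ L) (ht : tt k ∈ L) : L = ⊤ := by
  have h1 : ∀ p : k[X], algebraMap (RatFunc k) (KK k) (algebraMap k[X] (RatFunc k) p) ∈ L := by
    intro p
    induction p using Polynomial.induction_on' with
    | add p q hp hq =>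
      rw [map_add, map_add]
      exact add_mem hp hq
    | monomial n a =>
      rw [← C_mul_X_pow_eq_monomial, map_mul, map_mul, map_pow, map_pow]
      refine mul_mem ?_ (pow_mem ?_ n)
      · have e1 : algebraMap (RatFunc k) (KK k) (algebraMap k[X] (RatFunc k) (C a)) =
            algebraMap k (KK k) a := by
          rw [IsScalarTower.algebraMap_apply k (RatFunc k) (KK k)]
          rfl
        rw [e1]
        exact L.algebraMap_mem a
      · have e1 : algebraMap (RatFunc k) (KK k) (algebraMap k[X] (RatFunc k) X) = tt k := by
          rw [RatFunc.algebraMap_X]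
          rfl
        rw [e1]
        exact ht
  have h2 : ∀ a : RatFunc k, algebraMap (RatFunc k) (KK k) a ∈ L := by
    intro a
    rw [← RatFunc.num_div_denom a, map_div₀]
    exact div_mem (h1 _) (h1 _)
  have h3 : ∀ p : (RatFunc k)[X], algebraMap (RatFunc k)[X] (KK k) p ∈ L := by
    intro p
    induction p using Polynomial.induction_on' with
    | add p q hp hq =>
      rw [map_add]
      exact add_mem hp hq
    | monomial n a =>
      rw [← C_mul_X_pow_eq_monomial, map_mul, map_pow]
      refine mul_mem ?_ (pow_mem ?_ n)
      · exact h2 a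
      · rw [RatFunc.algebraMap_X]
        exact hs
  rw [eq_top_iff]
  intro a _
  rw [← RatFunc.num_div_denom a]
  exact div_mem (h3 _) (h3 _)

theorem ratio_mem (y : Fin N → KK k) (i : Fin N) (hi : y i ≠ 0) (a b : Fin N → k) :
    (∑ j, algebraMap k (KK k) (a j) * y j) / (∑ j, algebraMap k (KK k) (b j) * y j) ∈
      IntermediateField.adjoin k (Set.range fun j => y j / y i) := by
  have h1 : ∀ a : Fin N → k, (∑ j, algebraMap k (KK k) (a j) * y j) =
      y i * ∑ j, algebraMap k (KK k) (a j) * (y j / y i) := by
    intro a
    rw [Finset.mul_sum]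
    refine Finset.sum_congr rfl fun j _ => ?_
    field_simp
  have h2 : ∀ a : Fin N → k, (∑ j, algebraMap k (KK k) (a j) * (y j / y i)) ∈
      IntermediateField.adjoin k (Set.range fun j => y j / y i) := by
    intro a
    refine sum_mem fun j _ => mul_mem (IntermediateField.algebraMap_mem _ _) ?_
    exact IntermediateField.subset_adjoin _ _ ⟨j, rfl⟩
  rw [h1 a, h1 b, mul_div_mul_left _ _ hi]
  exact div_mem (h2 a) (h2 b)

theorem exists_dual {r : ℕ} (u : Fin r → Fin N → k) (hu : LinearIndependent k u) :
    ∃ a : Fin r → Fin N → k, ∀ (c : Fin r → KK k) (p : Fin r),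
      ∑ j, algebraMap k (KK k) (a p j) * (∑ q, c q * algebraMap k (KK k) (u q j)) = c p := by
  classical
  have hinj : LinearMap.ker (Fintype.linearCombination k u) = ⊥ :=
    LinearMap.ker_eq_bot.2 (linearIndependent_iff_injective_fintypeLinearCombination.1 hu)
  obtain ⟨g, hg⟩ := LinearMap.exists_leftInverse_of_injective _ hinj
  refine ⟨fun p j => g (Pi.single j 1) p, fun c p => ?_⟩
  have h1 : ∀ q : Fin r, (∑ j, g (Pi.single j 1) p * u q j) = if p = q then 1 else 0 := by
    intro q
    have e1 : g (u q) = Pi.single q 1 := by
      have e2 := LinearMap.congr_fun hg (Pi.single q 1)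
      rw [LinearMap.comp_apply, LinearMap.id_apply, Fintype.linearCombination_apply_single,
        one_smul] at e2
      exact e2
    have e3 : u q = ∑ j, u q j • (Pi.single j (1 : k) : Fin N → k) := by
      funext i
      rw [Finset.sum_apply]
      simp [Pi.single_apply]
    have e4 : g (u q) p = ∑ j, u q j * g (Pi.single j 1) p := by
      conv_lhs => rw [e3]
      rw [map_sum, Finset.sum_apply]
      refine Finset.sum_congr rfl fun j _ => ?_
      rw [map_smul, Pi.smul_apply, smul_eq_mul]
    rw [e1, Pi.single_apply] at e4
    rw [e4]
    exact Finset.sum_congr rfl fun j _ => mul_comm _ _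
  calc ∑ j, algebraMap k (KK k) (g (Pi.single j 1) p) *
        (∑ q, c q * algebraMap k (KK k) (u q j))
      = ∑ j, ∑ q, c q * algebraMap k (KK k) (g (Pi.single j 1) p * u q j) := by
        refine Finset.sum_congr rfl fun j _ => ?_
        rw [Finset.mul_sum]
        refine Finset.sum_congr rfl fun q _ => ?_
        rw [map_mul]
        ring
    _ = ∑ q, c q * algebraMap k (KK k) (∑ j, g (Pi.single j 1) p * u q j) := by
        rw [Finset.sum_comm]
        refine Finset.sum_congr rfl fun q _ => ?_
        rw [map_sum, Finset.mul_sum]
    _ = ∑ q, c q * algebraMap k (KK k) (if p = q then 1 else 0) := by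
        refine Finset.sum_congr rfl fun q _ => ?_
        rw [h1 q]
    _ = c p := by
        rw [Finset.sum_eq_single p]
        · rw [if_pos rfl, map_one, mul_one]
        · intro q _ hq
          rw [if_neg (Ne.symm hq), map_zero, mul_zero]
        · intro hp
          exact absurd (Finset.mem_univ p) hp

end Pool.Agent.Helper72.QT
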