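import Pool.Agent.Helper72.QT.Defs

/-!
# QT: rules for the four-linear form
-/

set_option autoImplicit false

namespace Pool.Agent.Helper72.QT

open Polynomial

variable {k : Type*} [Field k] {N : ℕ} (T : Ten k N) {R : Type*} [CommRing R] [Algebra k R]

theorem phi_add1 (x x' y z w : Fin N → R) :
    phi T (x + x') y z w = phi T x y z w + phi T x' y z w := by
  simp only [phi, Pi.add_apply, mul_add, add_mul, Finset.sum_add_distrib]

theorem phi_add2 (x y y' z w : Fin N → R) :
    phi T x (y + y') z w = phi T x y z w + phi T x y' z w := by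
  simp only [phi, Pi.add_apply, mul_add, add_mul, Finset.sum_add_distrib]

theorem phi_add3 (x y z z' w : Fin N → R) :
    phi T x y (z + z') w = phi T x y z w + phi T x y z' w := by
  simp only [phi, Pi.add_apply, mul_add, add_mul, Finset.sum_add_distrib]

theorem phi_add4 (x y z w w' : Fin N → R) :
    phi T x y z (w + w') = phi T x y z w + phi T x y z w' := by
  simp only [phi, Pi.add_apply, mul_add, Finset.sum_add_distrib]

theorem phi_smul1 (r : R) (x y z w : Fin N → R) :
    phi T (r • x) y z w = r * phi T x y z w := by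
  simp only [phi, Pi.smul_apply, smul_eq_mul, Finset.mul_sum]
  refine Finset.sum_congr rfl fun a _ => Finset.sum_congr rfl fun b _ =>
    Finset.sum_congr rfl fun c _ => Finset.sum_congr rfl fun d _ => ?_
  ring

theorem phi_smul2 (r : R) (x y z w : Fin N → R) :
    phi T x (r • y) z w = r * phi T x y z w := by
  simp only [phi, Pi.smul_apply, smul_eq_mul, Finset.mul_sum]
  refine Finset.sum_congr rfl fun a _ => Finset.sum_congr rfl fun b _ =>
    Finset.sum_congr rfl fun c _ => Finset.sum_congr rfl fun d _ => ?_
  ring

theorem phi_smul3 (r : R) (x y z w : Fin N → R) :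
    phi T x y (r • z) w = r * phi T x y z w := by
  simp only [phi, Pi.smul_apply, smul_eq_mul, Finset.mul_sum]
  refine Finset.sum_congr rfl fun a _ => Finset.sum_congr rfl fun b _ =>
    Finset.sum_congr rfl fun c _ => Finset.sum_congr rfl fun d _ => ?_
  ring

theorem phi_smul4 (r : R) (x y z w : Fin N → R) :
    phi T x y z (r • w) = r * phi T x y z w := by
  simp only [phi, Pi.smul_apply, smul_eq_mul, Finset.mul_sum]
  refine Finset.sum_congr rfl fun a _ => Finset.sum_congr rfl fun b _ =>
    Finset.sum_congr rfl fun c _ => Finset.sum_congr rfl fun d _ => ?_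
  ring

theorem phi_neg1 (x y z w : Fin N → R) : phi T (-x) y z w = -phi T x y z w := by
  have := phi_smul1 T (-1) x y z w
  simpa using this

theorem phi_neg2 (x y z w : Fin N → R) : phi T x (-y) z w = -phi T x y z w := by
  have := phi_smul2 T (-1) x y z w
  simpa using this

theorem phi_neg3 (x y z w : Fin N → R) : phi T x y (-z) w = -phi T x y z w := by
  have := phi_smul3 T (-1) x y z w
  simpa using this

theorem phi_neg4 (x y z w : Fin N → R) : phi T x y z (-w) = -phi T x y z w := by
  have := phi_smul4 T (-1) x y z w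
  simpa using this

theorem phi_sub1 (x x' y z w : Fin N → R) :
    phi T (x - x') y z w = phi T x y z w - phi T x' y z w := by
  rw [sub_eq_add_neg, phi_add1, phi_neg1, sub_eq_add_neg]

theorem phi_sub2 (x y y' z w : Fin N → R) :
    phi T x (y - y') z w = phi T x y z w - phi T x y' z w := by
  rw [sub_eq_add_neg, phi_add2, phi_neg2, sub_eq_add_neg]

theorem phi_sub3 (x y z z' w : Fin N → R) :
    phi T x y (z - z') w = phi T x y z w - phi T x y z' w := by
  rw [sub_eq_add_neg, phi_add3, phi_neg3, sub_eq_add_neg]

theorem phi_sub4 (x y z w w' : Fin N → R) :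
    phi T x y z (w - w') = phi T x y z w - phi T x y z w' := by
  rw [sub_eq_add_neg, phi_add4, phi_neg4, sub_eq_add_neg]

theorem phi_zero1 (y z w : Fin N → R) : phi T 0 y z w = 0 := by
  simp [phi]

theorem phi_zero2 (x z w : Fin N → R) : phi T x 0 z w = 0 := by
  simp [phi]

theorem phi_zero3 (x y w : Fin N → R) : phi T x y 0 w = 0 := by
  simp [phi]

theorem phi_zero4 (x y z : Fin N → R) : phi T x y z 0 = 0 := by
  simp [phi]

variable {T}

theorem phi_s12 (hT : SymT T) (x y z w : Fin N → R) : phi T x y z w = phi T y x z w := by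
  unfold phi
  rw [Finset.sum_comm]
  refine Finset.sum_congr rfl fun a _ => Finset.sum_congr rfl fun b _ =>
    Finset.sum_congr rfl fun c _ => Finset.sum_congr rfl fun d _ => ?_
  rw [hT.s12]
  ring

theorem phi_s23 (hT : SymT T) (x y z w : Fin N → R) : phi T x y z w = phi T x z y w := by
  unfold phi
  refine Finset.sum_congr rfl fun a _ => ?_
  rw [Finset.sum_comm]
  refine Finset.sum_congr rfl fun b _ =>
    Finset.sum_congr rfl fun c _ => Finset.sum_congr rfl fun d _ => ?_
  rw [hT.s23]
  ring

theorem phi_s34 (hT : SymT T) (x y z w : Fin N → R) : phi T x y z w = phi T x y w z := by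
  unfold phi
  refine Finset.sum_congr rfl fun a _ => Finset.sum_congr rfl fun b _ => ?_
  rw [Finset.sum_comm]
  refine Finset.sum_congr rfl fun c _ => Finset.sum_congr rfl fun d _ => ?_
  rw [hT.s34]
  ring

/-- compatibility with algebra homomorphisms -/
theorem phi_map (T : Ten k N) {S : Type*} [CommRing S] [Algebra k S] (g : R →ₐ[k] S)
    (x y z w : Fin N → R) :
    phi T (fun i => g (x i)) (fun i => g (y i)) (fun i => g (z i)) (fun i => g (w i)) =
      g (phi T x y z w) := by
  simp only [phi, map_sum, map_mul, AlgHom.commutes]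

/-- compatibility with the algebra map of a tower -/
theorem phi_algebraMap (T : Ten k N) {S : Type*} [CommRing S] [Algebra k S] [Algebra R S]
    [IsScalarTower k R S] (x y z w : Fin N → R) :
    phi T (fun i => algebraMap R S (x i)) (fun i => algebraMap R S (y i))
      (fun i => algebraMap R S (z i)) (fun i => algebraMap R S (w i)) =
      algebraMap R S (phi T x y z w) :=
  phi_map T (IsScalarTower.toAlgHom k R S) x y z w

/-! ### expansions. The simp set `phi_s12 hT, phi_s23 hT, phi_s34 hT` sorts the arguments. -/

theorem phi_line (hT : SymT T) (x v : Fin N → R) (t : R) :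
    phi T (x + t • v) (x + t • v) (x + t • v) (x + t • v) =
      phi T x x x x + 4 * t * phi T x x x v + 6 * t ^ 2 * phi T x x v v +
        4 * t ^ 3 * phi T x v v v + t ^ 4 * phi T v v v v := by
  simp only [phi_add1, phi_add2, phi_add3, phi_add4, phi_smul1, phi_smul2, phi_smul3, phi_smul4,
    phi_s12 hT, phi_s23 hT, phi_s34 hT]
  ring

theorem phi_comb (hT : SymT T) (x v : Fin N → R) (s t : R) :
    phi T (s • x + t • v) (s • x + t • v) (s • x + t • v) (s • x + t • v) =
      s ^ 4 * phi T x x x x + 4 * s ^ 3 * t * phi T x x x v + 6 * s ^ 2 * t ^ 2 * phi T x x v v +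
        4 * s * t ^ 3 * phi T x v v v + t ^ 4 * phi T v v v v := by
  simp only [phi_add1, phi_add2, phi_add3, phi_add4, phi_smul1, phi_smul2, phi_smul3, phi_smul4,
    phi_s12 hT, phi_s23 hT, phi_s34 hT]
  ring

/-- the residual point of a line with contact three -/
def resid (T : Ten k N) (x v : Fin N → R) : Fin N → R :=
  phi T v v v v • x - (4 * phi T x v v v) • v

theorem phi_resid (hT : SymT T) {x v : Fin N → R} (h : InW T x v) :
    phi T (resid T x v) (resid T x v) (resid T x v) (resid T x v) = 0 := by
  have h1 : resid T x v = phi T v v v v • x + (-(4 * phi T x v v v)) • v := by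
    rw [resid, neg_smul, sub_eq_add_neg]
  rw [h1, phi_comb hT, h.f, h.l, h.q]
  ring

theorem phi_resid_l (hT : SymT T) {x v : Fin N → R} (h : InW T x v) :
    phi T x x x (resid T x v) = 0 := by
  rw [resid, phi_sub4, phi_smul4, phi_smul4, h.f, h.l]
  ring

/-- second intersection point of the line through `u` and `w` with the quadric `q_x` -/
def stereo (T : Ten k N) (x u w : Fin N → R) : Fin N → R :=
  phi T x x w w • u - (2 * phi T x x u w) • w

theorem stereo_l {x u w : Fin N → R} (hu : phi T x x x u = 0) (hw : phi T x x x w = 0) :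
    phi T x x x (stereo T x u w) = 0 := by
  rw [stereo, phi_sub4, phi_smul4, phi_smul4, hu, hw]
  ring

theorem stereo_q (hT : SymT T) {x u w : Fin N → R} (hu : phi T x x u u = 0) :
    phi T x x (stereo T x u w) (stereo T x u w) = 0 := by
  have h1 : phi T x x w u = phi T x x u w := phi_s34 hT _ _ _ _
  simp only [stereo, phi_sub3, phi_sub4, phi_smul3, phi_smul4, h1, hu]
  ring

/-! ### polynomials -/

/-- the quartic form as a polynomial -/
noncomputable def fP (T : Ten k N) : MvPolynomial (Fin N) k :=
  phi T MvPolynomial.X MvPolynomial.X MvPolynomial.X MvPolynomial.X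

theorem aeval_fP (T : Ten k N) (x : Fin N → R) : MvPolynomial.aeval x (fP T) = phi T x x x x := by
  have := phi_map T (MvPolynomial.aeval x : MvPolynomial (Fin N) k →ₐ[k] R)
    MvPolynomial.X MvPolynomial.X MvPolynomial.X MvPolynomial.X
  simp only [MvPolynomial.aeval_X] at this
  exact this.symm

/-- the standard basis vectors separate linear forms -/
theorem phi_eq_sum (T : Ten k N) (x y z w : Fin N → R) :
    phi T x y z w = ∑ j, phi T x y z (Pi.single j 1) * w j := by
  have h : w = ∑ j, w j • (Pi.single j 1 : Fin N → R) := by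
    funext i
    simp [Finset.sum_apply, Pi.single_apply]
  have h2 : ∀ s : Finset (Fin N), phi T x y z (∑ j ∈ s, w j • (Pi.single j 1 : Fin N → R)) =
      ∑ j ∈ s, phi T x y z (Pi.single j 1) * w j := by
    intro s
    induction s using Finset.induction_on with
    | empty => simp [phi_zero4]
    | insert a s ha ih =>
      rw [Finset.sum_insert ha, Finset.sum_insert ha, phi_add4, phi_smul4, ih]
      ring
  conv_lhs => rw [h]
  exact h2 Finset.univ

theorem mat_mulVec (hT : SymT T) (x r : Fin N → R) (b : Fin N) :
    (mat T x).mulVec r b = phi T x x r (Pi.single b 1) := by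
  rw [phi_s34 hT, phi_eq_sum T x x (Pi.single b 1) r]
  rfl

theorem nd_iff (hT : SymT T) (x : Fin N → k) : ND T x ↔ (mat T x).det ≠ 0 := by
  constructor
  · intro h hdet
    obtain ⟨r, hr, h0⟩ := Matrix.exists_mulVec_eq_zero_iff.2 hdet
    apply hr
    apply h
    intro w
    rw [phi_eq_sum]
    apply Finset.sum_eq_zero
    intro j _
    rw [← mat_mulVec hT, h0, Pi.zero_apply, zero_mul]
  · intro hdet r hr
    by_contra h0
    apply hdet
    apply Matrix.exists_mulVec_eq_zero_iff.1
    refine ⟨r, h0, ?_⟩
    funext b
    rw [mat_mulVec hT, hr, Pi.zero_apply]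

/-- compatibility of the matrix with algebra homomorphisms -/
theorem mat_map (T : Ten k N) {S : Type*} [CommRing S] [Algebra k S] (g : R →ₐ[k] S)
    (x : Fin N → R) : mat T (fun i => g (x i)) = (mat T x).map g := by
  ext a b
  rw [Matrix.map_apply, mat, mat, ← phi_map]
  congr 1
  · funext i
    rw [Pi.single_apply, Pi.single_apply]
    split_ifs <;> simp
  · funext i
    rw [Pi.single_apply, Pi.single_apply]
    split_ifs <;> simp

theorem det_map (T : Ten k N) {S : Type*} [CommRing S] [Algebra k S] (g : R →ₐ[k] S)
    (x : Fin N → R) : (mat T (fun i => g (x i))).det = g (mat T x).det := by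
  rw [mat_map]
  exact (AlgHom.map_det g (mat T x)).symm

end Pool.Agent.Helper72.QT
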