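import Pool.Agent.Helper72.QT.Pencil

/-!
# QT-21: the case of constant ratios

PROOF. `4 c v = f(v) x - y` (`resid`) with `y = g • toK z`, `c ≠ 0`, `4 ≠ 0`. So `v = toK p0 + s toK p1 + s² toK p2` is in the `K`-span of `toK x`, `toK z`. The span of `x` and `z` over `F = RatFunc k` has dimension `≤ 2`, and
`x, p0, p1, p2` are independent, so there is a linear functional `φ` on `F^5` (coordinates `a : Fin 5 → F`) which vanishes at `x` and `z` but not at all of `p0, p1, p2` (otherwise the `p_i` would be in the span). Applied to `v`: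
`φ(p0) + s φ(p1) + s² φ(p2) = 0` in `K = RatFunc F`, `s = RatFunc.X` transcendental over `F`, so all `φ(p_i) = 0`, contradiction.
-/

set_option autoImplicit false

namespace Pool.Agent.Helper72.QT

open Polynomial

variable {k : Type*} [Field k] {T : Ten k 5}

/-- a polynomial of degree at most two in `s` which vanishes has zero coefficients -/
theorem case_const_coeff (a b c : RatFunc k)
    (h : algebraMap (RatFunc k) (KK k) a + ss k * algebraMap (RatFunc k) (KK k) b +
      ss k ^ 2 * algebraMap (RatFunc k) (KK k) c = 0) : a = 0 ∧ b = 0 ∧ c = 0 := by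
  have hC : ∀ u : RatFunc k, algebraMap (RatFunc k) (KK k) u =
      algebraMap (RatFunc k)[X] (KK k) (C u) := by
    intro u
    rw [IsScalarTower.algebraMap_apply (RatFunc k) (RatFunc k)[X] (KK k)]
    rfl
  have hX : ss k = algebraMap (RatFunc k)[X] (KK k) X := (RatFunc.algebraMap_X).symm
  rw [hC a, hC b, hC c, hX, ← map_mul, ← map_pow, ← map_mul, ← map_add, ← map_add] at h
  have h1 : C a + X * C b + X ^ 2 * C c = 0 :=
    (map_eq_zero_iff _ (IsFractionRing.injective (RatFunc k)[X] (KK k))).1 h
  have h0 : C a + C b * X + C c * X ^ 2 = 0 := by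
    rw [← h1]
    ring
  refine ⟨?_, ?_, ?_⟩
  · have := congrArg (fun q => coeff q 0) h0
    simpa using this
  · have := congrArg (fun q => coeff q 1) h0
    simpa [coeff_C, coeff_X_pow] using this
  · have := congrArg (fun q => coeff q 2) h0
    simpa [coeff_C, coeff_X] using this

theorem case_const (h2 : (2 : k) ≠ 0) (x : Fin 5 → RatFunc k) (p0 p1 p2 : Fin 5 → RatFunc k)
    (li : LinearIndependent (RatFunc k) ![x, p0, p1, p2]) (v : Fin 5 → KK k)
    (hv : v = toK p0 + ss k • toK p1 + ss k ^ 2 • toK p2)
    (hc : phi T (toK x) v v v ≠ 0) (z : Fin 5 → RatFunc k) (g : KK k)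
    (h : resid T (toK x) v = g • toK z) : False := by
  classical
  -- the coordinates of a functional and its extension
  have h4 : (4 : KK k) ≠ 0 := by
    have h22 : (2 : KK k) ≠ 0 := by
      have := (map_ne_zero (algebraMap k (KK k))).2 h2
      rw [map_ofNat] at this
      exact this
    have : (4 : KK k) = 2 * 2 := by norm_num
    rw [this]
    exact mul_ne_zero h22 h22
  have key : ∀ f : (Fin 5 → RatFunc k) →ₗ[RatFunc k] RatFunc k, f x = 0 → f z = 0 →
      f p0 = 0 ∧ f p1 = 0 ∧ f p2 = 0 := by
    intro f hx hz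
    have hf : ∀ u : Fin 5 → RatFunc k, f u = ∑ i, f (Pi.single i 1) * u i := by
      intro u
      conv_lhs => rw [← LinearMap.sum_single_apply (fun _ => RatFunc k) u]
      rw [map_sum]
      refine Finset.sum_congr rfl fun i _ => ?_
      have : (Pi.single i (u i) : Fin 5 → RatFunc k) = u i • Pi.single i 1 := by
        rw [← Pi.single_smul, smul_eq_mul, mul_one]
      rw [this, map_smul, smul_eq_mul, mul_comm]
    let fK : (Fin 5 → KK k) → KK k := fun w =>
      ∑ i, algebraMap (RatFunc k) (KK k) (f (Pi.single i 1)) * w i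
    have fadd : ∀ a b, fK (a + b) = fK a + fK b := by
      intro a b
      simp only [fK, Pi.add_apply, mul_add, Finset.sum_add_distrib]
    have fsub : ∀ a b, fK (a - b) = fK a - fK b := by
      intro a b
      simp only [fK, Pi.sub_apply, mul_sub, Finset.sum_sub_distrib]
    have fsm : ∀ (r : KK k) a, fK (r • a) = r * fK a := by
      intro r a
      simp only [fK, Pi.smul_apply, smul_eq_mul, Finset.mul_sum]
      refine Finset.sum_congr rfl fun i _ => ?_
      ring
    have fto : ∀ u : Fin 5 → RatFunc k, fK (toK u) = algebraMap (RatFunc k) (KK k) (f u) := by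
      intro u
      rw [hf u, map_sum]
      simp only [fK, toK, map_mul]
    have h1 := congrArg fK h
    rw [resid, fsub, fsm, fsm, fsm, fto, fto, hx, hz, map_zero, mul_zero, mul_zero, zero_sub,
      neg_eq_zero] at h1
    have h5 : fK v = 0 := (mul_eq_zero.1 h1).resolve_left (mul_ne_zero h4 hc)
    rw [hv, fadd, fadd, fsm, fsm, fto, fto, fto] at h5
    exact case_const_coeff _ _ _ h5
  -- the span of x and z contains the four vectors
  have hmem : ∀ p : Fin 5 → RatFunc k, (∀ f : (Fin 5 → RatFunc k) →ₗ[RatFunc k] RatFunc k,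
      f x = 0 → f z = 0 → f p = 0) → p ∈ Submodule.span (RatFunc k) (Set.range ![x, z]) := by
    intro p hp
    by_contra hn
    obtain ⟨f, hf1, hf2⟩ := Submodule.exists_le_ker_of_notMem hn
    apply hf1
    apply hp f
    · exact hf2 (Submodule.subset_span ⟨0, rfl⟩)
    · exact hf2 (Submodule.subset_span ⟨1, rfl⟩)
  have hle : Submodule.span (RatFunc k) (Set.range ![x, p0, p1, p2]) ≤
      Submodule.span (RatFunc k) (Set.range ![x, z]) := by
    rw [Submodule.span_le]
    rintro _ ⟨i, rfl⟩
    fin_cases i
    · exact Submodule.subset_span ⟨0, rfl⟩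
    · exact hmem p0 fun f a b => (key f a b).1
    · exact hmem p1 fun f a b => (key f a b).2.1
    · exact hmem p2 fun f a b => (key f a b).2.2
  have hd1 := finrank_span_eq_card li
  have hd2 := finrank_range_le_card (R := RatFunc k) ![x, z]
  have hd3 := Submodule.finrank_mono hle
  simp only [Fintype.card_fin] at hd1 hd2
  unfold Set.finrank at hd2
  omega

end Pool.Agent.Helper72.QT
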