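import Mathlib

/-!
# Project QT (MP_1a304d_ag): surfaces in quartic hypersurfaces, definitions

`T` is a symmetric tensor with values in `k`; `phi T x y z w` the four-linear form over any commutative
`k`-algebra `R`. The quartic is `f(x) = phi T x x x x`; `l_x(v) = phi T x x x v`, `q_x(v) = phi T x x v v`,
`b_x(u, w) = phi T x x u w`, `c_x(v) = phi T x v v v`. `T_x` is the kernel of `l_x`.
-/

set_option autoImplicit false

namespace Pool.Agent.Helper72.QT

open Polynomial

/-- tensors with four indices -/
abbrev Ten (k : Type*) (N : ℕ) : Type _ := Fin N → Fin N → Fin N → Fin N → k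

variable {k : Type*} [Field k] {N : ℕ}

/-- symmetric tensors -/
structure SymT (T : Ten k N) : Prop where
  s12 : ∀ a b c d, T a b c d = T b a c d
  s23 : ∀ a b c d, T a b c d = T a c b d
  s34 : ∀ a b c d, T a b c d = T a b d c

/-- the four-linear form of a tensor, over every `k`-algebra -/
def phi (T : Ten k N) {R : Type*} [CommRing R] [Algebra k R] (x y z w : Fin N → R) : R :=
  ∑ a, ∑ b, ∑ c, ∑ d, algebraMap k R (T a b c d) * x a * y b * z c * w d

/-- the quartic `phi T x x x x` is smooth (in characteristic different from `2`) -/
def Smo (T : Ten k N) : Prop := ∀ x : Fin N → k, x ≠ 0 → ∃ v, phi T x x x v ≠ 0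

/-- the line through `x` in direction `v` has contact at least three with the quartic -/
structure InW (T : Ten k N) {R : Type*} [CommRing R] [Algebra k R] (x v : Fin N → R) : Prop where
  f : phi T x x x x = 0
  l : phi T x x x v = 0
  q : phi T x x v v = 0

/-- the quadratic form `q_x` is nondegenerate -/
def ND (T : Ten k N) (x : Fin N → k) : Prop := ∀ r, (∀ w, phi T x x r w = 0) → r = 0

/-- the matrix of the bilinear form `b_x` -/
def mat (T : Ten k N) {R : Type*} [CommRing R] [Algebra k R] (x : Fin N → R) :
    Matrix (Fin N) (Fin N) R := fun a b => phi T x x (Pi.single a 1) (Pi.single b 1)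

/-- the rational function field in two variables `t`, `s` -/
abbrev KK (k : Type*) [Field k] : Type _ := RatFunc (RatFunc k)

/-- the outer variable -/
noncomputable def ss (k : Type*) [Field k] : KK k := RatFunc.X

/-- the inner variable -/
noncomputable def tt (k : Type*) [Field k] : KK k := algebraMap (RatFunc k) (KK k) RatFunc.X

/-- the quartic contains a unirational surface -/
def ContUni (T : Ten k N) : Prop :=
  ∃ y : Fin N → KK k, phi T y y y y = 0 ∧ ∃ i j l, y i ≠ 0 ∧
    AlgebraicIndependent k ![y j / y i, y l / y i]

/-- the quartic contains a rational surface -/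
def ContRat (T : Ten k N) : Prop :=
  ∃ y : Fin N → KK k, phi T y y y y = 0 ∧ ∃ i, y i ≠ 0 ∧
    IntermediateField.adjoin k (Set.range fun j => y j / y i) = ⊤

end Pool.Agent.Helper72.QT
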