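import Pool.Agent.Helper72.QT.Pencil

/-!
# QT-22: the ratios are orthogonal to all tangent hyperplanes of the curve

`AA T x n j` is the coefficient of `X^n` in `phi T x x x e_j`.

PROOF. By `phi_eq_sum` over `KK k`: `0 = ∑_j phi T x x x e_j * y j` (`x` mapped to `KK k`; `phi_algebraMap`) and `phi T x x x e_j = ∑_n AA n j t^n`, `t = tt k`. Divide by `y i`: `∑_n (∑_j AA n j (y j / y i)) t^n = 0`, a polynomial relation for `t` with coefficients in `E`
(`y j / y i ∈ E`), so by `Transcendental E t` all coefficients vanish; multiply by `y i`.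
-/

set_option autoImplicit false

namespace Pool.Agent.Helper72.QT

open Polynomial

variable {k : Type*} [Field k] {T : Ten k 5}

/-- coefficients of the tangent hyperplane -/
noncomputable def AA (T : Ten k 5) (x : Fin 5 → k[X]) (n : ℕ) (j : Fin 5) : k :=
  (phi T x x x (Pi.single j 1)).coeff n

/-- polynomials in the rational function field in two variables -/
private noncomputable def gK (k : Type*) [Field k] : k[X] →ₐ[k] KK k :=
  (IsScalarTower.toAlgHom k (RatFunc k) (KK k)).comp (IsScalarTower.toAlgHom k k[X] (RatFunc k))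

private theorem gK_eq (p : k[X]) : gK k p = aeval (tt k) p := by
  have h : gK k = aeval (tt k) := by
    refine Polynomial.algHom_ext ?_
    rw [aeval_X]
    change algebraMap (RatFunc k) (KK k) (algebraMap k[X] (RatFunc k) X) = tt k
    rw [RatFunc.algebraMap_X]
    rfl
  rw [h]

theorem lam (x : Fin 5 → k[X]) (y : Fin 5 → KK k)
    (hy : phi T (toK (toR x)) (toK (toR x)) (toK (toR x)) y = 0) (i : Fin 5) (hi : y i ≠ 0)
    (E : IntermediateField k (KK k)) (hE : ∀ j, y j / y i ∈ E) (ht : Transcendental E (tt k))
    (n : ℕ) : ∑ j, algebraMap k (KK k) (AA T x n j) * y j = 0 := by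
  have hphi : ∀ j, phi T (toK (toR x)) (toK (toR x)) (toK (toR x)) (Pi.single j 1) =
      gK k (phi T x x x (Pi.single j 1)) := by
    intro j
    rw [← phi_map T (gK k) x x x (Pi.single j 1)]
    have h1 : (fun i => gK k ((Pi.single j 1 : Fin 5 → k[X]) i)) =
        (Pi.single j 1 : Fin 5 → KK k) := by
      funext i
      rw [Pi.single_apply, Pi.single_apply]
      split_ifs
      · exact map_one _
      · exact map_zero _
    rw [h1]
    rfl
  rw [phi_eq_sum] at hy
  simp only [hphi, gK_eq] at hy
  obtain ⟨z, hz⟩ : ∃ z : Fin 5 → E, ∀ j, ((z j : E) : KK k) = y j / y i :=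
    ⟨fun j => ⟨y j / y i, hE j⟩, fun _ => rfl⟩
  have hQ : aeval (tt k) (∑ j, C (z j) * (phi T x x x (Pi.single j 1)).map (algebraMap k E)) = 0 := by
    rw [map_sum]
    have h1 : ∀ j, aeval (tt k) (C (z j) * (phi T x x x (Pi.single j 1)).map (algebraMap k E)) =
        (y i)⁻¹ * (aeval (tt k) (phi T x x x (Pi.single j 1)) * y j) := by
      intro j
      rw [map_mul, aeval_C, aeval_map_algebraMap]
      have h2 : algebraMap E (KK k) (z j) = y j / y i := hz j
      rw [h2]
      ring
    simp only [h1]
    rw [← Finset.mul_sum, hy, mul_zero]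
  have hQ0 := (transcendental_iff.mp ht) _ hQ
  have hc := congrArg (fun q : E[X] => algebraMap E (KK k) (q.coeff n)) hQ0
  simp only [finset_sum_coeff, coeff_C_mul, coeff_map, coeff_zero, map_zero, map_sum, map_mul] at hc
  have h3 : ∀ j, algebraMap k (KK k) (AA T x n j) * y j =
      y i * (algebraMap E (KK k) (z j) *
        algebraMap E (KK k) (algebraMap k E ((phi T x x x (Pi.single j 1)).coeff n))) := by
    intro j
    have h2 : algebraMap E (KK k) (z j) = y j / y i := hz j
    rw [h2, ← IsScalarTower.algebraMap_apply k E (KK k)]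
    unfold AA
    field_simp
  simp only [h3]
  rw [← Finset.mul_sum, hc, mul_zero]

end Pool.Agent.Helper72.QT
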