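import Pool.Agent.Helper72.QT.Lam

/-!
# QT-23: the dual curve spans at least three dimensions, or the curve is in the orthogonal space

PROOF. `ℓ_j = phi T x x x e_j = ∑_n AA n j X^n ∈ k[X]`, of degree `≤ 3 m`, and the coefficient of `X^(3m)` is `phi T z z z e_j`, `z = (x_i.coeff m) ≠ 0` (expand `phi`: the coefficient of `X^(3m)` of a product of three polynomials of degree `≤ m`), so it is not `0` for some `j`
by `Smo` (`phi_eq_sum`). Let `S` be the span of the vectors `AA n`, `n ∈ ℕ`, in `k^5`, `D` its dimension; `D ≥ 1`.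
`D = 1`: `AA n = g_n • A` with `A ≠ 0`, so `ℓ_j = C (A j) * g`, `g = ∑ g_n X^n`, of degree exactly `3 m ≥ 3`, so `g` has a root `τ`: `phi T z z z e_j = 0` for all `j` at `z = x(τ) ≠ 0`, contradiction to `Smo`.
`D = 2`: choose `n1, n2` with `A = AA n1`, `B = AA n2` a basis of `S` (a spanning family contains a basis), `ℓ_j = C (A j) * g + C (B j) * h`. `g, h` have no common root (as before), so they are coprime; the larger of their degrees is `3 m` (the coefficient of `X^(3m)`
is not `0` for some `j`; degrees `≤ 3m` because `A`, `B` are independent: `g`, `h` are combinations of the `ℓ_j`). `0 = phi T x x x x = ∑_j ℓ_j x_j = g α + h γ`, `α = ∑_j C (A j) * x_j`, `γ = ∑_j C (B j) * x_j` of degree `≤ m < 3 m`. `g ∣ γ`, `h ∣ α` (coprime), one of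
`g, h` has degree `3 m`, say `g`: `γ = 0`, so `g α = 0`, `α = 0` (same for `h`). So `∑_j C (AA n j) * x_j = 0` for all `n`.
`D ≥ 3`: three of the vectors are independent.
-/

set_option autoImplicit false

namespace Pool.Agent.Helper72.QT

open Polynomial

section aux

variable {k : Type*} [Field k] {T : Ten k 5}

private lemma eval_L (x : Fin 5 → k[X]) (j : Fin 5) (τ : k) :
    (phi T x x x (Pi.single j 1)).eval τ =
      phi T (fun i => (x i).eval τ) (fun i => (x i).eval τ) (fun i => (x i).eval τ) (Pi.single j 1) := by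
  have h := phi_map T (aeval τ : k[X] →ₐ[k] k) x x x (Pi.single j 1)
  have h1 : (fun i => (aeval τ : k[X] →ₐ[k] k) ((Pi.single j 1 : Fin 5 → k[X]) i)) = Pi.single j 1 := by
    funext i
    rw [Pi.single_apply, Pi.single_apply]
    split_ifs <;> simp
  rw [h1] at h
  simp only [← coe_aeval_eq_eval]
  exact h.symm

private lemma exists_L (hS : Smo T) {z : Fin 5 → k} (hz : z ≠ 0) : ∃ j, phi T z z z (Pi.single j 1) ≠ 0 := by
  obtain ⟨v, hv⟩ := hS z hz
  by_contra hcon
  push Not at hcon
  apply hv
  rw [phi_eq_sum]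
  exact Finset.sum_eq_zero fun j _ => by rw [hcon j, zero_mul]

private lemma coeff_L (x : Fin 5 → k[X]) (m : ℕ) (hd : ∀ i, (x i).natDegree ≤ m) (j : Fin 5) :
    (phi T x x x (Pi.single j 1)).coeff (3 * m) =
      phi T (fun i => (x i).coeff m) (fun i => (x i).coeff m) (fun i => (x i).coeff m) (Pi.single j 1) := by
  unfold phi
  simp only [finsetSum_coeff]
  refine Finset.sum_congr rfl fun a _ => Finset.sum_congr rfl fun b _ =>
    Finset.sum_congr rfl fun c _ => Finset.sum_congr rfl fun d _ => ?_
  have e1 : (Pi.single j 1 : Fin 5 → k[X]) d = C ((Pi.single j 1 : Fin 5 → k) d) := by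
    rw [Pi.single_apply, Pi.single_apply]
    split_ifs <;> simp
  rw [e1, coeff_mul_C]
  congr 1
  have h0 : (algebraMap k k[X] (T a b c d)).natDegree ≤ 0 := by
    rw [← C_eq_algebraMap, natDegree_C]
  have h1 := coeff_mul_add_eq_of_natDegree_le h0 (hd a)
  have h1' : (algebraMap k k[X] (T a b c d) * x a).natDegree ≤ 0 + m :=
    natDegree_mul_le_of_le h0 (hd a)
  have h2 := coeff_mul_add_eq_of_natDegree_le h1' (hd b)
  have h2' : (algebraMap k k[X] (T a b c d) * x a * x b).natDegree ≤ 0 + m + m :=
    natDegree_mul_le_of_le h1' (hd b)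
  have h3 := coeff_mul_add_eq_of_natDegree_le h2' (hd c)
  rw [show 3 * m = 0 + m + m + m by ring, h3, h2, h1]
  congr 3
  rw [← C_eq_algebraMap, coeff_C_zero]
  rfl

/-- a minor of two independent vectors -/
private lemma exists_minor {A B : Fin 5 → k} (hA : A ≠ 0) (hB : ∀ c : k, c • A ≠ B) :
    ∃ i j, A i * B j - A j * B i ≠ 0 := by
  obtain ⟨i, hi⟩ := Function.ne_iff.1 hA
  rw [Pi.zero_apply] at hi
  obtain ⟨j, hj⟩ := Function.ne_iff.1 (hB (B i / A i))
  refine ⟨i, j, fun h => hj ?_⟩
  rw [Pi.smul_apply, smul_eq_mul, div_mul_eq_mul_div, div_eq_iff hi]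
  linear_combination -h

end aux

variable {k : Type*} [Field k] [IsAlgClosed k] {T : Ten k 5}

theorem lam_dim (hT : SymT T) (hS : Smo T) (x : Fin 5 → k[X]) (m : ℕ)
    (hf : phi T x x x x = 0) (hr : ∀ τ : k, ∃ i, (x i).eval τ ≠ 0) (hm : 1 ≤ m)
    (hd : ∀ i, (x i).natDegree ≤ m) (hl : ∃ i, (x i).coeff m ≠ 0) :
    (∃ κ : Fin 3 → ℕ, LinearIndependent k (fun p => AA T x (κ p))) ∨
    ∃ κ : Fin 2 → ℕ, LinearIndependent k (fun p => AA T x (κ p)) ∧
      ∀ n, ∑ j, C (AA T x n j) * x j = 0 := by
  -- no common root
  have hroot : ∀ τ : k, ∃ j, (phi T x x x (Pi.single j 1)).eval τ ≠ 0 := by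
    intro τ
    have hz : (fun i => (x i).eval τ) ≠ 0 := by
      obtain ⟨i, hi⟩ := hr τ
      exact fun h => hi (congrFun h i)
    obtain ⟨j, hj⟩ := exists_L hS hz
    exact ⟨j, by rw [eval_L]; exact hj⟩
  -- the top coefficient
  obtain ⟨jt, hjt⟩ : ∃ j, (phi T x x x (Pi.single j 1)).coeff (3 * m) ≠ 0 := by
    have hz : (fun i => (x i).coeff m) ≠ 0 := by
      obtain ⟨i, hi⟩ := hl
      exact fun h => hi (congrFun h i)
    obtain ⟨j, hj⟩ := exists_L hS hz
    exact ⟨j, by rw [coeff_L x m hd]; exact hj⟩
  have hAAL : ∀ n j, (phi T x x x (Pi.single j 1)).coeff n = AA T x n j := fun _ _ => rfl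
  obtain ⟨n1, hn1⟩ : ∃ n, AA T x n ≠ 0 := ⟨3 * m, fun h => hjt (congrFun h jt)⟩
  by_cases hD1 : ∀ n, ∃ c : k, c • AA T x n1 = AA T x n
  · exfalso
    choose g hg using hD1
    obtain ⟨j0, hj0⟩ := Function.ne_iff.1 hn1
    rw [Pi.zero_apply] at hj0
    have hLj : ∀ j, phi T x x x (Pi.single j 1) =
        C (AA T x n1 j / AA T x n1 j0) * phi T x x x (Pi.single j0 1) := by
      intro j
      ext n
      rw [coeff_C_mul, hAAL, hAAL, ← hg n]
      simp only [Pi.smul_apply, smul_eq_mul]
      field_simp
    have hdeg : (phi T x x x (Pi.single j0 1)).degree ≠ 0 := by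
      intro h0
      have h1 : (phi T x x x (Pi.single j0 1)).coeff (3 * m) = 0 := by
        apply coeff_eq_zero_of_natDegree_lt
        have h2 : (phi T x x x (Pi.single j0 1)).natDegree = 0 := natDegree_eq_zero_iff_degree_le_zero.2 h0.le
        rw [h2]
        omega
      rw [hLj, coeff_C_mul, h1, mul_zero] at hjt
      exact hjt rfl
    obtain ⟨τ, hτ⟩ := IsAlgClosed.exists_root _ hdeg
    obtain ⟨j, hj⟩ := hroot τ
    apply hj
    rw [hLj, eval_mul, hτ.eq_zero, mul_zero]
  · push Not at hD1
    obtain ⟨n2, hn2⟩ := hD1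
    have hli : LinearIndependent k ![AA T x n1, AA T x n2] := (LinearIndependent.pair_iff' hn1).2 hn2
    by_cases hD2 : ∀ n, AA T x n ∈ Submodule.span k (Set.range ![AA T x n1, AA T x n2])
    · right
      refine ⟨![n1, n2], ?_, ?_⟩
      · have he : (fun p => AA T x (![n1, n2] p)) = ![AA T x n1, AA T x n2] := by
          funext p
          fin_cases p <;> rfl
        rw [he]
        exact hli
      · have hD2' : ∀ n, ∃ c d : k, c • AA T x n1 + d • AA T x n2 = AA T x n := by
          intro n
          have h := hD2 n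
          rw [Matrix.range_cons, Matrix.range_cons, Matrix.range_empty, Set.union_empty,
            Set.singleton_union, Submodule.mem_span_pair] at h
          exact h
        choose g h hgh using hD2'
        obtain ⟨i1, i2, hδ⟩ := exists_minor hn1 hn2
        set A := AA T x n1 with hA
        set B := AA T x n2 with hB
        set δ := A i1 * B i2 - A i2 * B i1 with hδd
        obtain ⟨G, hGdef⟩ : ∃ G : k[X], G = C δ⁻¹ * (C (B i2) * phi T x x x (Pi.single i1 1) -
          C (B i1) * phi T x x x (Pi.single i2 1)) := ⟨_, rfl⟩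
        obtain ⟨H, hHdef⟩ : ∃ H : k[X], H = C δ⁻¹ * (C (A i1) * phi T x x x (Pi.single i2 1) -
          C (A i2) * phi T x x x (Pi.single i1 1)) := ⟨_, rfl⟩
        have hAAn : ∀ n j, AA T x n j = g n * A j + h n * B j := by
          intro n j
          rw [← hgh n]
          rfl
        have hGc : ∀ n, G.coeff n = g n := by
          intro n
          simp only [hGdef, coeff_C_mul, coeff_sub, hAAL, hAAn]
          rw [inv_mul_eq_iff_eq_mul₀ hδ, hδd]
          ring
        have hHc : ∀ n, H.coeff n = h n := by
          intro n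
          simp only [hHdef, coeff_C_mul, coeff_sub, hAAL, hAAn]
          rw [inv_mul_eq_iff_eq_mul₀ hδ, hδd]
          ring
        have hLj : ∀ j, phi T x x x (Pi.single j 1) = C (A j) * G + C (B j) * H := by
          intro j
          ext n
          rw [coeff_add, coeff_C_mul, coeff_C_mul, hGc, hHc, hAAL, hAAn]
          ring
        have hcop : IsCoprime G H := by
          rw [Polynomial.isCoprime_iff_aeval_ne_zero_of_isAlgClosed k k]
          intro τ
          by_contra hcon
          push Not at hcon
          obtain ⟨j, hj⟩ := hroot τ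
          apply hj
          rw [hLj, eval_add, eval_mul, eval_mul]
          have h1 := hcon.1
          have h2 := hcon.2
          rw [coe_aeval_eq_eval] at h1 h2
          rw [h1, h2, mul_zero, mul_zero, add_zero]
        let α : k[X] := ∑ j, C (A j) * x j
        let γ : k[X] := ∑ j, C (B j) * x j
        have hdα : α.natDegree ≤ m := natDegree_sum_le_of_forall_le _ _ fun j _ =>
          (natDegree_C_mul_le _ _).trans (hd j)
        have hdγ : γ.natDegree ≤ m := natDegree_sum_le_of_forall_le _ _ fun j _ =>
          (natDegree_C_mul_le _ _).trans (hd j)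
        have hrel : G * α + H * γ = 0 := by
          rw [← hf, phi_eq_sum T x x x x]
          simp only [hLj, α, γ, Finset.mul_sum, ← Finset.sum_add_distrib]
          refine Finset.sum_congr rfl fun j _ => ?_
          ring
        have hGγ : G ∣ γ := by
          apply hcop.dvd_of_dvd_mul_left
          exact ⟨-α, by linear_combination hrel⟩
        have hHα : H ∣ α := by
          apply hcop.symm.dvd_of_dvd_mul_left
          exact ⟨-γ, by linear_combination hrel⟩
        have h3m : m < 3 * m := by omega
        have hαγ : α = 0 ∧ γ = 0 := by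
          have htop : G.coeff (3 * m) ≠ 0 ∨ H.coeff (3 * m) ≠ 0 := by
            by_contra hcon
            push Not at hcon
            apply hjt
            rw [hLj, coeff_add, coeff_C_mul, coeff_C_mul, hcon.1, hcon.2, mul_zero, mul_zero, add_zero]
          rcases htop with ht | ht
          · have hγ : γ = 0 := eq_zero_of_dvd_of_natDegree_lt hGγ
              (lt_of_le_of_lt hdγ (lt_of_lt_of_le h3m (le_natDegree_of_ne_zero ht)))
            refine ⟨?_, hγ⟩
            rw [hγ, mul_zero, add_zero] at hrel
            exact (mul_eq_zero.1 hrel).resolve_left fun h0 => ht (by rw [h0, coeff_zero])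
          · have hα : α = 0 := eq_zero_of_dvd_of_natDegree_lt hHα
              (lt_of_le_of_lt hdα (lt_of_lt_of_le h3m (le_natDegree_of_ne_zero ht)))
            refine ⟨hα, ?_⟩
            rw [hα, mul_zero, zero_add] at hrel
            exact (mul_eq_zero.1 hrel).resolve_left fun h0 => ht (by rw [h0, coeff_zero])
        intro n
        have h4 : ∑ j, C (AA T x n j) * x j = C (g n) * α + C (h n) * γ := by
          simp only [α, γ, Finset.mul_sum, ← Finset.sum_add_distrib, hAAn, map_add, map_mul]
          refine Finset.sum_congr rfl fun j _ => ?_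
          ring
        rw [h4, hαγ.1, hαγ.2, mul_zero, mul_zero, add_zero]
    · left
      push Not at hD2
      obtain ⟨n3, hn3⟩ := hD2
      refine ⟨![n1, n2, n3], ?_⟩
      have h := LinearIndependent.finSnoc hli hn3
      have he : (fun p => AA T x (![n1, n2, n3] p)) =
          (Fin.snoc ![AA T x n1, AA T x n2] (AA T x n3) : Fin 3 → Fin 5 → k) := by
        funext p
        fin_cases p <;> rfl
      rw [he]
      exact h

end Pool.Agent.Helper72.QT
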