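import Pool.Agent.Helper72.QT.Basic

/-!
# QT-07: linear algebra at a nondegenerate point

`b(u, w) = phi T x x u w` is a symmetric bilinear form on `k^N`, nondegenerate by `ND`, `x` is isotropic and `T_x = x^⊥`. (Define a `LinearMap.BilinForm` and use `LinearMap.BilinForm.finrank_orthogonal` etc., or argue directly.)

* `exists_g`: if `b(v, .)` vanishes on `x^⊥ = ker b(x, .)` then `b(v, .) = c b(x, .)`, `v = c x`.
* `exists_w0`: let `U = {w : b(x,w) = b(v,w) = 0}`, of dimension `≥ N - 2 ≥ 3`. If `b(w,w) = 0` for all `w` in `U` then `b = 0` on `U` (polarisation, `2 ≠ 0`), `U ⊆ U^⊥`, `dim U^⊥ = N - dim U`, so `2 dim U ≤ N`, i.e.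
  `2 (N - 2) ≤ N`, contradiction to `N ≥ 5`.
* `exists_w2`: the space `U` has dimension `≥ N - 2 ≥ 4`, so it is not contained in the span of three vectors.
* `exists_iso`: `x^⊥` has dimension `N - 1 ≥ 3`: choose `a, c` in it with `x, a, c` independent. If `b(c,c) = 0` take `v = c`, otherwise a root `t` of `b(a,a) + 2 t b(a,c) + t² b(c,c)` gives `v = a + t c`.
-/

set_option autoImplicit false

namespace Pool.Agent.Helper72.QT

open Polynomial

variable {k : Type*} [Field k] {N : ℕ} {T : Ten k N}

/-- the bilinear form of a point -/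
private noncomputable def bf (T : Ten k N) (x : Fin N → k) : LinearMap.BilinForm k (Fin N → k) :=
  LinearMap.mk₂ k (fun u w => phi T x x u w) (fun _ _ _ => phi_add3 T _ _ _ _ _)
    (fun _ _ _ => phi_smul3 T _ _ _ _ _) (fun _ _ _ => phi_add4 T _ _ _ _ _)
    (fun _ _ _ => phi_smul4 T _ _ _ _ _)

private theorem bf_apply (T : Ten k N) (x u w : Fin N → k) : bf T x u w = phi T x x u w := rfl

/-- the vectors orthogonal to `x` and `v` -/
private noncomputable def UU (T : Ten k N) (x v : Fin N → k) : Submodule k (Fin N → k) :=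
  LinearMap.ker ((bf T x x).prod (bf T x v))

private theorem mem_UU (T : Ten k N) (x v w : Fin N → k) :
    w ∈ UU T x v ↔ phi T x x x w = 0 ∧ phi T x x v w = 0 := by
  rw [UU, LinearMap.mem_ker]
  exact Prod.mk_eq_zero

private theorem finrank_UU (T : Ten k N) (x v : Fin N → k) : N ≤ Module.finrank k (UU T x v) + 2 := by
  have h1 := LinearMap.finrank_range_add_finrank_ker ((bf T x x).prod (bf T x v))
  have h2 : Module.finrank k (LinearMap.range ((bf T x x).prod (bf T x v))) ≤ 2 := by
    have h3 := Submodule.finrank_le (LinearMap.range ((bf T x x).prod (bf T x v)))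
    rw [Module.finrank_prod, Module.finrank_self] at h3
    exact h3
  rw [Module.finrank_fin_fun] at h1
  change _ + Module.finrank k (UU T x v) = N at h1
  omega

theorem exists_g (hT : SymT T) (x v : Fin N → k) (hx : ND T x) (hx0 : x ≠ 0)
    (hv : ∀ c : k, v ≠ c • x) : ∃ g, phi T x x x g = 0 ∧ phi T x x v g ≠ 0 := by
  by_contra hcon
  have hcon' : ∀ g, phi T x x x g = 0 → phi T x x v g = 0 := by
    intro g hg
    by_contra h
    exact hcon ⟨g, hg, h⟩
  have h1 : ∃ w, phi T x x x w ≠ 0 := by
    by_contra h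
    apply hx0
    apply hx
    intro w
    by_contra h2
    exact h ⟨w, h2⟩
  obtain ⟨w0, hw0⟩ := h1
  apply hv (phi T x x v w0 / phi T x x x w0)
  rw [← sub_eq_zero]
  apply hx
  intro w
  have h2 := hcon' (w - (phi T x x x w / phi T x x x w0) • w0) (by
    rw [phi_sub4, phi_smul4, div_mul_cancel₀ _ hw0, sub_self])
  rw [phi_sub4, phi_smul4, sub_eq_zero] at h2
  rw [phi_sub3, phi_smul3, h2]
  field_simp
  ring

theorem exists_w0 (h2 : (2 : k) ≠ 0) (hT : SymT T) (hN : 5 ≤ N) (x v : Fin N → k) (hx : ND T x) :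
    ∃ w, phi T x x x w = 0 ∧ phi T x x v w = 0 ∧ phi T x x w w ≠ 0 := by
  by_contra hcon
  have h1 : ∀ w ∈ UU T x v, phi T x x w w = 0 := by
    intro w hw
    rw [mem_UU] at hw
    by_contra h
    exact hcon ⟨w, hw.1, hw.2, h⟩
  have h3 : ∀ u ∈ UU T x v, ∀ w ∈ UU T x v, phi T x x u w = 0 := by
    intro u hu w hw
    have h4 := h1 (u + w) (Submodule.add_mem _ hu hw)
    rw [phi_add3, phi_add4, phi_add4, h1 u hu, h1 w hw, phi_s34 hT x x w u] at h4
    have h5 : 2 * phi T x x u w = 0 := by
      rw [two_mul]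
      simpa using h4
    exact (mul_eq_zero.1 h5).resolve_left h2
  have hsymm : (bf T x).IsSymm := ⟨fun u w => by
    exact phi_s34 hT x x u w⟩
  have hnd : (bf T x).Nondegenerate := by
    refine ⟨fun r hr => hx r hr, fun r hr => hx r fun w => ?_⟩
    rw [phi_s34 hT]
    exact hr w
  have h6 := LinearMap.BilinForm.finrank_orthogonal hnd (UU T x v)
  have h7 : UU T x v ≤ (bf T x).orthogonal (UU T x v) := by
    intro w hw u hu
    exact h3 u hu w hw
  have h8 := Submodule.finrank_mono h7
  have h9 := finrank_UU T x v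
  rw [h6, Module.finrank_fin_fun] at h8
  omega

theorem exists_w2 (hN : 6 ≤ N) (x v a b c : Fin N → k) :
    ∃ w, phi T x x x w = 0 ∧ phi T x x v w = 0 ∧ w ∉ Submodule.span k {a, b, c} := by
  by_contra hcon
  have h1 : UU T x v ≤ Submodule.span k {a, b, c} := by
    intro w hw
    rw [mem_UU] at hw
    by_contra h
    exact hcon ⟨w, hw.1, hw.2, h⟩
  have h2 := Submodule.finrank_mono h1
  have h3 : Module.finrank k (Submodule.span k ({a, b, c} : Set (Fin N → k))) ≤ 3 := by
    classical
    have h4 := finrank_span_finset_le_card (R := k) ({a, b, c} : Finset (Fin N → k))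
    have h5 : ({a, b, c} : Finset (Fin N → k)).card ≤ 3 := Finset.card_le_three
    have h6 : ((({a, b, c} : Finset (Fin N → k)) : Set (Fin N → k))) = {a, b, c} := by
      simp
    rw [Set.finrank, h6] at h4
    exact h4.trans h5
  have h9 := finrank_UU T x v
  omega

theorem exists_iso [IsAlgClosed k] (hT : SymT T) (hN : 4 ≤ N) (x : Fin N → k)
    (hf : phi T x x x x = 0) : ∃ v, InW T x v ∧ ∀ c : k, v ≠ c • x := by
  classical
  have hker : N ≤ Module.finrank k (LinearMap.ker (bf T x x)) + 1 := by
    have h1 := LinearMap.finrank_range_add_finrank_ker (bf T x x)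
    have h2 : Module.finrank k (LinearMap.range (bf T x x)) ≤ 1 := by
      have h3 := Submodule.finrank_le (LinearMap.range (bf T x x))
      rw [Module.finrank_self] at h3
      exact h3
    rw [Module.finrank_fin_fun] at h1
    omega
  have key : ∀ s : Finset (Fin N → k), s.card ≤ 2 →
      ∃ w, phi T x x x w = 0 ∧ w ∉ Submodule.span k (s : Set (Fin N → k)) := by
    intro s hs
    by_contra hcon
    have h1 : LinearMap.ker (bf T x x) ≤ Submodule.span k (s : Set (Fin N → k)) := by
      intro w hw
      rw [LinearMap.mem_ker, bf_apply] at hw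
      by_contra h
      exact hcon ⟨w, hw, h⟩
    have h2 := Submodule.finrank_mono h1
    have h3 := finrank_span_finset_le_card (R := k) s
    rw [Set.finrank] at h3
    omega
  obtain ⟨a, ha, ha'⟩ := key {x} (by simp)
  obtain ⟨c, hc, hc'⟩ := key {x, a} Finset.card_le_two
  rw [Finset.coe_singleton] at ha'
  rw [Finset.coe_pair] at hc'
  have hax : ∀ l : k, a ≠ l • x := by
    intro l h
    exact ha' (h ▸ Submodule.smul_mem _ _ (Submodule.mem_span_singleton_self x))
  have hcx : ∀ l m : k, c ≠ l • x + m • a := by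
    intro l m h
    apply hc'
    rw [h, Submodule.mem_span_pair]
    exact ⟨l, m, rfl⟩
  by_cases hcc : phi T x x c c = 0
  · refine ⟨c, ⟨hf, hc, hcc⟩, fun l h => hcx l 0 ?_⟩
    rw [h, zero_smul, add_zero]
  · have hdeg : (C (phi T x x c c) * X ^ 2 + C (2 * phi T x x a c) * X + C (phi T x x a a) :
        Polynomial k).degree ≠ 0 := by
      rw [Polynomial.degree_quadratic hcc]
      decide
    obtain ⟨t, ht⟩ := IsAlgClosed.exists_root _ hdeg
    rw [Polynomial.IsRoot.def] at ht
    simp only [eval_add, eval_mul, eval_C, eval_pow, eval_X] at ht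
    refine ⟨a + t • c, ⟨hf, ?_, ?_⟩, ?_⟩
    · rw [phi_add4, phi_smul4, ha, hc, mul_zero, add_zero]
    · rw [phi_add3, phi_smul3, phi_add4, phi_add4, phi_smul4, phi_smul4, phi_s34 hT x x c a]
      linear_combination ht
    · intro l h
      by_cases ht0 : t = 0
      · apply hax l
        rw [← h, ht0, zero_smul, add_zero]
      · apply hcx (t⁻¹ * l) (-t⁻¹)
        have h1 : t • c = l • x - a := by
          rw [← h]
          abel
        calc c = t⁻¹ • (t • c) := by rw [smul_smul, inv_mul_cancel₀ ht0, one_smul]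
          _ = _ := by
            rw [h1, smul_sub, smul_smul, neg_smul, sub_eq_add_neg]

end Pool.Agent.Helper72.QT
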