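import Pool.Agent.Helper72.QT.Basic

/-!
# QT-05: approximate arcs in the incidence variety

`X`, `V` are vectors of polynomials in one variable `ε = Polynomial.X`.

PROOF. START (`m ≤ 2`): `Y = x + ε v`, `V = v`: by `InW` and `hc`, `phi T Y Y Y Y = ε⁴ f(v)`, `phi T Y Y Y V = ε³ f(v)`, `phi T Y Y V V = ε² f(v)`.
STEP `m → m + 1` for `m ≥ 2`: put `Y' = Y + ε^m (a e)`, `V' = V + ε^m (b e + c g)` with constants `a, b, c` of `k`, where `phi T x x x e = 1` and `phi T x x x g = 0`, `phi T x x v g = 1`. Modulo `ε^(m+1)`: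
`phi T Y' Y' Y' Y' = phi T Y Y Y Y + 4 a ε^m`, `phi T Y' Y' Y' V' = phi T Y Y Y V + ε^m (3 a phi T x x e v + b)`, `phi T Y' Y' V' V' = phi T Y Y V V + ε^m (2 a phi T x e v v + 2 b phi T x x v e + 2 c)`
(only the constant coefficients `x`, `v` of `Y`, `V` matter, because `2 m ≥ m + 1`). The three given values are `ε^m` times something: solve for `a`, then `b`, then `c` (`2 ≠ 0`).
EXISTENCE OF `e`, `g`: `x ≠ 0` (otherwise `ND` gives `v = 0 = 0 • x`), so by `ND` there is `w` with `phi T x x x w ≠ 0`, scale. If `phi T x x v g = 0` for all `g` in the kernel of `l_x = phi T x x x .`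
then `phi T x x v w = c0 * phi T x x x w` for all `w` (`c0 = phi T x x v e`, apply to `w - l_x(w) e`), so `phi T x x (v - c0 x) w = 0` for all `w`, `v = c0 • x` by `ND`, contradiction to `hv`.
-/

set_option autoImplicit false

namespace Pool.Agent.Helper72.QT

open Polynomial

variable {k : Type*} [Field k] {N : ℕ} {T : Ten k N}

/-- expansions -/
private theorem nw_exp1 (hT : SymT T) {R : Type*} [CommRing R] [Algebra k R] (Y E : Fin N → R) (t : R) :
    phi T (Y + t • E) (Y + t • E) (Y + t • E) (Y + t • E) =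
      phi T Y Y Y Y + t * (4 * phi T Y Y Y E +
        t * (6 * phi T Y Y E E + 4 * t * phi T Y E E E + t ^ 2 * phi T E E E E)) := by
  rw [phi_line hT]
  ring

private theorem nw_exp2 (hT : SymT T) {R : Type*} [CommRing R] [Algebra k R] (Y V E F : Fin N → R) (t : R) :
    phi T (Y + t • E) (Y + t • E) (Y + t • E) (V + t • F) =
      phi T Y Y Y V + t * ((3 * phi T Y Y E V + phi T Y Y Y F) +
        t * (3 * phi T Y E E V + 3 * phi T Y Y E F + t * (phi T E E E V + 3 * phi T Y E E F) +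
          t ^ 2 * phi T E E E F)) := by
  simp only [phi_add1, phi_add2, phi_add3, phi_add4, phi_smul1, phi_smul2, phi_smul3, phi_smul4]
  simp only [phi_s12 hT, phi_s23 hT, phi_s34 hT]
  ring

private theorem nw_exp3 (hT : SymT T) {R : Type*} [CommRing R] [Algebra k R] (Y V E F : Fin N → R) (t : R) :
    phi T (Y + t • E) (Y + t • E) (V + t • F) (V + t • F) =
      phi T Y Y V V + t * ((2 * phi T Y E V V + 2 * phi T Y Y V F) +
        t * (phi T E E V V + 4 * phi T Y E V F + phi T Y Y F F +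
          t * (2 * phi T E E V F + 2 * phi T Y E F F) + t ^ 2 * phi T E E F F)) := by
  simp only [phi_add1, phi_add2, phi_add3, phi_add4, phi_smul1, phi_smul2, phi_smul3, phi_smul4]
  simp only [phi_s12 hT, phi_s23 hT, phi_s34 hT]
  ring

private theorem nw_const (a b c d : Fin N → k) :
    phi T (fun i => (C (a i) : k[X])) (fun i => C (b i)) (fun i => C (c i)) (fun i => C (d i)) =
      C (phi T a b c d) :=
  phi_algebraMap T (S := k[X]) a b c d

private theorem nw_eval (A B D E : Fin N → k[X]) :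
    (phi T A B D E).eval 0 = phi T (fun i => (A i).eval 0) (fun i => (B i).eval 0)
      (fun i => (D i).eval 0) (fun i => (E i).eval 0) := by
  have h := phi_map T (Polynomial.aeval (0 : k) : k[X] →ₐ[k] k) A B D E
  simp only [Polynomial.coe_aeval_eq_eval] at h
  exact h.symm

private theorem nw_dvd {P Z : k[X]} {m : ℕ} (hP : P = X ^ m * Z) (hZ : Z.eval 0 = 0) :
    X ^ (m + 1) ∣ P := by
  rw [hP, pow_succ]
  apply mul_dvd_mul_left
  rw [Polynomial.X_dvd_iff, Polynomial.coeff_zero_eq_eval_zero]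
  exact hZ

private theorem nw_eg (x v : Fin N → k) (hx : ND T x) (hv : ∀ c : k, v ≠ c • x) :
    ∃ e g : Fin N → k, phi T x x x e = 1 ∧ phi T x x x g = 0 ∧ phi T x x v g = 1 := by
  have hx0 : x ≠ 0 := by
    rintro rfl
    apply hv 0
    rw [zero_smul]
    exact hx v (fun w => phi_zero1 T _ _ _)
  obtain ⟨w, hw⟩ : ∃ w, phi T x x x w ≠ 0 := by
    by_contra hcon
    push Not at hcon
    exact hx0 (hx x hcon)
  have he : phi T x x x ((phi T x x x w)⁻¹ • w) = 1 := by
    rw [phi_smul4, inv_mul_cancel₀ hw]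
  obtain ⟨e, hedef⟩ : ∃ e : Fin N → k, e = (phi T x x x w)⁻¹ • w := ⟨_, rfl⟩
  rw [← hedef] at he
  obtain ⟨g, hg1, hg2⟩ : ∃ g, phi T x x x g = 0 ∧ phi T x x v g ≠ 0 := by
    by_contra hcon
    push Not at hcon
    apply hv (phi T x x v e)
    have h1 : ∀ u, phi T x x (v - (phi T x x v e) • x) u = 0 := by
      intro u
      have h2 : phi T x x x (u - (phi T x x x u) • e) = 0 := by
        rw [phi_sub4, phi_smul4, he, mul_one, sub_self]
      have h3 := hcon _ h2
      rw [phi_sub4, phi_smul4] at h3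
      rw [phi_sub3, phi_smul3]
      linear_combination h3
    exact sub_eq_zero.1 (hx _ h1)
  refine ⟨e, (phi T x x v g)⁻¹ • g, he, ?_, ?_⟩
  · rw [phi_smul4, hg1, mul_zero]
  · rw [phi_smul4, inv_mul_cancel₀ hg2]

private theorem nw_start (hT : SymT T) (x v : Fin N → k) (h : InW T x v)
    (hc : phi T x v v v = 0) :
    ∃ Y V : Fin N → k[X], (∀ i, X ^ 2 ∣ Y i - (C (x i) + X * C (v i))) ∧
      (∀ i, X ^ 2 ∣ V i - C (v i)) ∧
      X ^ 2 ∣ phi T Y Y Y Y ∧ X ^ 2 ∣ phi T Y Y Y V ∧ X ^ 2 ∣ phi T Y Y V V := by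
  obtain ⟨cx, hcx⟩ : ∃ cx : Fin N → k[X], cx = fun i => C (x i) := ⟨_, rfl⟩
  obtain ⟨cv, hcv⟩ : ∃ cv : Fin N → k[X], cv = fun i => C (v i) := ⟨_, rfl⟩
  have h0 : phi T cx cx cx cx = 0 := by
    rw [hcx, nw_const, h.f, C_0]
  have h1 : phi T cx cx cx cv = 0 := by
    rw [hcx, hcv, nw_const, h.l, C_0]
  have h2 : phi T cx cx cv cv = 0 := by
    rw [hcx, hcv, nw_const, h.q, C_0]
  have h3 : phi T cx cv cv cv = 0 := by
    rw [hcx, hcv, nw_const, hc, C_0]
  have hV : cv = cv + (X : k[X]) • (0 : Fin N → k[X]) := by simp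
  refine ⟨cx + (X : k[X]) • cv, cv, fun i => ?_, fun i => ?_, ?_, ?_, ?_⟩
  · rw [hcx, hcv]
    simp
  · rw [hcv]
    simp
  · rw [nw_exp1 hT, h0, h1, h2, h3]
    exact ⟨X ^ 2 * phi T cv cv cv cv, by ring⟩
  · have h4 := nw_exp2 hT cx cv cv 0 (X : k[X])
    rw [← hV] at h4
    rw [h4, h1, h2, h3, phi_zero4, phi_zero4, phi_zero4, phi_zero4]
    exact ⟨X * phi T cv cv cv cv, by ring⟩
  · have h4 := nw_exp3 hT cx cv cv 0 (X : k[X])
    rw [← hV] at h4
    rw [h4, h2, h3, phi_zero4, phi_zero4, phi_zero4, phi_zero4, phi_zero4, phi_zero4]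
    exact ⟨phi T cv cv cv cv, by ring⟩

theorem newton (h2 : (2 : k) ≠ 0) (hT : SymT T) (x v : Fin N → k) (hx : ND T x) (h : InW T x v)
    (hc : phi T x v v v = 0) (hv : ∀ c : k, v ≠ c • x) (m : ℕ) :
    ∃ Y V : Fin N → k[X], (∀ i, X ^ 2 ∣ Y i - (C (x i) + X * C (v i))) ∧
      (∀ i, X ^ 2 ∣ V i - C (v i)) ∧
      X ^ m ∣ phi T Y Y Y Y ∧ X ^ m ∣ phi T Y Y Y V ∧ X ^ m ∣ phi T Y Y V V := by
  obtain ⟨e, g, he, hg, hvg⟩ := nw_eg x v hx hv
  have h4 : (4 : k) ≠ 0 := by
    have h5 : (4 : k) = 2 * 2 := by norm_num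
    rw [h5]
    exact mul_ne_zero h2 h2
  have main : ∀ m : ℕ, 2 ≤ m → ∃ Y V : Fin N → k[X],
      (∀ i, X ^ 2 ∣ Y i - (C (x i) + X * C (v i))) ∧
      (∀ i, X ^ 2 ∣ V i - C (v i)) ∧
      X ^ m ∣ phi T Y Y Y Y ∧ X ^ m ∣ phi T Y Y Y V ∧ X ^ m ∣ phi T Y Y V V := by
    intro m hm
    induction m, hm using Nat.le_induction with
    | base => exact nw_start hT x v h hc
    | succ m hm ih =>
      obtain ⟨Y, V, hY, hV, ⟨p, hp⟩, ⟨q, hq⟩, ⟨r, hr⟩⟩ := ih
      obtain ⟨a, ha⟩ : ∃ a : k, a = -(p.eval 0) / 4 := ⟨_, rfl⟩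
      obtain ⟨b, hb⟩ : ∃ b : k, b = -(q.eval 0) - 3 * a * phi T x x e v := ⟨_, rfl⟩
      obtain ⟨c, hcc⟩ : ∃ c : k, c = -(r.eval 0 + 2 * a * phi T x e v v +
        2 * b * phi T x x v e) / 2 := ⟨_, rfl⟩
      obtain ⟨E, hE⟩ : ∃ E : Fin N → k[X], E = fun i => C ((a • e) i) := ⟨_, rfl⟩
      obtain ⟨F, hF⟩ : ∃ F : Fin N → k[X], F = fun i => C ((b • e + c • g) i) := ⟨_, rfl⟩
      have hE0 : (fun i => (E i).eval 0) = a • e := by
        rw [hE]
        funext i
        simp
      have hF0 : (fun i => (F i).eval 0) = b • e + c • g := by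
        rw [hF]
        funext i
        simp
      have hY0 : (fun i => (Y i).eval 0) = x := by
        funext i
        obtain ⟨s, hs⟩ := hY i
        have h5 : Y i = (C (x i) + X * C (v i)) + X ^ 2 * s := by
          rw [← hs]
          ring
        show (Y i).eval 0 = x i
        rw [h5]
        simp
      have hV0 : (fun i => (V i).eval 0) = v := by
        funext i
        obtain ⟨s, hs⟩ := hV i
        have h5 : V i = C (v i) + X ^ 2 * s := by
          rw [← hs]
          ring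
        show (V i).eval 0 = v i
        rw [h5]
        simp
      have hXm : (X : k[X]) ^ 2 ∣ X ^ m := pow_dvd_pow _ hm
      have hm0 : ((X : k[X]) ^ m).eval 0 = 0 := by
        simp only [eval_pow, eval_X]
        exact zero_pow (by omega)
      refine ⟨Y + (X ^ m : k[X]) • E, V + (X ^ m : k[X]) • F, fun i => ?_, fun i => ?_, ?_, ?_, ?_⟩
      · have h5 : (Y + (X ^ m : k[X]) • E) i - (C (x i) + X * C (v i)) =
            (Y i - (C (x i) + X * C (v i))) + X ^ m * E i := by
          simp only [Pi.add_apply, Pi.smul_apply, smul_eq_mul]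
          ring
        rw [h5]
        exact dvd_add (hY i) (hXm.mul_right _)
      · have h5 : (V + (X ^ m : k[X]) • F) i - C (v i) =
            (V i - C (v i)) + X ^ m * F i := by
          simp only [Pi.add_apply, Pi.smul_apply, smul_eq_mul]
          ring
        rw [h5]
        exact dvd_add (hV i) (hXm.mul_right _)
      · refine nw_dvd (Z := p + (4 * phi T Y Y Y E +
          X ^ m * (6 * phi T Y Y E E + 4 * X ^ m * phi T Y E E E +
            (X ^ m) ^ 2 * phi T E E E E))) ?_ ?_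
        · rw [nw_exp1 hT, hp]
          ring
        · rw [eval_add, eval_add, eval_mul, eval_mul (p := X ^ m), hm0, nw_eval, hY0, hE0,
            phi_smul4, he, ha]
          simp only [eval_ofNat]
          field_simp
          ring
      · refine nw_dvd (Z := q + ((3 * phi T Y Y E V + phi T Y Y Y F) +
          X ^ m * (3 * phi T Y E E V + 3 * phi T Y Y E F +
            X ^ m * (phi T E E E V + 3 * phi T Y E E F) +
          (X ^ m) ^ 2 * phi T E E E F))) ?_ ?_
        · rw [nw_exp2 hT, hq]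
          ring
        · rw [eval_add, eval_add, eval_add, eval_mul, eval_mul (p := X ^ m), hm0, nw_eval, nw_eval,
            hY0, hE0, hV0, hF0, phi_add4, phi_smul4, phi_smul4, phi_smul3, he, hg, hb]
          simp only [eval_ofNat]
          ring
      · refine nw_dvd (Z := r + ((2 * phi T Y E V V + 2 * phi T Y Y V F) +
          X ^ m * (phi T E E V V + 4 * phi T Y E V F + phi T Y Y F F +
          X ^ m * (2 * phi T E E V F + 2 * phi T Y E F F) + (X ^ m) ^ 2 * phi T E E F F))) ?_ ?_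
        · rw [nw_exp3 hT, hr]
          ring
        · rw [eval_add, eval_add, eval_add, eval_mul, eval_mul (q := phi T Y Y V F),
            eval_mul (p := X ^ m), hm0, nw_eval, nw_eval,
            hY0, hE0, hV0, hF0, phi_add4, phi_smul4, phi_smul4, phi_smul2, hvg, hcc]
          simp only [eval_ofNat]
          field_simp
          ring
  rcases le_or_gt 2 m with hm | hm
  · exact main m hm
  · obtain ⟨Y, V, h1, h3, h5, h6, h7⟩ := main 2 le_rfl
    have hdvd : (X : k[X]) ^ m ∣ X ^ 2 := pow_dvd_pow _ hm.le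
    exact ⟨Y, V, h1, h3, hdvd.trans h5, hdvd.trans h6, hdvd.trans h7⟩

end Pool.Agent.Helper72.QT
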