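import Pool.Agent.Helper72.QT.Basic

/-!
# QT-18: the conic bundle over the curve

`x, σ, e : Fin 5 → k[X]` etc. Let `π(u) = phi T x x x e • u - phi T x x x u • e` for `u : Fin 5 → k[X]`, so `phi T x x x (π u) = 0`. Let `a = π(w0)`, `b = π(w1)` (`w0, w1` mapped by `C`) in `k[X]^5`, and
`p0 = q(a) σ - 2 b(σ,a) a`, `p1 = 2 b(a,b) σ - 2 b(σ,a) b - 2 b(σ,b) a`, `p2 = q(b) σ - 2 b(σ,b) b` (`q(u) = phi T x x u u`, `b(u,w) = phi T x x u w`). Then for all `s` in a `k[X]`-algebra: `stereo T x σ (a + s b) = p0 + s p1 + s² p2`.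

PROOF. `InW T x (p0 + s p1 + s² p2)` over `KK k` (all vectors mapped with `algebraMap k[X] (KK k)`) is `stereo_l`, `stereo_q`. `c_x(p0 + s p1 + s² p2) ≠ 0`: it is a polynomial in `s = RatFunc.X` over `RatFunc k`, with constant term
`c_x(p0) ∈ k[X]` whose value at `0` is: `x(0) = μ x0`, `σ(0) = s0`, `e = C e0` with `l_{x0}(e0) = 1`: `π(w0)(0) = μ³ w0` (as `l_{x0}(w0) = 0`), so `p0(0) = stereo T (μ x0) s0 (μ³ w0) = μ² μ⁶ stereo T x0 s0 w0`, and `c_{μ x0}` of it is
`μ μ^24 c_{x0}(stereo T x0 s0 w0) ≠ 0` (`hc`). A polynomial over `RatFunc k` with nonzero constant term, evaluated at `s = RatFunc.X`, is not zero (`RatFunc.X` is transcendental over `RatFunc k`).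
`b(p0, p2) = -2 (b(σ,b)² q(a) - 2 b(σ,a) b(σ,b) b(a,b) + b(σ,a)² q(b))` (expand; `q(σ) = 0`), which is not `0`: its value at `0` is a nonzero power of `μ` times the expression of `hβ` times `-2`. All of `b(p0,p0)`, `b(p0,p1)`, `b(p1,p2)`, `b(p2,p2)`,
`2 b(p0,p2) + b(p1,p1)` are `0` (expand, or compare the coefficients of `s` in `q(p0 + s p1 + s² p2) = 0`).
-/

set_option autoImplicit false

namespace Pool.Agent.Helper72.QT

open Polynomial

variable {k : Type*} [Field k] {T : Ten k 5}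

/-- vectors of `k[X]^5` in `RatFunc k` -/
noncomputable abbrev toR (x : Fin 5 → k[X]) : Fin 5 → RatFunc k := fun i => algebraMap k[X] (RatFunc k) (x i)

/-- vectors over `RatFunc k` in `KK k` -/
noncomputable abbrev toK (x : Fin 5 → RatFunc k) : Fin 5 → KK k :=
  fun i => algebraMap (RatFunc k) (KK k) (x i)

section alg

variable {R : Type*} [CommRing R] [Algebra k R]

private lemma stereo_b (hT : SymT T) {x σ a b : Fin 5 → R} (hσ : phi T x x σ σ = 0) :
    phi T x x (stereo T x σ a) (stereo T x σ b) =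
      -2 * (phi T x x σ b ^ 2 * phi T x x a a -
        2 * phi T x x σ a * phi T x x σ b * phi T x x a b +
        phi T x x σ a ^ 2 * phi T x x b b) := by
  have h1 : phi T x x a σ = phi T x x σ a := phi_s34 hT _ _ _ _
  simp only [stereo, phi_sub3, phi_sub4, phi_smul3, phi_smul4, h1, hσ]
  ring

/-- the middle coefficient -/
private def mid1 (T : Ten k 5) (x σ a b : Fin 5 → R) : Fin 5 → R :=
  (2 * phi T x x a b) • σ - (2 * phi T x x σ a) • b - (2 * phi T x x σ b) • a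

private lemma mid_l {x σ a b : Fin 5 → R} (hσ : phi T x x x σ = 0) (ha : phi T x x x a = 0)
    (hb : phi T x x x b = 0) : phi T x x x (mid1 T x σ a b) = 0 := by
  simp only [mid1, phi_sub4, phi_smul4, hσ, ha, hb]
  ring

private lemma mid_left (hT : SymT T) {x σ a b : Fin 5 → R} (hσ : phi T x x σ σ = 0) :
    phi T x x (stereo T x σ a) (mid1 T x σ a b) = 0 := by
  have h1 : phi T x x a σ = phi T x x σ a := phi_s34 hT _ _ _ _
  simp only [stereo, mid1, phi_sub3, phi_sub4, phi_smul3, phi_smul4, h1, hσ]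
  ring

private lemma mid_right (hT : SymT T) {x σ a b : Fin 5 → R} (hσ : phi T x x σ σ = 0) :
    phi T x x (mid1 T x σ a b) (stereo T x σ b) = 0 := by
  have h1 : phi T x x a σ = phi T x x σ a := phi_s34 hT _ _ _ _
  have h2 : phi T x x b σ = phi T x x σ b := phi_s34 hT _ _ _ _
  simp only [stereo, mid1, phi_sub3, phi_sub4, phi_smul3, phi_smul4, h1, h2, hσ]
  ring

private lemma mid_mid (hT : SymT T) {x σ a b : Fin 5 → R} (hσ : phi T x x σ σ = 0) :
    2 * phi T x x (stereo T x σ a) (stereo T x σ b) +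
      phi T x x (mid1 T x σ a b) (mid1 T x σ a b) = 0 := by
  have h1 : phi T x x a σ = phi T x x σ a := phi_s34 hT _ _ _ _
  have h2 : phi T x x b σ = phi T x x σ b := phi_s34 hT _ _ _ _
  have h3 : phi T x x b a = phi T x x a b := phi_s34 hT _ _ _ _
  rw [stereo_b hT hσ]
  simp only [mid1, phi_sub3, phi_sub4, phi_smul3, phi_smul4, h1, h2, h3, hσ]
  ring

/-- projection along `e` to the kernel of `l_x` -/
private def prj (T : Ten k 5) (x e u : Fin 5 → R) : Fin 5 → R :=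
  phi T x x x e • u - phi T x x x u • e

private lemma prj_l (x e u : Fin 5 → R) : phi T x x x (prj T x e u) = 0 := by
  simp only [prj, phi_sub4, phi_smul4]
  ring

private lemma prj_map {S : Type*} [CommRing S] [Algebra k S] (g : R →ₐ[k] S)
    (x e u : Fin 5 → R) :
    (fun i => g (prj T x e u i)) = prj T (fun i => g (x i)) (fun i => g (e i)) fun i => g (u i) := by
  funext i
  simp only [prj, Pi.sub_apply, Pi.smul_apply, smul_eq_mul, map_sub, map_mul, phi_map]

private lemma stereo_map {S : Type*} [CommRing S] [Algebra k S] (g : R →ₐ[k] S)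
    (x e u : Fin 5 → R) :
    (fun i => g (stereo T x e u i)) =
      stereo T (fun i => g (x i)) (fun i => g (e i)) fun i => g (u i) := by
  funext i
  simp only [stereo, Pi.sub_apply, Pi.smul_apply, smul_eq_mul, map_sub, map_mul, phi_map,
    map_ofNat]

private lemma stereo_smul (x u w : Fin 5 → R) (μ κ : R) :
    stereo T (μ • x) u (κ • w) = (μ ^ 2 * κ ^ 2) • stereo T x u w := by
  funext i
  simp only [stereo, Pi.sub_apply, Pi.smul_apply, smul_eq_mul, phi_smul1, phi_smul2, phi_smul3,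
    phi_smul4]
  ring

end alg

private lemma pen_ne (x' p0 p1 p2 : Fin 5 → RatFunc k) (h : phi T x' p0 p0 p0 ≠ 0) :
    phi T (toK x') (toK p0 + ss k • toK p1 + ss k ^ 2 • toK p2)
        (toK p0 + ss k • toK p1 + ss k ^ 2 • toK p2)
        (toK p0 + ss k • toK p1 + ss k ^ 2 • toK p2) ≠ 0 := by
  have e1 := phi_algebraMap T (R := (RatFunc k)[X]) (S := KK k) (fun i => C (x' i))
    (fun i => C (p0 i) + X * C (p1 i) + X ^ 2 * C (p2 i))
    (fun i => C (p0 i) + X * C (p1 i) + X ^ 2 * C (p2 i))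
    (fun i => C (p0 i) + X * C (p1 i) + X ^ 2 * C (p2 i))
  have e2 : (fun i => algebraMap (RatFunc k)[X] (KK k)
      (C (p0 i) + X * C (p1 i) + X ^ 2 * C (p2 i))) =
      toK p0 + ss k • toK p1 + ss k ^ 2 • toK p2 := by
    funext i
    rw [map_add, map_add, map_mul, map_mul, map_pow, RatFunc.algebraMap_X]
    rfl
  have e3 : (fun i => algebraMap (RatFunc k)[X] (KK k) (C (x' i))) = toK x' := by
    funext i
    rfl
  rw [e2, e3] at e1
  rw [e1]
  intro h0
  have h1 := (map_eq_zero_iff _ (RatFunc.algebraMap_injective (RatFunc k))).1 h0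
  have h2 := phi_map T ((aeval (0 : RatFunc k)).restrictScalars k)
    (fun i => (C (x' i) : (RatFunc k)[X]))
    (fun i => C (p0 i) + X * C (p1 i) + X ^ 2 * C (p2 i))
    (fun i => C (p0 i) + X * C (p1 i) + X ^ 2 * C (p2 i))
    (fun i => C (p0 i) + X * C (p1 i) + X ^ 2 * C (p2 i))
  rw [h1, map_zero] at h2
  simp only [AlgHom.restrictScalars_apply, map_add, map_mul, map_pow, aeval_X, aeval_C,
    Algebra.algebraMap_self, RingHom.id_apply, zero_mul, add_zero, ne_eq, OfNat.ofNat_ne_zero,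
    not_false_eq_true, zero_pow] at h2
  exact h h2

theorem pencil (h2 : (2 : k) ≠ 0) (hT : SymT T) (x0 s0 w0 w1 : Fin 5 → k) (μ : k) (hμ : μ ≠ 0)
    (hx0 : ∃ e, phi T x0 x0 x0 e ≠ 0)
    (x σ : Fin 5 → k[X]) (hf : phi T x x x x = 0) (hx : ∀ i, (x i).eval 0 = μ * x0 i)
    (hσ : ∀ i, (σ i).eval 0 = s0 i) (hl : phi T x x x σ = 0) (hq : phi T x x σ σ = 0)
    (l0 : phi T x0 x0 x0 w0 = 0) (l1 : phi T x0 x0 x0 w1 = 0)
    (hc : phi T x0 (stereo T x0 s0 w0) (stereo T x0 s0 w0) (stereo T x0 s0 w0) ≠ 0)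
    (hβ : phi T x0 x0 s0 w1 ^ 2 * phi T x0 x0 w0 w0 -
      2 * phi T x0 x0 s0 w0 * phi T x0 x0 s0 w1 * phi T x0 x0 w0 w1 +
        phi T x0 x0 s0 w0 ^ 2 * phi T x0 x0 w1 w1 ≠ 0) :
    ∃ p0 p1 p2 : Fin 5 → RatFunc k,
      phi T (toR x) (toR x) (toR x) p0 = 0 ∧ phi T (toR x) (toR x) (toR x) p1 = 0 ∧
      phi T (toR x) (toR x) (toR x) p2 = 0 ∧
      phi T (toR x) (toR x) p0 p0 = 0 ∧ phi T (toR x) (toR x) p0 p1 = 0 ∧
      2 * phi T (toR x) (toR x) p0 p2 + phi T (toR x) (toR x) p1 p1 = 0 ∧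
      phi T (toR x) (toR x) p1 p2 = 0 ∧ phi T (toR x) (toR x) p2 p2 = 0 ∧
      phi T (toR x) (toR x) p0 p2 ≠ 0 ∧
      phi T (toK (toR x)) (toK p0 + ss k • toK p1 + ss k ^ 2 • toK p2)
        (toK p0 + ss k • toK p1 + ss k ^ 2 • toK p2)
        (toK p0 + ss k • toK p1 + ss k ^ 2 • toK p2) ≠ 0 := by
  obtain ⟨e0, he0⟩ := hx0
  set e : Fin 5 → k[X] := fun i => C (e0 i) with he
  set a : Fin 5 → k[X] := prj T x e fun i => C (w0 i) with ha
  set b : Fin 5 → k[X] := prj T x e fun i => C (w1 i) with hb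
  have hal : phi T x x x a = 0 := prj_l x e _
  have hbl : phi T x x x b = 0 := prj_l x e _
  have hinj : Function.Injective (algebraMap k[X] (RatFunc k)) := RatFunc.algebraMap_injective k
  have hR : ∀ u v w z : Fin 5 → k[X], phi T (toR u) (toR v) (toR w) (toR z) =
      algebraMap k[X] (RatFunc k) (phi T u v w z) := fun u v w z => phi_algebraMap T u v w z
  -- evaluation at zero
  set g : k[X] →ₐ[k] k := aeval (0 : k) with hg
  have hgx : (fun i => g (x i)) = μ • x0 := by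
    funext i
    rw [Pi.smul_apply, smul_eq_mul, ← hx i, hg, coe_aeval_eq_eval]
  have hgσ : (fun i => g (σ i)) = s0 := by
    funext i
    rw [← hσ i, hg, coe_aeval_eq_eval]
  have hgC : ∀ u : Fin 5 → k, (fun i => g (C (u i))) = u := by
    intro u
    funext i
    rw [hg, aeval_C]
    rfl
  set κ : k := μ ^ 3 * phi T x0 x0 x0 e0 with hκ
  have hκ0 : κ ≠ 0 := mul_ne_zero (pow_ne_zero 3 hμ) he0
  have hprj : ∀ w : Fin 5 → k, phi T x0 x0 x0 w = 0 →
      (fun i => g (prj T x e (fun i => C (w i)) i)) = κ • w := by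
    intro w hw
    rw [prj_map, hgx, hgC, hgC]
    funext i
    simp only [prj, Pi.sub_apply, Pi.smul_apply, smul_eq_mul, phi_smul1, phi_smul2, phi_smul3, hw]
    rw [hκ]
    ring
  have hga : (fun i => g (a i)) = κ • w0 := hprj w0 l0
  have hgb : (fun i => g (b i)) = κ • w1 := hprj w1 l1
  refine ⟨toR (stereo T x σ a), toR (mid1 T x σ a b), toR (stereo T x σ b), ?_, ?_, ?_, ?_, ?_,
    ?_, ?_, ?_, ?_, ?_⟩
  · rw [hR, stereo_l hl hal, map_zero]
  · rw [hR, mid_l hl hal hbl, map_zero]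
  · rw [hR, stereo_l hl hbl, map_zero]
  · rw [hR, stereo_q hT hq, map_zero]
  · rw [hR, mid_left hT hq, map_zero]
  · have h1 := congrArg (algebraMap k[X] (RatFunc k)) (mid_mid (a := a) (b := b) hT hq)
    rw [map_add, map_mul, map_zero, map_ofNat] at h1
    rw [hR, hR]
    exact h1
  · rw [hR, mid_right hT hq, map_zero]
  · rw [hR, stereo_q hT hq, map_zero]
  · rw [hR]
    intro h0
    have h1 := (map_eq_zero_iff _ hinj).1 h0
    have h3 := congrArg g h1
    rw [map_zero, ← phi_map, stereo_map, stereo_map, hgx, hgσ, hga, hgb, stereo_smul, stereo_smul,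
      phi_smul1, phi_smul2, phi_smul3, phi_smul4] at h3
    have hq0 : phi T x0 x0 s0 s0 = 0 := by
      have h4 := congrArg g hq
      rw [map_zero, ← phi_map, hgx, hgσ, phi_smul1, phi_smul2] at h4
      have h5 := mul_eq_zero.1 h4
      rcases h5 with h5 | h5
      · exact absurd h5 hμ
      · rcases mul_eq_zero.1 h5 with h6 | h6
        · exact absurd h6 hμ
        · exact h6
    rw [stereo_b hT hq0] at h3
    have hne : μ * (μ * (μ ^ 2 * κ ^ 2 * (μ ^ 2 * κ ^ 2 * (-2)))) ≠ 0 :=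
      mul_ne_zero hμ (mul_ne_zero hμ (mul_ne_zero (mul_ne_zero (pow_ne_zero 2 hμ)
        (pow_ne_zero 2 hκ0)) (mul_ne_zero (mul_ne_zero (pow_ne_zero 2 hμ)
        (pow_ne_zero 2 hκ0)) (neg_ne_zero.2 h2))))
    refine mul_ne_zero hne hβ ?_
    rw [← h3]
    ring
  · refine pen_ne _ _ _ _ ?_
    rw [hR]
    intro h0
    have h1 := (map_eq_zero_iff _ hinj).1 h0
    have h3 := congrArg g h1
    rw [map_zero, ← phi_map, stereo_map, hgx, hgσ, hga, stereo_smul, phi_smul1, phi_smul2,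
      phi_smul3, phi_smul4] at h3
    have hne : μ * (μ ^ 2 * κ ^ 2 * (μ ^ 2 * κ ^ 2 * (μ ^ 2 * κ ^ 2))) ≠ 0 := by
      have h4 : μ ^ 2 * κ ^ 2 ≠ 0 := mul_ne_zero (pow_ne_zero 2 hμ) (pow_ne_zero 2 hκ0)
      exact mul_ne_zero hμ (mul_ne_zero h4 (mul_ne_zero h4 h4))
    refine mul_ne_zero hne hc ?_
    rw [← h3]
    ring

end Pool.Agent.Helper72.QT
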