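import Pool.Agent.Helper72.QT.Basic

/-!
# QT-01: polarisation of a quartic form

PROOF. Euler's identity (`MvPolynomial.IsHomogeneous.sum_X_mul_pderiv`) four times: `F` homogeneous of degree `4`, `∂_a F` of degree
`3` (`IsHomogeneous.pderiv`), ..., the fourth derivatives are homogeneous of degree `0`, so they are constants
(`IsHomogeneous` of degree 0: `MvPolynomial.totalDegree_eq_zero_iff_eq_C` or `isHomogeneous_zero_iff`...). So
`24 F = ∑ x_a x_b x_c x_d ∂_d ∂_c ∂_b ∂_a F` and `6 ∂_a F = ∑ x_b x_c x_d ∂_d ∂_c ∂_b ∂_a F`. The derivatives commute (`pderiv_X`-calculus: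
`MvPolynomial.pderiv` are derivations; two derivations `D D'` and `D' D` agree if they agree on monomials / use
`MvPolynomial.induction_on` or `Derivation` commutator `⁅D, D'⁆` is a derivation which vanishes on all `X i`, `MvPolynomial.derivation_ext`).
-/

set_option autoImplicit false

namespace Pool.Agent.Helper72.QT

open Polynomial

variable {k : Type*} [Field k] {N : ℕ}

/-- the tensor of a quartic form -/
noncomputable def polT (F : MvPolynomial (Fin N) k) : Ten k N := fun a b c d =>
  (24 : k)⁻¹ * MvPolynomial.constantCoeff (MvPolynomial.pderiv d (MvPolynomial.pderiv c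
    (MvPolynomial.pderiv b (MvPolynomial.pderiv a F))))

private theorem pderiv_swap (i j : Fin N) (F : MvPolynomial (Fin N) k) :
    MvPolynomial.pderiv i (MvPolynomial.pderiv j F) =
      MvPolynomial.pderiv j (MvPolynomial.pderiv i F) := by
  have h : ⁅(MvPolynomial.pderiv i : Derivation k (MvPolynomial (Fin N) k)
      (MvPolynomial (Fin N) k)), (MvPolynomial.pderiv j : Derivation k (MvPolynomial (Fin N) k)
      (MvPolynomial (Fin N) k))⁆ = 0 := by
    apply MvPolynomial.derivation_ext
    intro l
    rw [Derivation.commutator_apply, MvPolynomial.pderiv_X, MvPolynomial.pderiv_X,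
      Derivation.zero_apply, Pi.single_apply, Pi.single_apply]
    split_ifs <;> simp
  have h1 : ⁅(MvPolynomial.pderiv i : Derivation k (MvPolynomial (Fin N) k)
      (MvPolynomial (Fin N) k)), (MvPolynomial.pderiv j : Derivation k (MvPolynomial (Fin N) k)
      (MvPolynomial (Fin N) k))⁆ F = 0 := by
    rw [h, Derivation.zero_apply]
  rw [Derivation.commutator_apply] at h1
  exact sub_eq_zero.1 h1

private theorem euler {R : Type*} [CommRing R] [Algebra k R] (x : Fin N → R) (n : ℕ)
    (G : MvPolynomial (Fin N) k) (hG : G.IsHomogeneous n) :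
    (n : R) * MvPolynomial.aeval x G =
      ∑ a, x a * MvPolynomial.aeval x (MvPolynomial.pderiv a G) := by
  have h := congrArg (MvPolynomial.aeval x) hG.sum_X_mul_pderiv
  rw [map_sum, map_nsmul, nsmul_eq_mul] at h
  rw [← h]
  exact Finset.sum_congr rfl fun a _ => by rw [map_mul, MvPolynomial.aeval_X]

private theorem aeval_const {R : Type*} [CommRing R] [Algebra k R] (x : Fin N → R)
    (G : MvPolynomial (Fin N) k) (hG : G.IsHomogeneous 0) :
    MvPolynomial.aeval x G = algebraMap k R (MvPolynomial.constantCoeff G) := by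
  have h0 : G.totalDegree = 0 := Nat.le_zero.1 hG.totalDegree_le
  have h1 := MvPolynomial.totalDegree_eq_zero_iff_eq_C.1 h0
  conv_lhs => rw [h1]
  rw [MvPolynomial.aeval_C]
  rfl

private theorem euler3 {R : Type*} [CommRing R] [Algebra k R] (x : Fin N → R)
    (G : MvPolynomial (Fin N) k) (hG : G.IsHomogeneous 3) :
    (6 : R) * MvPolynomial.aeval x G =
      ∑ b, ∑ c, ∑ d, x b * x c * x d * algebraMap k R (MvPolynomial.constantCoeff
        (MvPolynomial.pderiv d (MvPolynomial.pderiv c (MvPolynomial.pderiv b G)))) := by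
  have h3 := euler x 3 G hG
  have h2 := fun b => euler x 2 (MvPolynomial.pderiv b G) (hG.pderiv (i := b))
  have h1 := fun b c => euler x 1 (MvPolynomial.pderiv c (MvPolynomial.pderiv b G))
    ((hG.pderiv (i := b)).pderiv (i := c))
  have h0 := fun b c d => aeval_const x
    (MvPolynomial.pderiv d (MvPolynomial.pderiv c (MvPolynomial.pderiv b G)))
    (((hG.pderiv (i := b)).pderiv (i := c)).pderiv (i := d))
  have e : (6 : R) * MvPolynomial.aeval x G = 2 * ((3 : ℕ) * MvPolynomial.aeval x G) := by
    push_cast; ring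
  rw [e, h3, Finset.mul_sum]
  refine Finset.sum_congr rfl fun b _ => ?_
  have e2 : 2 * (x b * MvPolynomial.aeval x (MvPolynomial.pderiv b G)) =
      x b * ((2 : ℕ) * MvPolynomial.aeval x (MvPolynomial.pderiv b G)) := by
    push_cast; ring
  rw [e2, h2 b, Finset.mul_sum]
  refine Finset.sum_congr rfl fun c _ => ?_
  have e1 : MvPolynomial.aeval x (MvPolynomial.pderiv c (MvPolynomial.pderiv b G)) =
      (1 : ℕ) * MvPolynomial.aeval x (MvPolynomial.pderiv c (MvPolynomial.pderiv b G)) := by
    push_cast; ring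
  rw [e1, h1 b c, Finset.mul_sum, Finset.mul_sum]
  refine Finset.sum_congr rfl fun d _ => ?_
  rw [h0 b c d]
  ring

theorem symT_polT (F : MvPolynomial (Fin N) k) : SymT (polT F) := by
  refine ⟨fun a b c d => ?_, fun a b c d => ?_, fun a b c d => ?_⟩
  · rw [polT, polT, pderiv_swap b a]
  · rw [polT, polT, pderiv_swap c b]
  · rw [polT, polT, pderiv_swap d c]

theorem aeval_polT (h2 : (2 : k) ≠ 0) (h3 : (3 : k) ≠ 0) (F : MvPolynomial (Fin N) k)
    (hF : F.IsHomogeneous 4) {R : Type*} [CommRing R] [Algebra k R] (x : Fin N → R) :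
    MvPolynomial.aeval x F = phi (polT F) x x x x := by
  have h24 : (24 : k) ≠ 0 := by
    have : (24 : k) = 2 * 2 * 2 * 3 := by norm_num
    rw [this]
    exact mul_ne_zero (mul_ne_zero (mul_ne_zero h2 h2) h2) h3
  have h4 := euler x 4 F hF
  have e1 : MvPolynomial.aeval x F =
      algebraMap k R (24 : k)⁻¹ * (6 * ((4 : ℕ) * MvPolynomial.aeval x F)) := by
    have h5 : algebraMap k R (24 : k)⁻¹ * 24 = 1 := by
      have : (24 : R) = algebraMap k R 24 := (map_ofNat (algebraMap k R) 24).symm
      rw [this, ← map_mul, inv_mul_cancel₀ h24, map_one]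
    calc MvPolynomial.aeval x F = (algebraMap k R (24 : k)⁻¹ * 24) * MvPolynomial.aeval x F := by
          rw [h5, one_mul]
      _ = _ := by push_cast; ring
  rw [e1, h4, Finset.mul_sum, Finset.mul_sum, phi]
  refine Finset.sum_congr rfl fun a _ => ?_
  have e2 : algebraMap k R (24 : k)⁻¹ *
      (6 * (x a * MvPolynomial.aeval x (MvPolynomial.pderiv a F))) =
      algebraMap k R (24 : k)⁻¹ * x a *
        (6 * MvPolynomial.aeval x (MvPolynomial.pderiv a F)) := by ring
  rw [e2, euler3 x _ (hF.pderiv (i := a)), Finset.mul_sum]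
  refine Finset.sum_congr rfl fun b _ => ?_
  rw [Finset.mul_sum]
  refine Finset.sum_congr rfl fun c _ => ?_
  rw [Finset.mul_sum]
  refine Finset.sum_congr rfl fun d _ => ?_
  rw [polT, map_mul]
  ring

theorem eval_pderiv_polT (h2 : (2 : k) ≠ 0) (h3 : (3 : k) ≠ 0) (F : MvPolynomial (Fin N) k)
    (hF : F.IsHomogeneous 4) (x : Fin N → k) (a : Fin N) :
    MvPolynomial.eval x (MvPolynomial.pderiv a F) = 4 * phi (polT F) x x x (Pi.single a 1) := by
  have h24 : (24 : k) ≠ 0 := by
    have : (24 : k) = 2 * 2 * 2 * 3 := by norm_num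
    rw [this]
    exact mul_ne_zero (mul_ne_zero (mul_ne_zero h2 h2) h2) h3
  have hs := symT_polT F
  have e1 : phi (polT F) x x x (Pi.single a 1) = phi (polT F) (Pi.single a 1) x x x := by
    rw [phi_s34 hs, phi_s23 hs, phi_s12 hs]
  have e3 := euler3 x _ (hF.pderiv (i := a))
  have e4 : MvPolynomial.aeval x (MvPolynomial.pderiv a F) =
      MvPolynomial.eval x (MvPolynomial.pderiv a F) := congrFun (MvPolynomial.aeval_eq_eval x) _
  rw [e4] at e3
  have e2 : 24 * phi (polT F) (Pi.single a 1) x x x =
      6 * MvPolynomial.eval x (MvPolynomial.pderiv a F) := by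
    refine Eq.trans ?_ e3.symm
    rw [phi, Finset.sum_eq_single a]
    · rw [Finset.mul_sum]
      refine Finset.sum_congr rfl fun b _ => ?_
      rw [Finset.mul_sum]
      refine Finset.sum_congr rfl fun c _ => ?_
      rw [Finset.mul_sum]
      refine Finset.sum_congr rfl fun d _ => ?_
      rw [polT, Pi.single_eq_same]
      simp only [Algebra.algebraMap_self, RingHom.id_apply, mul_one]
      field_simp
    · intro b _ hb
      simp [Pi.single_eq_of_ne hb]
    · intro h
      exact absurd (Finset.mem_univ a) h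
  have h6 : (6 : k) ≠ 0 := by
    have : (6 : k) = 2 * 3 := by norm_num
    rw [this]
    exact mul_ne_zero h2 h3
  rw [e1]
  apply mul_left_cancel₀ h6
  rw [← e2]
  ring

end Pool.Agent.Helper72.QT
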