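import Pool.Agent.Helper72.QT.Basic
import Pool.Agent.Helper41.Eggert.Zero

/-!
# QT-02: a smooth quartic form in at least three variables is prime

`fP T` is the quartic as a polynomial (`Basic`), `aeval_fP` its values.

PROOF. `MvPolynomial (Fin N) k` is a UFD, so it is enough that `F = fP T` is irreducible. It is not a unit and not zero: `F(0) = 0`; if `F = 0` then
all values vanish, so by `phi_line` (coefficient of `t`, `k` infinite; or the polynomial identity over `R = k[X]`, coefficient of `X`) `4 phi T x x x v = 0` for all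
`x, v`, contradiction to `Smo`. Let `F = g h`.
(1) `g(0) = h(0) = 0`: `Helper41.Eggert.exists_ne_zero_common_zero` (two polynomials, `N ≥ 3` variables) gives `z ≠ 0` with `g(z) = h(z) = 0`. For `v` evaluate at
`z + X v ∈ k[X]^N`: `X` divides `g(z + X v)` and `h(z + X v)`, so `X^2` divides `F(z + X v)`, whose coefficient of `X` is `4 phi T z z z v` (`phi_line`): zero for all `v`.
Contradiction to `Smo`.
(2) `g(0) ≠ 0` (the other case is the same with `h`): then `g` is a constant. For every `x` with `F(x) ≠ 0` the polynomials `g(X x)`, `h(X x)` in `k[X]` have the product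
`X^4 F(x)` (`phi_smul`), so `g(X x)` divides `X^4` up to a constant, so it is `c X^j` (`(Polynomial.prime_X).dvd_prime_pow`-lemmas: `dvd_prime_pow`), and its value at
`0` is `g(0) ≠ 0`, so `j = 0` and `g(x) = g(0)`. So the polynomial `(g - C (g 0)) * F` vanishes at all points of `k^N`, so it is `0` (`MvPolynomial.funext`, `k` infinite), so
`g = C (g 0)` is a unit.
-/

set_option autoImplicit false

namespace Pool.Agent.Helper72.QT

open Polynomial

variable {k : Type*} [Field k] [IsAlgClosed k] {N : ℕ} {T : Ten k N}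

omit [IsAlgClosed k] in
private theorem pf_ae (x : Fin N → k) (g : MvPolynomial (Fin N) k) :
    MvPolynomial.aeval x g = MvPolynomial.eval x g :=
  DFunLike.congr_fun (MvPolynomial.coe_aeval_eq_eval x) g

omit [IsAlgClosed k] in
/-- restriction of a polynomial to a line -/
private theorem pf_eval (y : Fin N → k[X]) (c : k) (g : MvPolynomial (Fin N) k) :
    Polynomial.eval c (MvPolynomial.aeval y g) =
      MvPolynomial.eval (fun i => Polynomial.eval c (y i)) g := by
  have h : (Polynomial.aeval c : k[X] →ₐ[k] k).comp (MvPolynomial.aeval y) =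
      MvPolynomial.aeval (fun i => Polynomial.eval c (y i)) := by
    apply MvPolynomial.algHom_ext
    intro i
    simp
  have h1 := DFunLike.congr_fun h g
  rw [AlgHom.comp_apply, pf_ae] at h1
  rw [← h1, Polynomial.coe_aeval_eq_eval]

omit [IsAlgClosed k] in
/-- the coefficient of `X` of the quartic on a line -/
private theorem pf_coeff (hT : SymT T) (z v : Fin N → k) :
    (MvPolynomial.aeval ((fun i => C (z i)) + (X : k[X]) • (fun i => C (v i))) (fP T)).coeff 1 =
      4 * phi T z z z v := by
  rw [aeval_fP, phi_line hT]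
  have h1 : phi T (fun i => C (z i)) (fun i => C (z i)) (fun i => C (z i)) (fun i => C (z i)) =
      C (phi T z z z z) := phi_algebraMap (S := k[X]) T z z z z
  have h2 : phi T (fun i => C (z i)) (fun i => C (z i)) (fun i => C (z i)) (fun i => C (v i)) =
      C (phi T z z z v) := phi_algebraMap (S := k[X]) T z z z v
  rw [h1, h2]
  generalize phi T (fun i => C (z i)) (fun i => C (z i)) (fun i => C (v i)) (fun i => C (v i)) = a
  generalize phi T (fun i => C (z i)) (fun i => C (v i)) (fun i => C (v i)) (fun i => C (v i)) = b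
  generalize phi T (fun i => C (v i)) (fun i => C (v i)) (fun i => C (v i)) (fun i => C (v i)) = c
  have h3 : C (phi T z z z z) + 4 * X * C (phi T z z z v) + 6 * X ^ 2 * a + 4 * X ^ 3 * b +
      X ^ 4 * c = C (phi T z z z z) + C (4 * phi T z z z v) * X +
        (6 * a + 4 * X * b + X ^ 2 * c) * X ^ 2 := by
    rw [C_mul, show (C (4 : k) : k[X]) = 4 from rfl]
    ring
  rw [h3, coeff_add, coeff_add, coeff_C, coeff_mul_X_pow', coeff_C_mul, coeff_X_one]
  simp

omit [IsAlgClosed k] in
private theorem pf_four (h2 : (2 : k) ≠ 0) : (4 : k) ≠ 0 := by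
  have : (4 : k) = 2 * 2 := by norm_num
  rw [this]
  exact mul_ne_zero h2 h2

omit [IsAlgClosed k] in
private theorem pf_ne (h2 : (2 : k) ≠ 0) (hT : SymT T) (hS : Smo T) (hN : 3 ≤ N) : fP T ≠ 0 := by
  intro h0
  have hz : (Pi.single (⟨0, by omega⟩ : Fin N) (1 : k) : Fin N → k) ≠ 0 := by
    intro h
    have := congrFun h ⟨0, by omega⟩
    rw [Pi.single_eq_same] at this
    exact one_ne_zero this
  obtain ⟨v, hv⟩ := hS _ hz
  have h1 := pf_coeff hT (Pi.single (⟨0, by omega⟩ : Fin N) (1 : k)) v
  rw [h0, map_zero, coeff_zero] at h1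
  exact mul_ne_zero (pf_four h2) hv h1.symm

omit [IsAlgClosed k] in
private theorem pf_zero : MvPolynomial.eval (0 : Fin N → k) (fP T) = 0 := by
  rw [← pf_ae, aeval_fP, phi_zero1]

private theorem pf_const (h2 : (2 : k) ≠ 0) (hT : SymT T) (hS : Smo T) (hN : 3 ≤ N)
    {g h : MvPolynomial (Fin N) k} (hF : fP T = g * h)
    (hg : MvPolynomial.eval (0 : Fin N → k) g ≠ 0) : IsUnit g := by
  have hinf : Infinite k := inferInstance
  have key : ∀ x : Fin N → k, MvPolynomial.eval x (fP T) ≠ 0 →
      MvPolynomial.eval x g = MvPolynomial.eval (0 : Fin N → k) g := by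
    intro x hx
    obtain ⟨y, hy⟩ : ∃ y : Fin N → k[X], y = (X : k[X]) • (fun i => C (x i)) := ⟨_, rfl⟩
    have hy0 : (fun i => Polynomial.eval 0 (y i)) = (0 : Fin N → k) := by
      funext i
      rw [hy]
      simp
    have hy1 : (fun i => Polynomial.eval 1 (y i)) = x := by
      funext i
      rw [hy]
      simp
    have h1 : MvPolynomial.aeval y g * MvPolynomial.aeval y h =
        X ^ 4 * C (MvPolynomial.eval x (fP T)) := by
      rw [← map_mul, ← hF, aeval_fP, hy, phi_smul1, phi_smul2, phi_smul3, phi_smul4,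
        ← pf_ae, aeval_fP]
      have h3 : phi T (fun i => C (x i)) (fun i => C (x i)) (fun i => C (x i))
          (fun i => C (x i)) = C (phi T x x x x) := phi_algebraMap (S := k[X]) T x x x x
      rw [h3]
      ring
    have h4 : MvPolynomial.aeval y g ∣ (X : k[X]) ^ 4 := by
      refine ⟨MvPolynomial.aeval y h * C (MvPolynomial.eval x (fP T))⁻¹, ?_⟩
      rw [← mul_assoc, h1, mul_assoc, ← C_mul, mul_inv_cancel₀ hx, C_1, mul_one]
    obtain ⟨i, -, hi⟩ := (dvd_prime_pow Polynomial.prime_X 4).1 h4
    obtain ⟨u, hu⟩ := hi.symm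
    have h5 := pf_eval y 0 g
    rw [hy0] at h5
    have hi0 : i = 0 := by
      by_contra hne
      apply hg
      rw [← h5, ← hu, eval_mul, eval_pow, eval_X, zero_pow hne, zero_mul]
    rw [hi0, pow_zero, one_mul] at hu
    obtain ⟨c, -, hc⟩ := Polynomial.isUnit_iff.1 u.isUnit
    have h6 := pf_eval y 1 g
    rw [hy1] at h6
    rw [← h5, ← h6, ← hu, ← hc, eval_C, eval_C]
  have h7 : (g - MvPolynomial.C (MvPolynomial.eval (0 : Fin N → k) g)) * fP T = 0 := by
    apply MvPolynomial.funext
    intro x
    rw [map_mul, map_sub, MvPolynomial.eval_C, map_zero]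
    by_cases hx : MvPolynomial.eval x (fP T) = 0
    · rw [hx, mul_zero]
    · rw [key x hx, sub_self, zero_mul]
  have h8 := (mul_eq_zero.1 h7).resolve_right (pf_ne h2 hT hS hN)
  rw [sub_eq_zero.1 h8]
  exact (isUnit_iff_ne_zero.2 hg).map MvPolynomial.C

theorem prime_fP (h2 : (2 : k) ≠ 0) (hT : SymT T) (hS : Smo T) (hN : 3 ≤ N) : Prime (fP T) := by
  apply UniqueFactorizationMonoid.irreducible_iff_prime.1
  refine ⟨fun hu => ?_, fun g h hF => ?_⟩
  · have h1 := hu.map (MvPolynomial.eval (0 : Fin N → k))
    rw [pf_zero] at h1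
    exact not_isUnit_zero h1
  by_cases hg : MvPolynomial.eval (0 : Fin N → k) g = 0
  · by_cases hh : MvPolynomial.eval (0 : Fin N → k) h = 0
    · exfalso
      classical
      obtain ⟨z, hz, hz2⟩ := Helper41.Eggert.exists_ne_zero_common_zero
        ({g, h} : Finset (MvPolynomial (Fin N) k))
        (lt_of_le_of_lt Finset.card_le_two (by omega)) (by
          intro f hf
          rw [Finset.mem_insert, Finset.mem_singleton] at hf
          rcases hf with rfl | rfl
          · exact hg
          · exact hh)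
      obtain ⟨v, hv⟩ := hS z hz
      have h1 := pf_coeff hT z v
      obtain ⟨y, hy⟩ : ∃ y : Fin N → k[X], y = (fun i => C (z i)) +
        (X : k[X]) • (fun i => C (v i)) := ⟨_, rfl⟩
      rw [← hy] at h1
      have hy0 : (fun i => Polynomial.eval 0 (y i)) = z := by
        funext i
        rw [hy]
        simp
      have h3 : ∀ f : MvPolynomial (Fin N) k, MvPolynomial.eval z f = 0 →
          X ∣ MvPolynomial.aeval y f := by
        intro f hf
        rw [Polynomial.X_dvd_iff, Polynomial.coeff_zero_eq_eval_zero, pf_eval, hy0, hf]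
      have h4 : (X : k[X]) ^ 2 ∣ MvPolynomial.aeval y (fP T) := by
        rw [hF, map_mul, pow_two]
        exact mul_dvd_mul (h3 g (hz2 g (by simp))) (h3 h (hz2 h (by simp)))
      have h5 := Polynomial.X_pow_dvd_iff.1 h4 1 (by norm_num)
      rw [h5] at h1
      exact mul_ne_zero (pf_four h2) hv h1.symm
    · right
      rw [mul_comm] at hF
      exact pf_const h2 hT hS hN hF hh
  · left
    exact pf_const h2 hT hS hN hF hg

/-- Nullstellensatz for the quartic -/
theorem dvd_of_vanish (h2 : (2 : k) ≠ 0) (hT : SymT T) (hS : Smo T) (hN : 3 ≤ N)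
    (g : MvPolynomial (Fin N) k)
    (hg : ∀ x : Fin N → k, phi T x x x x = 0 → MvPolynomial.eval x g = 0) : fP T ∣ g := by
  have hP := prime_fP h2 hT hS hN
  have h1 := MvPolynomial.vanishingIdeal_zeroLocus_eq_radical (K := k)
    (Ideal.span ({fP T} : Set (MvPolynomial (Fin N) k)))
  have h3 : (Ideal.span ({fP T} : Set (MvPolynomial (Fin N) k))).IsPrime :=
    (Ideal.span_singleton_prime hP.ne_zero).2 hP
  rw [h3.radical] at h1
  rw [← Ideal.mem_span_singleton, ← h1]
  intro x hx
  rw [pf_ae]
  apply hg
  rw [MvPolynomial.zeroLocus_span] at hx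
  have h4 := hx (fP T) (Set.mem_singleton _)
  rw [aeval_fP] at h4
  exact h4

end Pool.Agent.Helper72.QT
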