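import Pool.Agent.Helper72.QT.Basic
import Pool.Agent.Helper41.Eggert.Zero

/-!
# QT-12: a vertex for a rational curve through a point

PROOF. Choose `i0` with `x0 i0 ≠ 0`. The three polynomials `phi T x x x x`, `phi T x x x x0`, `phi T x x x0 x0` in the four coordinates `x_i`, `i ≠ i0` (put `x_{i0} = 0`; `Fin.succAbove i0 : Fin 4 → Fin 5`), vanish at `0`, so by
`Helper41.Eggert.exists_ne_zero_common_zero` (`N = 4`) they have a common zero `c ≠ 0`; `x1 = Fin.insertNth i0 0 c` (`i0.insertNth 0 c`). `x0`, `x1` are linearly independent as `x1 ≠ 0`, `x1 i0 = 0`, `x0 i0 ≠ 0`.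
-/

set_option autoImplicit false

namespace Pool.Agent.Helper72.QT

open Polynomial

variable {k : Type*} [Field k] [IsAlgClosed k] {T : Ten k 5}

theorem exists_x1 (x0 : Fin 5 → k) (hx : x0 ≠ 0) :
    ∃ x1 : Fin 5 → k, InW T x1 x0 ∧ LinearIndependent k ![x0, x1] := by
  classical
  obtain ⟨i0, hi0⟩ := Function.ne_iff.1 hx
  obtain ⟨P, hPd⟩ : ∃ P : Fin 5 → MvPolynomial (Fin 4) k,
      P = i0.insertNth (0 : MvPolynomial (Fin 4) k) MvPolynomial.X := ⟨_, rfl⟩
  obtain ⟨Q, hQd⟩ : ∃ Q : Fin 5 → MvPolynomial (Fin 4) k,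
      Q = fun i => MvPolynomial.C (x0 i) := ⟨_, rfl⟩
  have hP : ∀ c : Fin 4 → k, (fun i => MvPolynomial.aeval c (P i)) =
      (i0.insertNth (0 : k) c : Fin 5 → k) := by
    intro c
    funext i
    refine Fin.succAboveCases i0 ?_ ?_ i
    · rw [hPd, Fin.insertNth_apply_same, Fin.insertNth_apply_same, map_zero]
    · intro j
      rw [hPd, Fin.insertNth_apply_succAbove, Fin.insertNth_apply_succAbove, MvPolynomial.aeval_X]
  have hQ : ∀ c : Fin 4 → k, (fun i => MvPolynomial.aeval c (Q i)) = x0 := by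
    intro c
    funext i
    rw [hQd, MvPolynomial.aeval_C, Algebra.algebraMap_self, RingHom.id_apply]
  have hev : ∀ (c : Fin 4 → k) (x y z w : Fin 5 → MvPolynomial (Fin 4) k),
      MvPolynomial.eval c (phi T x y z w) = phi T (fun i => MvPolynomial.aeval c (x i))
        (fun i => MvPolynomial.aeval c (y i)) (fun i => MvPolynomial.aeval c (z i))
        (fun i => MvPolynomial.aeval c (w i)) := by
    intro c x y z w
    rw [phi_map T (MvPolynomial.aeval c : MvPolynomial (Fin 4) k →ₐ[k] k),
      MvPolynomial.aeval_eq_eval]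
  have h0 : (i0.insertNth (0 : k) (0 : Fin 4 → k) : Fin 5 → k) = 0 := by
    funext i
    refine Fin.succAboveCases i0 ?_ ?_ i
    · rw [Fin.insertNth_apply_same, Pi.zero_apply]
    · intro j
      rw [Fin.insertNth_apply_succAbove, Pi.zero_apply, Pi.zero_apply]
  obtain ⟨c, hc, hall⟩ := Helper41.Eggert.exists_ne_zero_common_zero
    ({phi T P P P P, phi T P P P Q, phi T P P Q Q} : Finset (MvPolynomial (Fin 4) k))
    (lt_of_le_of_lt Finset.card_le_three (by norm_num)) (by
      intro f hf
      rw [Finset.mem_insert, Finset.mem_insert, Finset.mem_singleton] at hf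
      rcases hf with rfl | rfl | rfl <;>
      · rw [hev, hP, h0]
        exact phi_zero1 T _ _ _)
  have hne : (i0.insertNth (0 : k) c : Fin 5 → k) ≠ 0 := by
    intro h
    apply hc
    funext j
    have := congrFun h (i0.succAbove j)
    rwa [Fin.insertNth_apply_succAbove] at this
  refine ⟨i0.insertNth (0 : k) c, ⟨?_, ?_, ?_⟩, ?_⟩
  · have := hall (phi T P P P P) (by simp)
    rwa [hev, hP] at this
  · have := hall (phi T P P P Q) (by simp)
    rwa [hev, hP, hQ] at this
  · have := hall (phi T P P Q Q) (by simp)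
    rwa [hev, hP, hQ] at this
  · rw [LinearIndependent.pair_iff]
    intro s t hst
    have h1 := congrFun hst i0
    rw [Pi.add_apply, Pi.smul_apply, Pi.smul_apply, Fin.insertNth_apply_same, smul_zero, add_zero,
      Pi.zero_apply, smul_eq_mul] at h1
    have hs : s = 0 := (mul_eq_zero.1 h1).resolve_right hi0
    refine ⟨hs, ?_⟩
    rw [hs, zero_smul, zero_add] at hst
    exact (smul_eq_zero.1 hst).resolve_right hne

end Pool.Agent.Helper72.QT
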